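import Pool.Agent.H.MP_84f0af_lc.CookLevin

/-!
The theorem of Cook and Levin for the machines of Mathlib: each language in NP reduces to the
satisfiability of formulas in conjunctive normal form (clauses with three literals).
-/

namespace Pool.Agent.H.MP_84f0af_lc

open Turing Function

/-- Formulas in conjunctive normal form: lists of clauses; a literal is a sign and a variable. -/
abbrev Cnf := List (List (Bool × ℕ))

/-- satisfiability -/
def CnfSat (F : Cnf) : Prop := ∃ τ : ℕ → Bool, ∀ c ∈ F, ∃ l ∈ c, τ l.2 = l.1

/-- The code of a literal: the variable in unary followed by the sign. -/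
def encLit (l : Bool × ℕ) : List (Option (Option Bool)) :=
  List.replicate l.2 none ++ [some (some l.1)]

/-- The code of a formula: the literals of the clauses, a symbol at the end of each clause. -/
def encCnf (F : Cnf) : List (Option (Option Bool)) :=
  F.flatMap fun c => c.flatMap encLit ++ [some none]

/-- the literal with a given number -/
def litOf (l : ℕ) : Bool × ℕ := (decide (l % 2 = 0), l / 2)

variable {Γ₀ τ : Type} [Env τ Γ₀]

theorem Emits.lit {f : τ → ℕ} (hf : UF (Option (Option Bool)) f) :
    Emits (Option (Option Bool)) (fun t => encLit (litOf (f t))) := by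
  have h1 : Emits (Option (Option Bool)) (fun t : τ => (List.range (f t / 2)).flatMap
      fun _ => [(none : Option (Option Bool))]) :=
    Emits.loop (F := fun _ => [none]) (Emits.sym _) (hf.div (UF.const 2))
  have h2 : Emits (Option (Option Bool)) (fun t : τ => if f t % 2 = 0 then [some (some true)]
      else [some (some false)]) :=
    Emits.ite (UP.eq (hf.mod (UF.const 2)) (UF.const 0)) (Emits.sym _) (Emits.sym _)
  refine (h1.append h2).congr fun t => ?_
  unfold encLit litOf
  congr 1
  · generalize f t / 2 = n
    induction n with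
    | zero => rfl
    | succ n ih => rw [List.range_succ, List.flatMap_append, ih, List.replicate_succ']; simp
  · split_ifs with h <;> simp [h]

/-- Cook-Levin: a language in NP over a finite alphabet reduces in polynomial time to the
satisfiability of formulas with three literals in each clause. -/
theorem cook_levin {Γ : Type} [Fintype Γ] (L : Set (List Γ)) (hL : InNP L) :
    ∃ f : List Γ → Cnf,
      Nonempty (TM2ComputableInPolyTime (id : List Γ → List Γ) encCnf f) ∧
      (∀ x, ∀ c ∈ f x, c.length = 3) ∧ ∀ x, x ∈ L ↔ CnfSat (f x) := by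
  classical
  obtain ⟨n, m, ks, hn, hm, hn1, hsat⟩ := np_families hL (Option (Option Bool))
  let a : ℕ × List Γ → ℕ := fun p => pick (fA n) 0 ks (dec p)
  let b : ℕ × List Γ → ℕ := fun p => pick (fB n) 1 ks (dec p)
  let c : ℕ × List Γ → ℕ := fun p => pick (fC n) 1 ks (dec p)
  have ha : UF (Option (Option Bool)) a := UF.dec (UF.pick _ _ (fun K =>
    (UF.ite (UP.gd hn K) K.hA (UF.const 0)).congr fun e => by unfold fA; congr) ks)
  have hb : UF (Option (Option Bool)) b := UF.dec (UF.pick _ _ (fun K =>
    (UF.ite (UP.gd hn K) K.hB (UF.const 1)).congr fun e => by unfold fB; congr) ks)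
  have hc : UF (Option (Option Bool)) c := UF.dec (UF.pick _ _ (fun K =>
    (UF.ite (UP.gd hn K) K.hC (UF.const 1)).congr fun e => by unfold fC; congr) ks)
  let f : List Γ → Cnf := fun x => (List.range (m x)).map fun j =>
    [litOf (a (j, x)), litOf (b (j, x)), litOf (c (j, x))]
  have hE : Emits (Option (Option Bool)) (fun x : List Γ => (List.range (m x)).flatMap fun j =>
      (encLit (litOf (a (j, x))) ++ (encLit (litOf (b (j, x))) ++
        (encLit (litOf (c (j, x))) ++ [some none])))) :=
    Emits.loop (F := fun p => (encLit (litOf (a p)) ++ (encLit (litOf (b p)) ++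
        (encLit (litOf (c p)) ++ [some none]))))
      ((Emits.lit ha).append ((Emits.lit hb).append ((Emits.lit hc).append (Emits.sym _)))) hm
  refine ⟨f, hE.computable encCnf f fun x => ?_, ?_, fun x => ?_⟩
  · simp only [f, encCnf]
    rw [List.flatMap_map]
    congr 1
    funext j
    simp only [List.flatMap_cons, List.flatMap_nil, List.append_assoc, List.append_nil]
  · intro x cl hcl
    simp only [f, List.mem_map] at hcl
    obtain ⟨j, _, rfl⟩ := hcl
    rfl
  · rw [hsat x]
    unfold Fml.Sat CnfSat
    constructor
    · rintro ⟨τ, hτ⟩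
      refine ⟨τ, fun cl hcl => ?_⟩
      simp only [f, List.mem_map, List.mem_range] at hcl
      obtain ⟨j, hj, rfl⟩ := hcl
      obtain ⟨l, hl, hl'⟩ := hτ j hj ⟨_, Finset.mem_insert_self _ _⟩
      have hl2 : l = a (j, x) ∨ l = b (j, x) ∨ l = c (j, x) := by
        simpa [famF, mkF] using hl
      refine ⟨litOf l, ?_, hl'⟩
      rcases hl2 with rfl | rfl | rfl <;> simp
    · rintro ⟨τ, hτ⟩
      refine ⟨τ, fun j hj _ => ?_⟩
      obtain ⟨l, hl, hl'⟩ := hτ [litOf (a (j, x)), litOf (b (j, x)), litOf (c (j, x))]
        (List.mem_map.2 ⟨j, List.mem_range.2 hj, rfl⟩)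
      have key : ∀ l₀, l = litOf l₀ → (l₀ = a (j, x) ∨ l₀ = b (j, x) ∨ l₀ = c (j, x)) →
          ∃ l ∈ (famF n m ks x).cl j, LitTrue τ l := by
        intro l₀ h1 h2
        refine ⟨l₀, ?_, ?_⟩
        · simpa [famF, mkF] using h2
        · rw [h1] at hl'
          exact hl'
      simp only [List.mem_cons, List.not_mem_nil, or_false] at hl
      rcases hl with h | h | h
      · exact key _ h (Or.inl rfl)
      · exact key _ h (Or.inr (Or.inl rfl))
      · exact key _ h (Or.inr (Or.inr rfl))

end Pool.Agent.H.MP_84f0af_lc
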