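import Pool.Agent.H.MP_84f0af_lc.EmitPin

/-!
Formulas given by finitely many families of clauses.
-/

namespace Pool.Agent.H.MP_84f0af_lc

open Function

variable {Γ₀ Γ₁ τ τ' : Type} [Env τ Γ₀] [Env τ' Γ₀]

/-! ### Pairing -/

theorem UF.sqrt {f : τ → ℕ} (hf : UF Γ₁ f) : UF Γ₁ (fun t => Nat.sqrt (f t)) := by
  have h1 : UF Γ₁ (fun p : ℕ × τ => if (p.1 + 1) * (p.1 + 1) ≤ f p.2 then 1 else 0) :=
    UF.ite (UP.le (UF.fst.succ.mul UF.fst.succ) hf.weak) (UF.const 1) (UF.const 0)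
  refine (UF.sum h1 hf).congr fun t => ?_
  show (∑ i ∈ Finset.range (f t), if (i + 1) * (i + 1) ≤ f t then 1 else 0) = Nat.sqrt (f t)
  rw [← Finset.card_filter]
  have e : (Finset.range (f t)).filter (fun i => (i + 1) * (i + 1) ≤ f t)
      = Finset.range (Nat.sqrt (f t)) := by
    ext i
    simp only [Finset.mem_filter, Finset.mem_range]
    rw [← Nat.le_sqrt]
    have := Nat.sqrt_le_self (f t)
    omega
  rw [e, Finset.card_range]

theorem UF.pair {f g : τ → ℕ} (hf : UF Γ₁ f) (hg : UF Γ₁ g) :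
    UF Γ₁ (fun t => Nat.pair (f t) (g t)) :=
  UF.ite (UP.lt hf hg) ((hg.mul hg).add hf) (((hf.mul hf).add hf).add hg)

theorem UF.u1 {f : τ → ℕ} (hf : UF Γ₁ f) : UF Γ₁ (fun t => (Nat.unpair (f t)).1) := by
  have hs := hf.sqrt
  have hd := hf.sub (hs.mul hs)
  refine (UF.ite (UP.lt hd hs) hd hs).congr fun t => ?_
  unfold Nat.unpair
  simp only
  split_ifs <;> rfl

theorem UF.u2 {f : τ → ℕ} (hf : UF Γ₁ f) : UF Γ₁ (fun t => (Nat.unpair (f t)).2) := by
  have hs := hf.sqrt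
  have hd := hf.sub (hs.mul hs)
  refine (UF.ite (UP.lt hd hs) hs (hd.sub hs)).congr fun t => ?_
  unfold Nat.unpair
  simp only
  split_ifs <;> rfl

theorem pair_lt {R a b : ℕ} (ha : a < R) (hb : b < R) : Nat.pair a b < R ^ 2 := by
  refine (Nat.pair_lt_max_add_one_sq a b).trans_le (Nat.pow_le_pow_left ?_ 2)
  omega

/-! ### Families of clauses -/

/-- environment of the families of clauses: five numbers and the input -/
abbrev CE (Γ₀ : Type) := ℕ × ℕ × ℕ × ℕ × ℕ × List Γ₀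

/-- a family of clauses: a guard and three literals -/
structure Kind (Γ₀ Γ₁ : Type) where
  G : CE Γ₀ → Prop
  A : CE Γ₀ → ℕ
  B : CE Γ₀ → ℕ
  C : CE Γ₀ → ℕ
  hG : UP Γ₁ G
  hA : UF Γ₁ A
  hB : UF Γ₁ B
  hC : UF Γ₁ C

/-- selection of an element of a list of families -/
def pick (f : Kind Γ₀ Γ₁ → CE Γ₀ → ℕ) (d : ℕ) (ks : List (Kind Γ₀ Γ₁)) (p : ℕ × CE Γ₀) : ℕ :=
  match ks[p.1]? with
  | some K => f K p.2
  | none => d

theorem UF.pick (f : Kind Γ₀ Γ₁ → CE Γ₀ → ℕ) (d : ℕ) (hf : ∀ K, UF Γ₁ (f K))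
    (ks : List (Kind Γ₀ Γ₁)) : UF Γ₁ (MP_84f0af_lc.pick f d ks) := by
  induction ks with
  | nil => exact (UF.const d).congr fun t => rfl
  | cons K ks ih =>
    have h1 : UF Γ₁ (fun q : ℕ × ℕ × CE Γ₀ => MP_84f0af_lc.pick f d ks (q.1, q.2.2)) :=
      ih.rename (Ren.cons IsVar.fst Ren.id.weak.weak)
    have h2 : UF Γ₁ (fun p : ℕ × CE Γ₀ => MP_84f0af_lc.pick f d ks (p.1 - 1, p.2)) :=
      UF.comp h1 UF.fst.pred
    refine (UF.ite (P := fun p : ℕ × CE Γ₀ => p.1 = 0) (UP.eq UF.fst (UF.const 0))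
      (hf K).weak h2).congr fun p => ?_
    obtain ⟨i, e⟩ := p
    cases i with
    | zero => rfl
    | succ i => rfl

variable (n : List Γ₀ → ℕ)

/-- guard with bounds for the literals -/
def gd (K : Kind Γ₀ Γ₁) (e : CE Γ₀) : Prop :=
  K.G e ∧ K.A e < 2 * n e.2.2.2.2.2 ∧ K.B e < 2 * n e.2.2.2.2.2 ∧ K.C e < 2 * n e.2.2.2.2.2

open Classical in
noncomputable def fA (K : Kind Γ₀ Γ₁) (e : CE Γ₀) : ℕ := if gd n K e then K.A e else 0

open Classical in
noncomputable def fB (K : Kind Γ₀ Γ₁) (e : CE Γ₀) : ℕ := if gd n K e then K.B e else 1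

open Classical in
noncomputable def fC (K : Kind Γ₀ Γ₁) (e : CE Γ₀) : ℕ := if gd n K e then K.C e else 1

/-- the parameters of a clause -/
def dec (p : ℕ × List Γ₀) : ℕ × CE Γ₀ :=
  ((Nat.unpair (Nat.unpair p.1).1).1, (Nat.unpair (Nat.unpair p.1).1).2,
    (Nat.unpair (Nat.unpair (Nat.unpair p.1).2).1).1,
    (Nat.unpair (Nat.unpair (Nat.unpair p.1).2).1).2,
    (Nat.unpair (Nat.unpair (Nat.unpair p.1).2).2).1,
    (Nat.unpair (Nat.unpair (Nat.unpair p.1).2).2).2, p.2)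

/-- the number of a clause -/
def codeC (kd t k i c a : ℕ) : ℕ :=
  Nat.pair (Nat.pair kd t) (Nat.pair (Nat.pair k i) (Nat.pair c a))

theorem dec_codeC (kd t k i c a : ℕ) (x : List Γ₀) :
    dec (codeC kd t k i c a, x) = (kd, t, k, i, c, a, x) := by
  simp [dec, codeC]

theorem codeC_lt {R kd t k i c a : ℕ} (h0 : kd < R) (h1 : t < R) (h2 : k < R) (h3 : i < R)
    (h4 : c < R) (h5 : a < R) : codeC kd t k i c a < R ^ 8 := by
  have e1 := pair_lt h0 h1
  have e2 := pair_lt (pair_lt h2 h3) (pair_lt h4 h5)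
  have hR : 0 < R := by omega
  have e3 : R ^ 2 ≤ (R ^ 2) ^ 2 := by
    rw [sq (R ^ 2)]
    exact Nat.le_mul_of_pos_left _ (by positivity)
  have := pair_lt (e1.trans_le e3) e2
  calc _ < ((R ^ 2) ^ 2) ^ 2 := this
    _ = R ^ 8 := by ring

theorem UF.dec {F : ℕ × CE Γ₀ → ℕ} (hF : UF Γ₁ F) :
    UF Γ₁ (fun p : ℕ × List Γ₀ => F (MP_84f0af_lc.dec p)) := by
  -- all the parameters in front of the number
  have h0 : UF Γ₁ (fun q : ℕ × ℕ × ℕ × ℕ × ℕ × ℕ × (ℕ × List Γ₀) =>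
      F (q.1, q.2.1, q.2.2.1, q.2.2.2.1, q.2.2.2.2.1, q.2.2.2.2.2.1, q.2.2.2.2.2.2.2)) :=
    hF.rename (Ren.cons IsVar.fst (Ren.cons IsVar.fst.weak (Ren.cons IsVar.fst.weak.weak
      (Ren.cons IsVar.fst.weak.weak.weak (Ren.cons IsVar.fst.weak.weak.weak.weak
        (Ren.cons IsVar.fst.weak.weak.weak.weak.weak
          Ren.id.weak.weak.weak.weak.weak.weak.weak))))))
  have hj : UF Γ₁ (fun p : ℕ × List Γ₀ => p.1) := UF.fst
  have h1 := UF.comp h0 (g := fun q => (Nat.unpair (Nat.unpair q.2.2.2.2.2.1).1).1)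
    hj.u1.u1.weak.weak.weak.weak.weak
  have h2 := UF.comp h1 (g := fun q => (Nat.unpair (Nat.unpair q.2.2.2.2.1).1).2)
    hj.u1.u2.weak.weak.weak.weak
  have h3 := UF.comp h2 (g := fun q => (Nat.unpair (Nat.unpair (Nat.unpair q.2.2.2.1).2).1).1)
    hj.u2.u1.u1.weak.weak.weak
  have h4 := UF.comp h3 (g := fun q => (Nat.unpair (Nat.unpair (Nat.unpair q.2.2.1).2).1).2)
    hj.u2.u1.u2.weak.weak
  have h5 := UF.comp h4 (g := fun q => (Nat.unpair (Nat.unpair (Nat.unpair q.2.1).2).2).1)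
    hj.u2.u2.u1.weak
  exact UF.comp h5 (g := fun q => (Nat.unpair (Nat.unpair (Nat.unpair q.1).2).2).2) hj.u2.u2.u2

variable {n}

theorem UP.gd (hn : UF Γ₁ n) (K : Kind Γ₀ Γ₁) : UP Γ₁ (MP_84f0af_lc.gd n K) := by
  have hn' : UF Γ₁ (fun e : CE Γ₀ => 2 * n e.2.2.2.2.2) :=
    (UF.const 2).mul hn.weak.weak.weak.weak.weak
  exact K.hG.and ((UP.lt K.hA hn').and ((UP.lt K.hB hn').and (UP.lt K.hC hn')))

variable (n)

/-- the formula of a list of families -/
noncomputable def famF (m : List Γ₀ → ℕ) (ks : List (Kind Γ₀ Γ₁)) (x : List Γ₀) : Fml :=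
  mkF n m (fun p => pick (fA n) 0 ks (dec p)) (fun p => pick (fB n) 1 ks (dec p))
    (fun p => pick (fC n) 1 ks (dec p)) x

variable {n}

theorem emits_famF {m : List Γ₀ → ℕ} (hn : UF (Option Bool) n) (hm : UF (Option Bool) m)
    (ks : List (Kind Γ₀ (Option Bool))) :
    Emits (Option Bool) (fun x => encNums (famF n m ks x).periods) := by
  classical
  refine Emits.periods hn hm (UF.dec (UF.pick _ _ (fun K => ?_) ks))
    (UF.dec (UF.pick _ _ (fun K => ?_) ks)) (UF.dec (UF.pick _ _ (fun K => ?_) ks))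
  · exact (UF.ite (UP.gd hn K) K.hA (UF.const 0)).congr fun e => by unfold fA; congr
  · exact (UF.ite (UP.gd hn K) K.hB (UF.const 1)).congr fun e => by unfold fB; congr
  · exact (UF.ite (UP.gd hn K) K.hC (UF.const 1)).congr fun e => by unfold fC; congr

theorem good_famF {m : List Γ₀ → ℕ} (hn1 : ∀ x, 1 ≤ n x) (ks : List (Kind Γ₀ Γ₁))
    (x : List Γ₀) : (famF n m ks x).Good := by
  constructor
  · exact fun l _ => qq_gt l
  · exact fun l _ => qq_coprime_two l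
  · exact fun l _ => qq_coprime_three l
  · exact fun l _ l' _ h => qq_coprime h
  · intro j _ l hl
    show l < 2 * n x
    have h1 := hn1 x
    simp only [famF, mkF, Finset.mem_insert, Finset.mem_singleton] at hl
    have hx : (dec (j, x)).2.2.2.2.2.2 = x := rfl
    generalize dec (j, x) = d at hl hx
    obtain ⟨kd, e⟩ := d
    unfold pick at hl
    simp only at hl hx
    cases hK : ks[kd]? with
    | none =>
      rw [hK] at hl
      simp only at hl
      omega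
    | some K =>
      rw [hK] at hl
      simp only at hl
      by_cases hg : gd n K e
      · have hg' := hg
        unfold gd at hg'
        rw [hx] at hg'
        simp only [fA, fB, fC, if_pos hg] at hl
        omega
      · simp only [fA, fB, fC, if_neg hg] at hl
        omega

/-- the formula is satisfiable if there is an assignment for the clauses of the families -/
theorem sat_of {m : List Γ₀ → ℕ} (ks : List (Kind Γ₀ Γ₁)) (x : List Γ₀) (τ : ℕ → Bool)
    (h : ∀ K ∈ ks, ∀ t k i c a, K.G (t, k, i, c, a, x) → LitTrue τ (K.A (t, k, i, c, a, x)) ∨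
      LitTrue τ (K.B (t, k, i, c, a, x)) ∨ LitTrue τ (K.C (t, k, i, c, a, x))) :
    (famF n m ks x).Sat := by
  refine ⟨τ, fun j _ _ => ?_⟩
  have fill : LitTrue τ 0 ∨ LitTrue τ 1 := by
    unfold LitTrue
    cases τ 0 <;> simp
  simp only [famF, mkF, Finset.mem_insert, Finset.mem_singleton]
  have hx : (dec (j, x)).2.2.2.2.2.2 = x := rfl
  generalize dec (j, x) = d at hx ⊢
  obtain ⟨kd, t, k, i, c, a, x'⟩ := d
  have hx' : x' = x := hx
  subst hx'
  unfold pick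
  simp only
  cases hK : ks[kd]? with
  | none =>
    simp only
    rcases fill with h0 | h0
    · exact ⟨0, Or.inl rfl, h0⟩
    · exact ⟨1, Or.inr (Or.inl rfl), h0⟩
  | some K =>
    simp only
    by_cases hg : gd n K (t, k, i, c, a, x')
    · simp only [fA, fB, fC, if_pos hg]
      rcases h K (List.mem_of_getElem? hK) t k i c a hg.1 with h0 | h0 | h0
      · exact ⟨_, Or.inl rfl, h0⟩
      · exact ⟨_, Or.inr (Or.inl rfl), h0⟩
      · exact ⟨_, Or.inr (Or.inr rfl), h0⟩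
    · simp only [fA, fB, fC, if_neg hg]
      rcases fill with h0 | h0
      · exact ⟨0, Or.inl rfl, h0⟩
      · exact ⟨1, Or.inr (Or.inl rfl), h0⟩

theorem of_sat {m : List Γ₀ → ℕ} {ks : List (Kind Γ₀ Γ₁)} {x : List Γ₀} {R : ℕ}
    (hR : R ^ 8 ≤ m x) (hks : ks.length ≤ R) (h : (famF n m ks x).Sat) :
    ∃ τ : ℕ → Bool, ∀ K ∈ ks, ∀ t < R, ∀ k < R, ∀ i < R, ∀ c < R, ∀ a < R,
      K.G (t, k, i, c, a, x) → K.A (t, k, i, c, a, x) < 2 * n x →
      K.B (t, k, i, c, a, x) < 2 * n x → K.C (t, k, i, c, a, x) < 2 * n x →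
      LitTrue τ (K.A (t, k, i, c, a, x)) ∨
      LitTrue τ (K.B (t, k, i, c, a, x)) ∨ LitTrue τ (K.C (t, k, i, c, a, x)) := by
  obtain ⟨τ, hτ⟩ := h
  refine ⟨τ, ?_⟩
  intro K hK t ht k hk i hi c hc a ha hG hA hB hC
  obtain ⟨kd, hkd, hKe⟩ := List.mem_iff_getElem.1 hK
  have hj := codeC_lt (hkd.trans_le hks) ht hk hi hc ha
  have hg : gd n K (t, k, i, c, a, x) := ⟨hG, hA, hB, hC⟩
  obtain ⟨l, hl, hl'⟩ := hτ _ (hj.trans_le hR) (by
    simp only [famF, mkF]
    exact ⟨_, Finset.mem_insert_self _ _⟩)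
  simp only [famF, mkF, Finset.mem_insert, Finset.mem_singleton, dec_codeC, pick] at hl
  rw [List.getElem?_eq_getElem hkd, hKe] at hl
  simp only [fA, fB, fC, if_pos hg] at hl
  rcases hl with hl | hl | hl
  · rw [hl] at hl'; exact Or.inl hl'
  · rw [hl] at hl'; exact Or.inr (Or.inl hl')
  · rw [hl] at hl'; exact Or.inr (Or.inr hl')

end Pool.Agent.H.MP_84f0af_lc
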