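import Pool.Agent.H.MP_84f0af_lc.Sound

/-!
Completeness: a satisfying assignment gives disjoint residue classes.
-/

namespace Pool.Agent.H.MP_84f0af_lc

instance (τ : ℕ → Bool) (l : ℕ) : Decidable (LitTrue τ l) := by unfold LitTrue; infer_instance

theorem exists_enum {α : Type*} (s : Finset α) [Nonempty α] :
    ∃ f : ℕ → α, (∀ d < s.card, f d ∈ s) ∧ ∀ d < s.card, ∀ d' < s.card, f d = f d' → d = d' := by
  classical
  refine ⟨fun d => if h : d < s.card then (s.equivFin.symm ⟨d, h⟩ : α) else Classical.arbitrary α,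
    ?_, ?_⟩
  · intro d hd
    simp only [dif_pos hd]
    exact (s.equivFin.symm ⟨d, hd⟩).2
  · intro d hd d' hd' h
    simp only [dif_pos hd, dif_pos hd'] at h
    have := s.equivFin.symm.injective (Subtype.ext h)
    simpa using this

theorem crt_flat {k M a w ρ : ℕ} (hM : Nat.Coprime M (3 * 4 ^ k)) (ha : a < 3) (hw : w < 4 ^ k)
    (hρ : ρ < M) : ∃ r, ∀ x, x ≡ r [MOD 3 * 4 ^ k * M] →
      x % 3 = a ∧ x % 4 ^ k = w ∧ x % M = ρ := by
  obtain ⟨y, hy1, hy2⟩ := crt3 a w k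
  obtain ⟨r, hr1, hr2⟩ : ∃ r, r ≡ y [MOD 3 * 4 ^ k] ∧ r ≡ ρ [MOD M] :=
    ⟨(Nat.chineseRemainder hM.symm y ρ).1, (Nat.chineseRemainder hM.symm y ρ).2⟩
  refine ⟨r, fun x hx => ?_⟩
  have h1 : x ≡ r [MOD 3 * 4 ^ k] := hx.of_dvd (Dvd.intro _ rfl)
  have h2 : x ≡ r [MOD M] := hx.of_dvd (Dvd.intro_left _ rfl)
  have h3 := modEq_three_mul.1 (h1.trans hr1)
  refine ⟨?_, ?_, ?_⟩
  · have : x % 3 = a % 3 := h3.1.trans hy1
    rwa [Nat.mod_eq_of_lt ha] at this
  · have : x % 4 ^ k = w % 4 ^ k := h3.2.trans hy2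
    rwa [Nat.mod_eq_of_lt hw] at this
  · have : x % M = ρ % M := h2.trans hr2
    rwa [Nat.mod_eq_of_lt hρ] at this

theorem crt_tall {k M w ρ : ℕ} (hM : Nat.Coprime M (3 * 4 ^ k)) (hw : w < 4 ^ k)
    (hρ : ρ < M) : ∃ r, ∀ x, x ≡ r [MOD 4 ^ k * M] → x % 4 ^ k = w ∧ x % M = ρ := by
  have hM' : Nat.Coprime M (4 ^ k) := hM.coprime_dvd_right (Dvd.intro_left _ rfl)
  obtain ⟨r, hr1, hr2⟩ : ∃ r, r ≡ w [MOD 4 ^ k] ∧ r ≡ ρ [MOD M] :=
    ⟨(Nat.chineseRemainder hM'.symm w ρ).1, (Nat.chineseRemainder hM'.symm w ρ).2⟩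
  refine ⟨r, fun x hx => ?_⟩
  have h1 : x ≡ r [MOD 4 ^ k] := hx.of_dvd (Dvd.intro _ rfl)
  have h2 : x ≡ r [MOD M] := hx.of_dvd (Dvd.intro_left _ rfl)
  refine ⟨?_, ?_⟩
  · have : x % 4 ^ k = w % 4 ^ k := h1.trans hr1
    rwa [Nat.mod_eq_of_lt hw] at this
  · have : x % M = ρ % M := h2.trans hr2
    rwa [Nat.mod_eq_of_lt hρ] at this

/-- slice of cell `c` of literal `l` -/
def sl (τ : ℕ → Bool) (l c : ℕ) : ℕ := if LitTrue τ l then c else 1

/-- residue of cell `c` of literal `l` -/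
def wt (τ : ℕ → Bool) (l c : ℕ) : ℕ :=
  if LitTrue τ l then 4 ^ (2 * (l / 2) + 1) else 4 ^ (2 * (l / 2)) + c * 4 ^ (2 * (l / 2) + 1)

/-- the point `x` lies over cell `c` of literal `l` -/
def InCell (τ : ℕ → Bool) (l c x : ℕ) : Prop :=
  x % 3 = sl τ l c ∧ x % 4 ^ (2 * (l / 2) + 2) = wt τ l c

theorem sl_lt {τ : ℕ → Bool} {l c : ℕ} (hc : c < 3) : sl τ l c < 3 := by
  unfold sl; split_ifs <;> omega

theorem wt_lt {τ : ℕ → Bool} {l c : ℕ} (hc : c < 3) : wt τ l c < 4 ^ (2 * (l / 2) + 2) := by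
  unfold wt
  have e1 : 4 ^ (2 * (l / 2) + 1) = 4 * 4 ^ (2 * (l / 2)) := by ring
  have e2 : 4 ^ (2 * (l / 2) + 2) = 16 * 4 ^ (2 * (l / 2)) := by ring
  have : 0 < 4 ^ (2 * (l / 2)) := by positivity
  rw [e1, e2]
  generalize 4 ^ (2 * (l / 2)) = X at *
  split_ifs
  · omega
  · have : c * (4 * X) ≤ 2 * (4 * X) := Nat.mul_le_mul_right _ (by omega)
    omega

/-- group of `x` -/
def Grp (i x : ℕ) : Prop := x % 4 ^ (2 * i) = 0 ∧ x % 4 ^ (2 * i + 2) ≠ 0

theorem grp_unique {i i' x : ℕ} (h : Grp i x) (h' : Grp i' x) : i = i' := by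
  by_contra hne
  wlog hlt : i < i' generalizing i i'
  · exact this h' h (fun h => hne h.symm) (by omega)
  have h1 : 4 ^ (2 * i') ∣ x := Nat.dvd_of_mod_eq_zero h'.1
  have h2 : 4 ^ (2 * i + 2) ∣ x := (pow_dvd_pow 4 (by omega)).trans h1
  exact h.2 (Nat.mod_eq_zero_of_dvd h2)

/-- code of the site of `x` in group `i` -/
def sc (i x : ℕ) : ℕ :=
  if 2 ≤ x / 4 ^ (2 * i) % 4 then x / 4 ^ (2 * i) % 4
  else if x / 4 ^ (2 * i) % 4 = 1 then
    (if x % 3 = 0 then 10 else 20 + 4 * (x % 3) + x / 4 ^ (2 * i + 1) % 4)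
  else if 2 ≤ x / 4 ^ (2 * i + 1) % 4 then 40 + x / 4 ^ (2 * i + 1) % 4
  else 50 + x % 3

theorem digits_of_mod {x i a : ℕ} (h : x % 4 ^ (2 * i + 1) = a * 4 ^ (2 * i)) :
    x % 4 ^ (2 * i) = 0 ∧ x / 4 ^ (2 * i) % 4 = a := by
  have hp : 0 < 4 ^ (2 * i) := by positivity
  have h2 := Nat.mod_pow_succ (b := 4) (k := 2 * i) (x := x)
  rw [h] at h2
  have h3 : x % 4 ^ (2 * i) < 4 ^ (2 * i) := Nat.mod_lt _ hp
  have h4 : x % 4 ^ (2 * i) = 0 := by
    have : (x % 4 ^ (2 * i) + 4 ^ (2 * i) * (x / 4 ^ (2 * i) % 4)) % 4 ^ (2 * i) = 0 := by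
      rw [← h2]; simp
    rw [Nat.add_mul_mod_self_left, Nat.mod_mod] at this
    exact this
  refine ⟨h4, ?_⟩
  rw [h4, zero_add, mul_comm] at h2
  exact (Nat.eq_of_mul_eq_mul_left hp h2).symm

theorem digits2_of_mod {x i a b : ℕ}
    (h : x % 4 ^ (2 * i + 2) = a * 4 ^ (2 * i) + b * 4 ^ (2 * i + 1)) (ha : a < 4) :
    x % 4 ^ (2 * i) = 0 ∧ x / 4 ^ (2 * i) % 4 = a ∧ x / 4 ^ (2 * i + 1) % 4 = b := by
  have hp : 0 < 4 ^ (2 * i + 1) := by positivity
  have hp' : 0 < 4 ^ (2 * i) := by positivity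
  have e : 4 ^ (2 * i + 1) = 4 * 4 ^ (2 * i) := by ring
  have h2 := Nat.mod_pow_succ (b := 4) (k := 2 * i + 1) (x := x)
  rw [h] at h2
  have h3 : x % 4 ^ (2 * i + 1) < 4 ^ (2 * i + 1) := Nat.mod_lt _ hp
  have h4 : a * 4 ^ (2 * i) < 4 ^ (2 * i + 1) := by
    rw [e]; exact Nat.mul_lt_mul_of_pos_right ha hp'
  have h5 : x % 4 ^ (2 * i + 1) = a * 4 ^ (2 * i) := by
    have h2' : (a * 4 ^ (2 * i) + b * 4 ^ (2 * i + 1)) % 4 ^ (2 * i + 1) =
        (x % 4 ^ (2 * i + 1) + 4 ^ (2 * i + 1) * (x / 4 ^ (2 * i + 1) % 4)) % 4 ^ (2 * i + 1) := by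
      rw [← h2]
    rw [Nat.add_mul_mod_self_left, Nat.add_mul_mod_self_right, Nat.mod_eq_of_lt h4,
      Nat.mod_mod] at h2'
    exact h2'.symm
  obtain ⟨h6, h7⟩ := digits_of_mod h5
  refine ⟨h6, h7, ?_⟩
  rw [h5] at h2
  have h8 : 4 ^ (2 * i + 1) * b = 4 ^ (2 * i + 1) * (x / 4 ^ (2 * i + 1) % 4) := by
    rw [mul_comm _ b]; omega
  exact (Nat.eq_of_mul_eq_mul_left hp h8).symm

theorem grp_of {x i a b : ℕ} (h0 : x % 4 ^ (2 * i) = 0) (h1 : x / 4 ^ (2 * i) % 4 = a)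
    (h2 : x / 4 ^ (2 * i + 1) % 4 = b) (hab : a ≠ 0 ∨ b ≠ 0) : Grp i x := by
  refine ⟨h0, ?_⟩
  rw [Nat.mod_pow_succ, Nat.mod_pow_succ, h0, h1, h2]
  have hp : 0 < 4 ^ (2 * i + 1) := by positivity
  have hp' : 0 < 4 ^ (2 * i) := by positivity
  intro h
  rcases hab with h' | h'
  · have : 4 ^ (2 * i) * a = 0 := by omega
    rcases Nat.mul_eq_zero.1 this with h'' | h''
    · omega
    · exact h' h''
  · have : 4 ^ (2 * i + 1) * b = 0 := by omega
    rcases Nat.mul_eq_zero.1 this with h'' | h''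
    · omega
    · exact h' h''

theorem inCell_code {τ : ℕ → Bool} {l c x : ℕ} (h : InCell τ l c x) :
    Grp (l / 2) x ∧ sc (l / 2) x = (if LitTrue τ l then 50 + c else 24 + c) := by
  obtain ⟨h1, h2⟩ := h
  unfold sl at h1
  unfold wt at h2
  by_cases ht : LitTrue τ l
  · rw [if_pos ht] at h1 h2 ⊢
    have h3 : x % 4 ^ (2 * (l / 2) + 2) = 0 * 4 ^ (2 * (l / 2)) + 1 * 4 ^ (2 * (l / 2) + 1) := by
      rw [h2]; ring
    obtain ⟨h4, h5, h6⟩ := digits2_of_mod h3 (by norm_num)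
    refine ⟨grp_of h4 h5 h6 (Or.inr one_ne_zero), ?_⟩
    unfold sc
    rw [h5, h6]
    simp [h1]
  · rw [if_neg ht] at h1 h2 ⊢
    have h3 : x % 4 ^ (2 * (l / 2) + 2) = 1 * 4 ^ (2 * (l / 2)) + c * 4 ^ (2 * (l / 2) + 1) := by
      rw [h2]; ring
    obtain ⟨h4, h5, h6⟩ := digits2_of_mod h3 (by norm_num)
    refine ⟨grp_of h4 h5 h6 (Or.inl one_ne_zero), ?_⟩
    unfold sc
    rw [h5, h6, h1]
    simp

theorem inCell_unique {τ : ℕ → Bool} {l c l' c' x : ℕ} (hc : c < 3) (hc' : c' < 3)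
    (h : InCell τ l c x) (h' : InCell τ l' c' x) : l = l' ∧ c = c' := by
  obtain ⟨h1, h2⟩ := inCell_code h
  obtain ⟨h1', h2'⟩ := inCell_code h'
  have hi := grp_unique h1 h1'
  rw [hi, h2'] at h2
  by_cases ht : LitTrue τ l <;> by_cases ht' : LitTrue τ l'
  · rw [if_pos ht, if_pos ht'] at h2
    refine ⟨?_, by omega⟩
    unfold LitTrue at ht ht'
    rw [hi, ht', decide_eq_decide] at ht
    omega
  · rw [if_pos ht, if_neg ht'] at h2; omega
  · rw [if_neg ht, if_pos ht'] at h2; omega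
  · rw [if_neg ht, if_neg ht'] at h2
    refine ⟨?_, by omega⟩
    unfold LitTrue at ht ht'
    rw [hi] at ht
    by_cases p1 : l % 2 = 0 <;> by_cases p2 : l' % 2 = 0 <;> simp [p1, p2] at ht ht' <;> first
      | omega
      | (rw [ht'] at ht; simp at ht)

namespace Fml
variable {F : Fml}

/-- region of a fill tile -/
def InFill (F : Fml) : Tile → ℕ → Prop
  | .T k d, x => if k = 2 * F.n + 1 then x % 4 ^ k = d * 4 ^ (2 * F.n)
      else x % 4 ^ k = (d + 2) * 4 ^ (k - 1)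
  | .P i, x => x % 3 = 0 ∧ x % 4 ^ (2 * i + 1) = 4 ^ (2 * i)
  | .Y i d, x => x % 3 = (if d = 0 then 1 else 2) ∧
      x % 4 ^ (2 * i + 2) = 4 ^ (2 * i) + (if d = 0 then 3 else d - 1) * 4 ^ (2 * i + 1)
  | _, _ => False

def fgrp : Tile → ℕ
  | .T k _ => (k - 1) / 2
  | .P i => i
  | .Y i _ => i
  | _ => 0

def fcode : Tile → ℕ
  | .T k d => if k % 2 = 1 then d + 2 else 42 + d
  | .P _ => 10
  | .Y _ d => 27 + d
  | _ => 0

theorem inFill_code {t : Tile} (ht : t ∈ F.tiles) {x : ℕ} (h : F.InFill t x) :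
    (∃ d < 4, t = .T (2 * F.n + 1) d ∧ x % 4 ^ (2 * F.n) = 0 ∧ x / 4 ^ (2 * F.n) % 4 = d) ∨
    (fgrp t < F.n ∧ Grp (fgrp t) x ∧ sc (fgrp t) x = fcode t) := by
  cases t with
  | T k d =>
    simp only [InFill] at h
    rcases F.mem_T.1 ht with ⟨i, hi, hk, hd⟩ | ⟨hk, hd⟩
    · right
      rw [if_neg (by omega)] at h
      rcases hk with rfl | rfl
      · have e : fgrp (.T (2 * i + 1) d) = i := by simp only [fgrp]; omega
        rw [e]
        rw [Nat.add_sub_cancel] at h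
        obtain ⟨h1, h2⟩ := digits_of_mod h
        refine ⟨hi, grp_of h1 h2 rfl (Or.inl (by omega)), ?_⟩
        unfold sc
        simp only [fcode]
        rw [h2, if_pos (by omega), if_pos (by omega)]
      · have e : fgrp (.T (2 * i + 2) d) = i := by simp only [fgrp]; omega
        rw [e]
        have h' : x % 4 ^ (2 * i + 2) = 0 * 4 ^ (2 * i) + (d + 2) * 4 ^ (2 * i + 1) := by
          rw [h, show 2 * i + 2 - 1 = 2 * i + 1 by omega]; ring
        obtain ⟨h1, h2, h3⟩ := digits2_of_mod h' (by norm_num)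
        refine ⟨hi, grp_of h1 h2 h3 (Or.inr (by omega)), ?_⟩
        unfold sc
        simp only [fcode]
        rw [h2, h3, if_neg (by norm_num), if_neg (by norm_num), if_pos (by omega), if_neg (by omega)]
        omega
    · left
      subst hk
      rw [if_pos rfl] at h
      obtain ⟨h1, h2⟩ := digits_of_mod h
      exact ⟨d, hd, rfl, h1, h2⟩
  | P i =>
    right
    obtain ⟨h1, h2⟩ := h
    have h2' : x % 4 ^ (2 * i + 1) = 1 * 4 ^ (2 * i) := by rw [h2]; ring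
    obtain ⟨h3, h4⟩ := digits_of_mod h2'
    refine ⟨F.mem_P.1 ht, grp_of h3 h4 rfl (Or.inl one_ne_zero), ?_⟩
    show sc i x = _
    unfold sc fcode
    rw [h4, h1]
    simp
  | Y i d =>
    right
    obtain ⟨h1, h2⟩ := h
    obtain ⟨hi, hd⟩ := F.mem_Y.1 ht
    have h2' : x % 4 ^ (2 * i + 2) = 1 * 4 ^ (2 * i) +
        (if d = 0 then 3 else d - 1) * 4 ^ (2 * i + 1) := by rw [h2]; ring
    obtain ⟨h3, h4, h5⟩ := digits2_of_mod h2' (by norm_num)
    refine ⟨hi, grp_of h3 h4 h5 (Or.inl one_ne_zero), ?_⟩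
    show sc i x = _
    unfold sc fcode
    rw [h4, h5, h1]
    by_cases h0 : d = 0
    · simp [h0]
    · simp [h0]
      omega
  | G _ _ _ => exact h.elim
  | CF _ _ => exact h.elim
  | CT _ => exact h.elim

theorem fcode_inj {t t' : Tile} (ht : t ∈ F.tiles) (ht' : t' ∈ F.tiles) {x : ℕ}
    (h : F.InFill t x) (h' : F.InFill t' x) (h1 : fgrp t = fgrp t') (h2 : fcode t = fcode t')
    (h3 : fgrp t < F.n) : t = t' := by
  cases t with
  | T k d =>
    cases t' with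
    | T k' d' =>
      simp only [fgrp] at h1 h3
      simp only [fcode] at h2
      rw [Tile.T.injEq]
      rcases F.mem_T.1 ht with ⟨i, hi, hk, hd⟩ | ⟨hk, hd⟩ <;>
      rcases F.mem_T.1 ht' with ⟨i', hi', hk', hd'⟩ | ⟨hk', hd'⟩
      · split_ifs at h2 <;> omega
      · split_ifs at h2 <;> omega
      · split_ifs at h2 <;> omega
      · omega
    | P i => 
      simp only [fcode] at h2
      simp only [fgrp] at h1 h3
      rcases F.mem_T.1 ht with ⟨i, hi, hk, hd⟩ | ⟨hk, hd⟩ <;> split_ifs at h2 <;> omega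
    | Y i d => 
      have := (F.mem_Y.1 ht').2
      simp only [fcode] at h2
      simp only [fgrp] at h1 h3
      rcases F.mem_T.1 ht with ⟨i, hi, hk, hd⟩ | ⟨hk, hd⟩ <;> split_ifs at h2 <;> omega
    | G _ _ _ => exact h'.elim
    | CF _ _ => exact h'.elim
    | CT _ => exact h'.elim
  | P i =>
    cases t' with
    | T k' d' =>
      simp only [fcode] at h2
      simp only [fgrp] at h1 h3
      rcases F.mem_T.1 ht' with ⟨i, hi, hk, hd⟩ | ⟨hk, hd⟩ <;> split_ifs at h2 <;> omega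
    | P i => simp only [fgrp] at h1; rw [h1]
    | Y i d => simp only [fcode] at h2; omega
    | G _ _ _ => exact h'.elim
    | CF _ _ => exact h'.elim
    | CT _ => exact h'.elim
  | Y i d =>
    cases t' with
    | T k' d' =>
      simp only [fcode] at h2
      simp only [fgrp] at h1 h3
      have := (F.mem_Y.1 ht).2
      rcases F.mem_T.1 ht' with ⟨i, hi, hk, hd⟩ | ⟨hk, hd⟩ <;> split_ifs at h2 <;> omega
    | P i => simp only [fcode] at h2; omega
    | Y i' d' =>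
      simp only [fgrp] at h1
      simp only [fcode] at h2
      rw [h1]
      congr 1
      omega
    | G _ _ _ => exact h'.elim
    | CF _ _ => exact h'.elim
    | CT _ => exact h'.elim
  | G _ _ _ => exact h.elim
  | CF _ _ => exact h.elim
  | CT _ => exact h.elim

theorem inFill_unique {t t' : Tile} (ht : t ∈ F.tiles) (ht' : t' ∈ F.tiles) {x : ℕ}
    (h : F.InFill t x) (h' : F.InFill t' x) : t = t' := by
  rcases inFill_code ht h with ⟨d, hd, e1, e2, e3⟩ | ⟨e1, e2, e3⟩ <;>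
  rcases inFill_code ht' h' with ⟨d', hd', e1', e2', e3'⟩ | ⟨e1', e2', e3'⟩
  · rw [e1, e1', ← e3, ← e3']
  · exfalso
    have h1 : 4 ^ (2 * F.n) ∣ x := Nat.dvd_of_mod_eq_zero e2
    exact e2'.2 (Nat.mod_eq_zero_of_dvd ((pow_dvd_pow 4 (by omega)).trans h1))
  · exfalso
    have h1 : 4 ^ (2 * F.n) ∣ x := Nat.dvd_of_mod_eq_zero e2'
    exact e2.2 (Nat.mod_eq_zero_of_dvd ((pow_dvd_pow 4 (by omega)).trans h1))
  · have hg := grp_unique e2 e2'
    exact fcode_inj ht ht' h h' hg (by rw [← e3, ← e3', hg]) e1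

theorem fill_cell {τ : ℕ → Bool} {t : Tile} (ht : t ∈ F.tiles) {x l c : ℕ} (hl : l < 2 * F.n)
    (hc : c < 3) (h : F.InFill t x) (h' : InCell τ l c x) : False := by
  obtain ⟨g1, g2⟩ := inCell_code h'
  rcases inFill_code ht h with ⟨d, hd, e1, e2, e3⟩ | ⟨e1, e2, e3⟩
  · have h1 : 4 ^ (2 * F.n) ∣ x := Nat.dvd_of_mod_eq_zero e2
    exact g1.2 (Nat.mod_eq_zero_of_dvd ((pow_dvd_pow 4 (by omega)).trans h1))
  · have hg := grp_unique e2 g1
    rw [← hg, e3] at g2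
    cases t with
    | T k d =>
      simp only [fgrp] at hg e1
      simp only [fcode] at g2
      rcases F.mem_T.1 ht with ⟨i, hi, hk, hd⟩ | ⟨hk, hd⟩ <;> split_ifs at g2 <;> omega
    | P i => simp only [fcode] at g2; split_ifs at g2 <;> omega
    | Y i d =>
      have := (F.mem_Y.1 ht).2
      simp only [fcode] at g2; split_ifs at g2 <;> omega
    | G _ _ _ => exact h.elim
    | CF _ _ => exact h.elim
    | CT _ => exact h.elim

/-- product of the numbers of the other literals -/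
def R (F : Fml) (j l : ℕ) : ℕ := ∏ l' ∈ (F.cl j).erase l, F.q l'

theorem Q_eq {j l : ℕ} (hl : l ∈ F.cl j) : F.Q j = F.q l * F.R j l :=
  (Finset.mul_prod_erase _ _ hl).symm

/-- first slot used by the tiles `G l k` -/
def off (F : Fml) (l k : ℕ) : ℕ :=
  if k = 2 * F.n + 1 + F.m then 0 else if F.Mem l k then 2 else 1

/-- region of a tile; `ls j` is a true literal of clause `j` and `en j` enumerates the positions
of the tiles `CF j` -/
def InT (F : Fml) (τ : ℕ → Bool) (ls : ℕ → ℕ) (en : ℕ → ℕ → ℕ × ℕ × ℕ) : Tile → ℕ → Prop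
  | .G l k d, x =>
      if k = 2 * (l / 2) + 2 then
        InCell τ l (d / (F.q l - 1)) x ∧ x % F.q l = d % (F.q l - 1) + 1
      else
        InCell τ l (d % 3) x ∧ x % 4 ^ k = wt τ l (d % 3) + (d / 3 + F.off l k) * 4 ^ (k - 1) ∧
          x % F.q l = 0
  | .CF j d, x => InCell τ (en j d).1 (en j d).2.1 x ∧
      x % 4 ^ F.K j = wt τ (en j d).1 (en j d).2.1 + 1 * 4 ^ (F.K j - 1) ∧
      x % F.q (en j d).1 = 0 ∧ x % F.R j (en j d).1 = (en j d).2.2
  | .CT j, x => x % 4 ^ F.K j = 4 ^ (2 * (ls j / 2) + 1) + 1 * 4 ^ (F.K j - 1) ∧ x % F.Q j = 0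
  | .T k d, x => F.InFill (.T k d) x
  | .P i, x => F.InFill (.P i) x
  | .Y i d, x => F.InFill (.Y i d) x

/-- the positions of the tiles `CF j` -/
def Pos (F : Fml) (ls : ℕ → ℕ) (j : ℕ) : Finset (ℕ × ℕ × ℕ) :=
  ((F.cl j).biUnion fun l => ({l} : Finset ℕ) ×ˢ (Finset.range 3 ×ˢ Finset.range (F.R j l))) \
    (({ls j} : Finset ℕ) ×ˢ (Finset.range 3 ×ˢ ({0} : Finset ℕ)))

theorem mem_Pos {ls : ℕ → ℕ} {j l c ρ : ℕ} : (l, c, ρ) ∈ F.Pos ls j ↔
    (l ∈ F.cl j ∧ c < 3 ∧ ρ < F.R j l) ∧ ¬ (l = ls j ∧ c < 3 ∧ ρ = 0) := by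
  unfold Pos
  simp only [Finset.mem_sdiff, Finset.mem_biUnion, Finset.mem_product, Finset.mem_singleton,
    Finset.mem_range]
  constructor
  · rintro ⟨⟨a, ha, rfl, h1, h2⟩, h3⟩
    exact ⟨⟨ha, h1, h2⟩, h3⟩
  · rintro ⟨⟨h1, h2, h3⟩, h4⟩
    exact ⟨⟨l, h1, rfl, h2, h3⟩, h4⟩

theorem R_pos (hF : F.Good) {j l : ℕ} (hj : j < F.m) : 0 < F.R j l := by
  apply Finset.prod_pos
  intro l' hl'
  have := hF.q_gt l' (hF.cl_lt j hj l' (Finset.mem_of_mem_erase hl'))
  omega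

theorem card_Pos (hF : F.Good) {ls : ℕ → ℕ} {j : ℕ} (hj : j < F.m) (hls : ls j ∈ F.cl j) :
    (F.Pos ls j).card = 3 * F.S j - 3 := by
  unfold Pos
  rw [Finset.card_sdiff_of_subset]
  · rw [Finset.card_biUnion]
    · simp only [Finset.card_product, Finset.card_singleton, Finset.card_range, one_mul, mul_one]
      rw [← Finset.mul_sum]
      rfl
    · intro a _ b _ hab
      rw [Function.onFun, Finset.disjoint_left]
      rintro ⟨l, c, ρ⟩ h1 h2
      simp only [Finset.mem_product, Finset.mem_singleton] at h1 h2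
      exact hab (h1.1.symm.trans h2.1)
  · rintro ⟨l, c, ρ⟩ h
    simp only [Finset.mem_biUnion, Finset.mem_product, Finset.mem_singleton,
      Finset.mem_range] at h ⊢
    obtain ⟨rfl, h2, rfl⟩ := h
    exact ⟨_, hls, rfl, h2, R_pos hF hj⟩

theorem lev_lt {l : ℕ} (hl : l < 2 * F.n) : 2 * (l / 2) + 2 ≤ 2 * F.n := by omega

theorem mod_of_split {x k b w e : ℕ} (hbk : b < k) (hw : w < 4 ^ b)
    (h : x % 4 ^ k = w + e * 4 ^ (k - 1)) : x % 4 ^ b = w ∧ x % 4 ^ (k - 1) = w := by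
  have hd : 4 ^ (k - 1) ∣ 4 ^ k := pow_dvd_pow 4 (by omega)
  have hd' : 4 ^ b ∣ 4 ^ (k - 1) := pow_dvd_pow 4 (by omega)
  have hle : w < 4 ^ (k - 1) := lt_of_lt_of_le hw (Nat.pow_le_pow_right (by norm_num) (by omega))
  have h1 : x % 4 ^ (k - 1) = w := by
    rw [← Nat.mod_mod_of_dvd x hd, h, Nat.add_mul_mod_self_right, Nat.mod_eq_of_lt hle]
  refine ⟨?_, h1⟩
  rw [← Nat.mod_mod_of_dvd x hd', h1, Nat.mod_eq_of_lt hw]

theorem split_lt {k b w e : ℕ} (hbk : b < k) (hw : w < 4 ^ b) (he : e < 4) :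
    w + e * 4 ^ (k - 1) < 4 ^ k := by
  have hle : w < 4 ^ (k - 1) := lt_of_lt_of_le hw (Nat.pow_le_pow_right (by norm_num) (by omega))
  have e1 : 4 ^ k = 4 * 4 ^ (k - 1) := by
    conv_lhs => rw [show k = (k - 1) + 1 by omega]
    rw [pow_succ]; ring
  have : e * 4 ^ (k - 1) ≤ 3 * 4 ^ (k - 1) := Nat.mul_le_mul_right _ (by omega)
  omega

theorem split_unique {x k k' b w e e' : ℕ} (hbk : b < k) (hbk' : b < k') (hw : w < 4 ^ b)
    (h : x % 4 ^ k = w + e * 4 ^ (k - 1)) (h' : x % 4 ^ k' = w + e' * 4 ^ (k' - 1))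
    {N : ℕ} (hk : k ≤ N) (hk' : k' ≤ N) (he : k < N → e ≠ 0) (he' : k' < N → e' ≠ 0) :
    k = k' ∧ e = e' := by
  have hkk : k = k' := by
    by_contra hne
    wlog hlt : k < k' generalizing k k' e e'
    · exact this hbk' hbk h' h hk' hk he' he (fun h => hne h.symm) (by omega)
    have h1 := (mod_of_split hbk' hw h').2
    have hd : 4 ^ k ∣ 4 ^ (k' - 1) := pow_dvd_pow 4 (by omega)
    have hle : w < 4 ^ k := lt_of_lt_of_le hw (Nat.pow_le_pow_right (by norm_num) (by omega))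
    rw [← Nat.mod_mod_of_dvd x hd, h1, Nat.mod_eq_of_lt hle] at h
    have h2 : e * 4 ^ (k - 1) = 0 := by omega
    rcases Nat.mul_eq_zero.1 h2 with h3 | h3
    · exact he (by omega) h3
    · have : 0 < 4 ^ (k - 1) := by positivity
      omega
  subst hkk
  refine ⟨rfl, ?_⟩
  have : e * 4 ^ (k - 1) = e' * 4 ^ (k - 1) := by omega
  exact Nat.eq_of_mul_eq_mul_right (by positivity) this

/-- what is known about a point of a tile which is not a fill tile -/
def CellData (F : Fml) (τ : ℕ → Bool) (ls : ℕ → ℕ) (en : ℕ → ℕ → ℕ × ℕ × ℕ) (t : Tile)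
    (x l c : ℕ) : Prop :=
  (x % F.q l ≠ 0 ∧ t = .G l (2 * (l / 2) + 2) (c * (F.q l - 1) + (x % F.q l - 1))) ∨
  (x % F.q l = 0 ∧ ∃ k e, 2 * (l / 2) + 2 < k ∧ k ≤ 2 * F.n + 1 + F.m ∧
    x % 4 ^ k = wt τ l c + e * 4 ^ (k - 1) ∧ (k < 2 * F.n + 1 + F.m → e ≠ 0) ∧
    ((F.off l k ≤ e ∧ t = .G l k (c + 3 * (e - F.off l k))) ∨
     (∃ j < F.m, l ∈ F.cl j ∧ k = F.K j ∧ e = 1 ∧
      ((∃ d < 3 * F.S j - 3, en j d = (l, c, x % F.R j l) ∧ t = .CF j d) ∨
       (l = ls j ∧ x % F.Q j = 0 ∧ t = .CT j)))))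

theorem cellData {τ : ℕ → Bool} {ls : ℕ → ℕ} {en : ℕ → ℕ → ℕ × ℕ × ℕ} (hF : F.Good)
    (hls : ∀ j < F.m, (F.cl j).Nonempty → ls j ∈ F.cl j ∧ LitTrue τ (ls j))
    (hen : ∀ j < F.m, ∀ d < 3 * F.S j - 3, en j d ∈ F.Pos ls j)
    {t : Tile} (ht : t ∈ F.tiles) {x : ℕ} (h : F.InT τ ls en t x) :
    F.InFill t x ∨ ∃ l < 2 * F.n, ∃ c < 3, InCell τ l c x ∧ F.CellData τ ls en t x l c := by
  cases t with
  | T k d => left; exact h
  | P i => left; exact h
  | Y i d => left; exact h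
  | G l k d =>
    right
    obtain ⟨hl, hk, hd⟩ := F.mem_G.1 ht
    have hq := hF.q_gt l hl
    simp only [InT] at h
    unfold cnt at hd
    by_cases hk1 : k < 2 * (l / 2) + 2
    · rw [if_pos hk1] at hd; omega
    rw [if_neg hk1] at hd
    by_cases hk2 : k = 2 * (l / 2) + 2
    · rw [if_pos hk2] at hd h
      have hc : d / (F.q l - 1) < 3 := by
        rw [Nat.div_lt_iff_lt_mul (by omega)]
        exact hd
      refine ⟨l, hl, _, hc, h.1, Or.inl ⟨by omega, ?_⟩⟩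
      rw [hk2, h.2, Nat.add_sub_cancel]
      congr 1
      rw [mul_comm]
      exact (Nat.div_add_mod d (F.q l - 1)).symm
    · rw [if_neg hk2] at hd h
      have hc : d % 3 < 3 := Nat.mod_lt _ (by norm_num)
      refine ⟨l, hl, _, hc, h.1, Or.inr ⟨h.2.2, k, d / 3 + F.off l k, by omega, ?_, h.2.1, ?_,
        Or.inl ⟨by omega, ?_⟩⟩⟩
      · omega
      · intro hk3
        unfold off
        rw [if_neg (by omega)]
        split_ifs <;> omega
      · congr 1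
        omega
  | CF j d =>
    right
    obtain ⟨hj, hd⟩ := F.mem_CF.1 ht
    have hp := hen j hj d hd
    simp only [InT] at h
    rcases hh : en j d with ⟨l, c, ρ⟩
    rw [hh] at h hp
    obtain ⟨⟨hl, hc, hρ⟩, hnot⟩ := mem_Pos.1 hp
    have hln := hF.cl_lt j hj l hl
    have := lev_lt hln
    refine ⟨l, hln, c, hc, h.1, Or.inr ⟨h.2.2.1, F.K j, 1, ?_, ?_, h.2.1, fun _ => one_ne_zero,
      Or.inr ⟨j, hj, hl, rfl, rfl, Or.inl ⟨d, hd, ?_, rfl⟩⟩⟩⟩
    · unfold K; omega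
    · unfold K; omega
    · rw [hh, h.2.2.2]
  | CT j =>
    right
    obtain ⟨hj, hne⟩ := F.mem_CT.1 ht
    obtain ⟨hl, htrue⟩ := hls j hj hne
    simp only [InT] at h
    have hln := hF.cl_lt j hj _ hl
    have := lev_lt hln
    have hK : 2 * (ls j / 2) + 2 < F.K j := by unfold K; omega
    have hK' : F.K j ≤ 2 * F.n + 1 + F.m := by unfold K; omega
    have hw : wt τ (ls j) (x % 3) = 4 ^ (2 * (ls j / 2) + 1) := by unfold wt; rw [if_pos htrue]
    have hwl : 4 ^ (2 * (ls j / 2) + 1) < 4 ^ (2 * (ls j / 2) + 2) :=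
      Nat.pow_lt_pow_right (by norm_num) (by omega)
    refine ⟨ls j, hln, x % 3, Nat.mod_lt _ (by norm_num), ⟨?_, ?_⟩, Or.inr ⟨?_, F.K j, 1, hK, hK',
      ?_, fun _ => one_ne_zero, Or.inr ⟨j, hj, hl, rfl, rfl, Or.inr ⟨rfl, h.2, rfl⟩⟩⟩⟩
    · unfold sl; rw [if_pos htrue]
    · rw [hw]; exact (mod_of_split hK hwl h.1).1
    · have : F.q (ls j) ∣ F.Q j := by rw [Q_eq hl]; exact Dvd.intro _ rfl
      exact Nat.mod_eq_zero_of_dvd (this.trans (Nat.dvd_of_mod_eq_zero h.2))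
    · rw [hw]; exact h.1

theorem inT_unique {τ : ℕ → Bool} {ls : ℕ → ℕ} {en : ℕ → ℕ → ℕ × ℕ × ℕ} (hF : F.Good)
    (hls : ∀ j < F.m, (F.cl j).Nonempty → ls j ∈ F.cl j ∧ LitTrue τ (ls j))
    (hen : ∀ j < F.m, ∀ d < 3 * F.S j - 3, en j d ∈ F.Pos ls j)
    (hinj : ∀ j < F.m, ∀ d < 3 * F.S j - 3, ∀ d' < 3 * F.S j - 3, en j d = en j d' → d = d')
    {t t' : Tile} (ht : t ∈ F.tiles) (ht' : t' ∈ F.tiles) {x : ℕ}
    (h : F.InT τ ls en t x) (h' : F.InT τ ls en t' x) : t = t' := by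
  rcases cellData hF hls hen ht h with g | ⟨l, hl, c, hc, hcell, g⟩ <;>
  rcases cellData hF hls hen ht' h' with g' | ⟨l', hl', c', hc', hcell', g'⟩
  · exact inFill_unique ht ht' g g'
  · exact (fill_cell ht hl' hc' g hcell').elim
  · exact (fill_cell ht' hl hc g' hcell).elim
  · obtain ⟨rfl, rfl⟩ := inCell_unique hc hc' hcell hcell'
    have hw := wt_lt (τ := τ) (l := l) hc
    have offK : ∀ j < F.m, l ∈ F.cl j → F.off l (F.K j) = 2 := by
      intro j hj hlj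
      unfold off
      rw [if_neg (by unfold K; omega), if_pos]
      refine ⟨by unfold K; omega, ?_⟩
      unfold K
      rw [Nat.add_sub_cancel_left]
      exact hlj
    have Kinj : ∀ {j j'}, F.K j = F.K j' → j = j' := by
      intro j j' h; unfold K at h; omega
    rcases g with ⟨g1, g2⟩ | ⟨g1, k, e, g2, g3, g4, g5, g6⟩ <;>
    rcases g' with ⟨g1', g2'⟩ | ⟨g1', k', e', g2', g3', g4', g5', g6'⟩
    · rw [g2, g2']
    · exact absurd g1' g1
    · exact absurd g1 g1'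
    · obtain ⟨rfl, rfl⟩ := split_unique g2 g2' hw g4 g4' g3 g3' g5 g5'
      rcases g6 with ⟨g6, g7⟩ | ⟨j, hj, hlj, hkj, he, g6⟩ <;>
      rcases g6' with ⟨g6', g7'⟩ | ⟨j', hj', hlj', hkj', he', g6'⟩
      · rw [g7, g7']
      · rw [hkj', offK j' hj' hlj'] at g6
        omega
      · rw [hkj, offK j hj hlj] at g6'
        omega
      · have hjj := Kinj (hkj.symm.trans hkj')
        subst hjj
        rcases g6 with ⟨d, hd, g6, g7⟩ | ⟨g6, g7, g8⟩ <;>
        rcases g6' with ⟨d', hd', g6', g7'⟩ | ⟨g6', g7', g8'⟩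
        · rw [g7, g7', hinj j hj d hd d' hd' (g6.trans g6'.symm)]
        · exfalso
          have hp := hen j hj d hd
          rw [g6] at hp
          have hdv : F.R j l ∣ F.Q j := by rw [Q_eq hlj]; exact Dvd.intro_left _ rfl
          exact (mem_Pos.1 hp).2 ⟨g6', hc, Nat.mod_eq_zero_of_dvd
            (hdv.trans (Nat.dvd_of_mod_eq_zero g7'))⟩
        · exfalso
          have hp := hen j hj d' hd'
          rw [g6'] at hp
          have hdv : F.R j l ∣ F.Q j := by rw [Q_eq hlj]; exact Dvd.intro_left _ rfl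
          exact (mem_Pos.1 hp).2 ⟨g6, hc, Nat.mod_eq_zero_of_dvd
            (hdv.trans (Nat.dvd_of_mod_eq_zero g7))⟩
        · rw [g8, g8']

theorem inT_exists {τ : ℕ → Bool} {ls : ℕ → ℕ} {en : ℕ → ℕ → ℕ × ℕ × ℕ} (hF : F.Good)
    (hls : ∀ j < F.m, (F.cl j).Nonempty → ls j ∈ F.cl j ∧ LitTrue τ (ls j))
    (hen : ∀ j < F.m, ∀ d < 3 * F.S j - 3, en j d ∈ F.Pos ls j)
    {t : Tile} (ht : t ∈ F.tiles) :
    ∃ r, ∀ x, x ≡ r [MOD F.modulus t] → F.InT τ ls en t x := by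
  cases t with
  | T k d =>
    have hp : 0 < 4 ^ (k - 1) := by positivity
    rcases F.mem_T.1 ht with ⟨i, hi, hk, hd⟩ | ⟨hk, hd⟩
    · have e : 4 ^ k = 4 * 4 ^ (k - 1) := by
        conv_lhs => rw [show k = (k - 1) + 1 by omega]
        rw [pow_succ]; ring
      have hlt : (d + 2) * 4 ^ (k - 1) < 4 ^ k := by
        rw [e]; exact Nat.mul_lt_mul_of_pos_right (by omega) hp
      refine ⟨(d + 2) * 4 ^ (k - 1), fun x hx => ?_⟩
      simp only [InT, InFill]
      rw [if_neg (by omega)]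
      have : x % 4 ^ k = (d + 2) * 4 ^ (k - 1) % 4 ^ k := by
        have h := hx
        unfold modulus at h
        simp only [base, rest, mul_one] at h
        exact h
      rw [this, Nat.mod_eq_of_lt hlt]
    · refine ⟨d * 4 ^ (2 * F.n), fun x hx => ?_⟩
      simp only [InT, InFill]
      rw [if_pos hk]
      have : x % 4 ^ k = d * 4 ^ (2 * F.n) % 4 ^ k := by
        have h := hx
        unfold modulus at h
        simp only [base, rest, mul_one] at h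
        exact h
      rw [this, Nat.mod_eq_of_lt]
      rw [hk, pow_succ, mul_comm]
      exact Nat.mul_lt_mul_of_pos_left hd (by positivity)
  | P i =>
    obtain ⟨r, hr⟩ := crt_flat (k := 2 * i + 1) (M := 1) (a := 0) (w := 4 ^ (2 * i)) (ρ := 0)
      (Nat.coprime_one_left _) (by norm_num) (Nat.pow_lt_pow_right (by norm_num) (by omega))
      (by norm_num)
    exact ⟨r, fun x hx => ⟨(hr x hx).1, (hr x hx).2.1⟩⟩
  | Y i d =>
    have hd := (F.mem_Y.1 ht).2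
    have hlt : 4 ^ (2 * i) + (if d = 0 then 3 else d - 1) * 4 ^ (2 * i + 1) < 4 ^ (2 * i + 2) := by
      have := split_lt (k := 2 * i + 2) (b := 2 * i + 1) (w := 4 ^ (2 * i))
        (e := if d = 0 then 3 else d - 1) (by omega)
        (Nat.pow_lt_pow_right (by norm_num) (by omega)) (by split_ifs <;> omega)
      exact this
    obtain ⟨r, hr⟩ := crt_flat (k := 2 * i + 2) (M := 1) (a := if d = 0 then 1 else 2)
      (ρ := 0) (Nat.coprime_one_left _) (by split_ifs <;> omega) hlt (by norm_num)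
    exact ⟨r, fun x hx => ⟨(hr x hx).1, (hr x hx).2.1⟩⟩
  | G l k d =>
    obtain ⟨hl, hk, hd⟩ := F.mem_G.1 ht
    have hq := hF.q_gt l hl
    simp only [InT]
    unfold cnt at hd
    by_cases hk1 : k < 2 * (l / 2) + 2
    · rw [if_pos hk1] at hd; omega
    rw [if_neg hk1] at hd
    by_cases hk2 : k = 2 * (l / 2) + 2
    · rw [if_pos hk2] at hd
      have hc : d / (F.q l - 1) < 3 := by
        rw [Nat.div_lt_iff_lt_mul (by omega)]
        exact hd
      have hρ : d % (F.q l - 1) + 1 < F.q l := by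
        have := Nat.mod_lt d (show 0 < F.q l - 1 by omega)
        omega
      obtain ⟨r, hr⟩ := crt_flat (k := 2 * (l / 2) + 2) (M := F.q l)
        (a := sl τ l (d / (F.q l - 1))) (w := wt τ l (d / (F.q l - 1))) (hF.q_cop_base hl _)
        (sl_lt hc) (wt_lt hc) hρ
      refine ⟨r, fun x hx => ?_⟩
      rw [if_pos hk2]
      rw [modulus_G, hk2] at hx
      obtain ⟨h1, h2, h3⟩ := hr x hx
      exact ⟨⟨h1, h2⟩, h3⟩
    · rw [if_neg hk2] at hd
      have hc : d % 3 < 3 := Nat.mod_lt _ (by norm_num)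
      have he : d / 3 + F.off l k < 4 := by
        unfold off
        by_cases h1 : k < 2 * F.n + 1 + F.m
        · rw [if_pos h1] at hd
          rw [if_neg (by omega)]
          split_ifs at hd ⊢ <;> omega
        · rw [if_neg h1] at hd
          split_ifs at hd ⊢ <;> omega
      obtain ⟨r, hr⟩ := crt_flat (k := k) (M := F.q l)
        (a := sl τ l (d % 3)) (w := wt τ l (d % 3) + (d / 3 + F.off l k) * 4 ^ (k - 1))
        (ρ := 0) (hF.q_cop_base hl _) (sl_lt hc)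
        (split_lt (show 2 * (l / 2) + 2 < k by omega) (wt_lt hc) he) (by omega)
      refine ⟨r, fun x hx => ?_⟩
      rw [if_neg hk2]
      rw [modulus_G] at hx
      obtain ⟨h1, h2, h3⟩ := hr x hx
      exact ⟨⟨h1, (mod_of_split (by omega) (wt_lt hc) h2).1⟩, h2, h3⟩
  | CF j d =>
    obtain ⟨hj, hd⟩ := F.mem_CF.1 ht
    have hp := hen j hj d hd
    simp only [InT]
    rcases hh : en j d with ⟨l, c, ρ⟩
    rw [hh] at hp
    obtain ⟨⟨hl, hc, hρ⟩, hnot⟩ := mem_Pos.1 hp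
    have hln := hF.cl_lt j hj l hl
    have := lev_lt hln
    have hK : 2 * (l / 2) + 2 < F.K j := by unfold K; omega
    have hcop : Nat.Coprime (F.q l) (F.R j l) := by
      apply Nat.Coprime.prod_right
      intro l' hl'
      exact hF.q_cop l hln l' (hF.cl_lt j hj l' (Finset.mem_of_mem_erase hl'))
        (fun h => Finset.ne_of_mem_erase hl' h.symm)
    obtain ⟨y, hy1, hy2⟩ : ∃ y, y ≡ 0 [MOD F.q l] ∧ y ≡ ρ [MOD F.R j l] :=
      ⟨(Nat.chineseRemainder hcop 0 ρ).1, (Nat.chineseRemainder hcop 0 ρ).2⟩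
    have hQ : 0 < F.Q j := by
      rw [Q_eq hl]
      exact Nat.mul_pos (by have := hF.q_gt l hln; omega) (R_pos hF hj)
    obtain ⟨r, hr⟩ := crt_flat (k := F.K j) (M := F.Q j) (a := sl τ l c)
      (w := wt τ l c + 1 * 4 ^ (F.K j - 1)) (ρ := y % F.Q j) (hF.Q_cop_base hj _) (sl_lt hc)
      (split_lt hK (wt_lt hc) (by norm_num)) (Nat.mod_lt _ hQ)
    refine ⟨r, fun x hx => ?_⟩
    obtain ⟨h1, h2, h3⟩ := hr x hx
    refine ⟨⟨h1, (mod_of_split hK (wt_lt hc) h2).1⟩, h2, ?_, ?_⟩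
    · have hdv : F.q l ∣ F.Q j := by rw [Q_eq hl]; exact Dvd.intro _ rfl
      show x % F.q l = 0
      rw [← Nat.mod_mod_of_dvd x hdv, h3, Nat.mod_mod_of_dvd y hdv]
      exact hy1
    · have hdv : F.R j l ∣ F.Q j := by rw [Q_eq hl]; exact Dvd.intro_left _ rfl
      show x % F.R j l = ρ
      rw [← Nat.mod_mod_of_dvd x hdv, h3, Nat.mod_mod_of_dvd y hdv]
      have : y % F.R j l = ρ % F.R j l := hy2
      rw [this, Nat.mod_eq_of_lt hρ]
  | CT j =>
    obtain ⟨hj, hne⟩ := F.mem_CT.1 ht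
    obtain ⟨hl, htrue⟩ := hls j hj hne
    have hln := hF.cl_lt j hj _ hl
    have := lev_lt hln
    have hK : 2 * (ls j / 2) + 2 < F.K j := by unfold K; omega
    have hwl : 4 ^ (2 * (ls j / 2) + 1) < 4 ^ (2 * (ls j / 2) + 2) :=
      Nat.pow_lt_pow_right (by norm_num) (by omega)
    have hQ : 0 < F.Q j := by
      rw [Q_eq hl]
      exact Nat.mul_pos (by have := hF.q_gt _ hln; omega) (R_pos hF hj)
    obtain ⟨r, hr⟩ := crt_tall (k := F.K j) (M := F.Q j)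
      (w := 4 ^ (2 * (ls j / 2) + 1) + 1 * 4 ^ (F.K j - 1)) (ρ := 0) (hF.Q_cop_base hj _)
      (split_lt hK hwl (by norm_num)) hQ
    exact ⟨r, fun x hx => hr x hx⟩

theorem modulus_pos (hF : F.Good) {t : Tile} (ht : t ∈ F.tiles) : 0 < F.modulus t := by
  unfold modulus
  apply Nat.mul_pos
  · cases t <;> simp only [base] <;> positivity
  · cases t with
    | T _ _ => exact Nat.one_pos
    | P _ => exact Nat.one_pos
    | Y _ _ => exact Nat.one_pos
    | G l _ _ => have := hF.q_gt l (F.mem_G.1 ht).1; simp only [rest]; omega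
    | CF j _ =>
      apply Finset.prod_pos
      intro l hl
      have := hF.q_gt l (hF.cl_lt j (F.mem_CF.1 ht).1 l hl)
      omega
    | CT j =>
      apply Finset.prod_pos
      intro l hl
      have := hF.q_gt l (hF.cl_lt j (F.mem_CT.1 ht).1 l hl)
      omega

theorem complete (hF : F.Good) (h : F.Sat) :
    SchedF (fun t : {t // t ∈ F.tiles} => F.modulus t.1) := by
  classical
  obtain ⟨τ, hτ⟩ := h
  have hls : ∀ j, ∃ l, j < F.m → (F.cl j).Nonempty → l ∈ F.cl j ∧ LitTrue τ l := by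
    intro j
    by_cases hj : j < F.m
    · by_cases hne : (F.cl j).Nonempty
      · obtain ⟨l, hl, hl'⟩ := hτ j hj hne
        exact ⟨l, fun _ _ => ⟨hl, hl'⟩⟩
      · exact ⟨0, fun _ h => absurd h hne⟩
    · exact ⟨0, fun h => absurd h hj⟩
  choose ls hls using hls
  have hen : ∀ j, ∃ f : ℕ → ℕ × ℕ × ℕ, j < F.m → (∀ d < 3 * F.S j - 3, f d ∈ F.Pos ls j) ∧
      ∀ d < 3 * F.S j - 3, ∀ d' < 3 * F.S j - 3, f d = f d' → d = d' := by
    intro j
    by_cases hj : j < F.m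
    · by_cases hne : (F.cl j).Nonempty
      · obtain ⟨f, hf1, hf2⟩ := exists_enum (F.Pos ls j)
        rw [card_Pos hF hj (hls j hj hne).1] at hf1 hf2
        exact ⟨f, fun _ => ⟨hf1, hf2⟩⟩
      · have hS : F.S j = 0 := by
          unfold S; rw [Finset.not_nonempty_iff_eq_empty.1 hne]; simp
        refine ⟨fun _ => (0, 0, 0), fun _ => ⟨?_, ?_⟩⟩
        · intro d hd; rw [hS] at hd; omega
        · intro d hd; rw [hS] at hd; omega
    · exact ⟨fun _ => (0, 0, 0), fun h => absurd h hj⟩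
  choose en hen using hen
  have hls' : ∀ j < F.m, (F.cl j).Nonempty → ls j ∈ F.cl j ∧ LitTrue τ (ls j) :=
    fun j hj hne => hls j hj hne
  have hen' : ∀ j < F.m, ∀ d < 3 * F.S j - 3, en j d ∈ F.Pos ls j := fun j hj => (hen j hj).1
  have hinj' : ∀ j < F.m, ∀ d < 3 * F.S j - 3, ∀ d' < 3 * F.S j - 3, en j d = en j d' → d = d' :=
    fun j hj => (hen j hj).2
  choose r hr using fun t : {t // t ∈ F.tiles} => inT_exists hF hls' hen' t.2
  have : Nonempty {t // t ∈ F.tiles} :=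
    ⟨⟨.T (2 * F.n + 1) 0, F.mem_T.2 (Or.inr ⟨rfl, by norm_num⟩)⟩⟩
  refine schedF_of_classes (fun t => modulus_pos hF t.2) r ?_
  intro t t' x h1 h2
  exact Subtype.ext (inT_unique hF hls' hen' hinj' t.2 t'.2 (hr t x h1) (hr t' x h2))

end Fml

end Pool.Agent.H.MP_84f0af_lc
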