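import Mathlib

/-!
The definitions used in the statement of the main theorem: languages in NP, instances of the
pinwheel scheduling problem, their schedules, their density and their binary encoding.
-/

namespace Pool.Agent.H.MP_84f0af_lc

open Turing

/-- A language `L` over the alphabet `Γ` is in NP: there are a polynomial `p` and a verifier `V`
which is computable in polynomial time (by the machines `FinTM2` of Mathlib), such that
`x ∈ L` exactly when some witness `w`, a bit string of length at most `p (length of x)`, is
accepted. The pair `(x, w)` is given to the verifier as the string `x` followed by the string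
`w`, over the alphabet `Γ ⊕ Bool`. -/
def InNP {Γ : Type} (L : Set (List Γ)) : Prop :=
  ∃ (p : Polynomial ℕ) (V : List Γ × List Bool → Bool),
    Nonempty (TM2ComputableInPolyTime
      (fun z : List Γ × List Bool => z.1.map Sum.inl ++ z.2.map (Sum.inr : Bool → Γ ⊕ Bool))
      (fun b : Bool => [b]) V) ∧
    ∀ x, x ∈ L ↔ ∃ w : List Bool, w.length ≤ p.eval x.length ∧ V (x, w) = true

/-- Instances of the pinwheel scheduling problem: nonempty lists of positive integers. -/
def PinInst : Type := {b : List ℕ // b ≠ [] ∧ ∀ a ∈ b, 0 < a}

/-- The instance `b_1, ..., b_n` is schedulable: there is an infinite sequence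
`s 1, s 2, s 3, ...` of symbols (positions in the list) such that for each symbol `i` and each
`t ≥ 0` the block `s (t + 1), ..., s (t + b_i)` contains the symbol `i`. (The term `s 0` plays no
role.) -/
def PinInst.Schedulable (b : PinInst) : Prop :=
  ∃ s : ℕ → Fin b.1.length, ∀ (i : Fin b.1.length) (t : ℕ),
    ∃ j, t + 1 ≤ j ∧ j ≤ t + b.1.get i ∧ s j = i

/-- The density: the sum of the inverses of the periods. -/
def PinInst.density (b : PinInst) : ℚ := (b.1.map fun a : ℕ => (1 : ℚ) / (a : ℚ)).sum

/-- The binary encoding of an instance: each period is written by its binary digits (least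
significant digit first), followed by the separator `none`. -/
def PinInst.encode (b : PinInst) : List (Option Bool) :=
  b.1.flatMap fun a : ℕ => (Nat.bits a).map some ++ [none]

end Pool.Agent.H.MP_84f0af_lc
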