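import Pool.Agent.H.MP_84f0af_lc.UFdef

/-!
Machines working on infinite stacks with a constant number of elementary operations per step,
and the simulation of the machines of Mathlib by them.
-/

namespace Pool.Agent.H.MP_84f0af_lc

open Turing Function

/-- operation on a stack -/
inductive Op (Y : Type) where
  | stay : Op Y
  | pop : Op Y
  | push (y : Y) : Op Y

/-- shift machines: the stack which is read, the next control state, the operations -/
structure SM (C K Y : Type) where
  tst : C → K
  nxt : C → Y → C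
  op : C → K → Op Y

def Op.act {Y : Type} (o : Op Y) (s : ℕ → Y) : ℕ → Y :=
  match o with
  | .stay => s
  | .pop => fun i => s (i + 1)
  | .push y => ncons y s

/-- one step -/
def SM.step {C K Y : Type} (M : SM C K Y) (c : C × (K → ℕ → Y)) : C × (K → ℕ → Y) :=
  (M.nxt c.1 (c.2 (M.tst c.1) 0), fun k => (M.op c.1 k).act (c.2 k))

section sim

variable {K : Type} [DecidableEq K] {Γ : K → Type} {Λ σ : Type}

/-- the statements of the machine and their parts -/
def St (m : Λ → TM2.Stmt Γ Λ σ) : Type := {s : TM2.Stmt Γ Λ σ // ∃ l, s ∈ TM2.stmts₁ (m l)}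

omit [DecidableEq K] in
theorem St.finite [Finite Λ] (m : Λ → TM2.Stmt Γ Λ σ) : Finite (St m) := by
  have h : (⋃ l, (↑(TM2.stmts₁ (m l)) : Set (TM2.Stmt Γ Λ σ))).Finite :=
    Set.finite_iUnion fun l => Finset.finite_toSet _
  have h2 : {s : TM2.Stmt Γ Λ σ | ∃ l, s ∈ TM2.stmts₁ (m l)}.Finite := by
    refine h.subset ?_
    rintro s ⟨l, hl⟩
    exact Set.mem_iUnion.2 ⟨l, hl⟩
  exact h2.to_subtype

open Classical in
noncomputable def toSt (m : Λ → TM2.Stmt Γ Λ σ) (l₀ : Λ) (q : TM2.Stmt Γ Λ σ) : St m :=
  if h : ∃ l, q ∈ TM2.stmts₁ (m l) then ⟨q, h⟩ else ⟨m l₀, l₀, TM2.stmts₁_self⟩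

omit [DecidableEq K] in
theorem toSt_val {m : Λ → TM2.Stmt Γ Λ σ} {l₀ : Λ} {q : TM2.Stmt Γ Λ σ}
    (h : ∃ l, q ∈ TM2.stmts₁ (m l)) : (toSt m l₀ q).1 = q := by
  unfold toSt
  rw [dif_pos h]

/-- control states -/
abbrev SC (m : Λ → TM2.Stmt Γ Λ σ) : Type := Option (St m × σ)

/-- symbols: blank, input symbols, and symbols which come from a push statement -/
abbrev SY (m : Λ → TM2.Stmt Γ Λ σ) (k₀ : K) : Type := Option (Γ k₀ ⊕ (St m × σ))

/-- the symbol pushed by a statement -/
def pushed (k : K) (q : TM2.Stmt Γ Λ σ) (v : σ) : Option (Γ k) :=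
  match q with
  | .push k' f _ => if h : k' = k then some (h ▸ f v) else none
  | _ => none

/-- the meaning of a symbol on stack `k` -/
def den (m : Λ → TM2.Stmt Γ Λ σ) (k₀ k : K) (y : SY m k₀) : Option (Γ k) :=
  match y with
  | none => none
  | some (Sum.inl g) => if h : k₀ = k then some (h ▸ g) else none
  | some (Sum.inr (s, v)) => pushed k s.1 v

/-- next control state -/
noncomputable def snext (m : Λ → TM2.Stmt Γ Λ σ) (l₀ : Λ) (k₀ : K) (q : TM2.Stmt Γ Λ σ) (v : σ)
    (y : SY m k₀) : SC m :=
  match q with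
  | .push _ _ q => some (toSt m l₀ q, v)
  | .peek k f q => some (toSt m l₀ q, f v (den m k₀ k y))
  | .pop k f q => some (toSt m l₀ q, f v (den m k₀ k y))
  | .load a q => some (toSt m l₀ q, a v)
  | .branch p q₁ q₂ => some (cond (p v) (toSt m l₀ q₁) (toSt m l₀ q₂), v)
  | .goto g => some (toSt m l₀ (m (g v)), v)
  | .halt => none

def stest (k₀ : K) (q : TM2.Stmt Γ Λ σ) : K :=
  match q with
  | .peek k _ _ => k
  | .pop k _ _ => k
  | _ => k₀

def sop (m : Λ → TM2.Stmt Γ Λ σ) (k₀ : K) (s : St m) (v : σ) (k : K) : Op (SY m k₀) :=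
  match s.1 with
  | .push k' _ _ => if k = k' then .push (some (Sum.inr (s, v))) else .stay
  | .pop k' _ _ => if k = k' then .pop else .stay
  | _ => .stay

/-- the shift machine of a machine of Mathlib -/
noncomputable def toSM (m : Λ → TM2.Stmt Γ Λ σ) (l₀ : Λ) (k₀ : K) : SM (SC m) K (SY m k₀) where
  tst c := match c with
    | none => k₀
    | some (s, _) => stest k₀ s.1
  nxt c y := match c with
    | none => none
    | some (s, v) => snext m l₀ k₀ s.1 v y
  op c k := match c with
    | none => .stay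
    | some (s, v) => sop m k₀ s v k

/-- the infinite stacks represent the stacks -/
def Rel (m : Λ → TM2.Stmt Γ Λ σ) (k₀ : K) (S : ∀ k, List (Γ k)) (s : K → ℕ → SY m k₀) : Prop :=
  ∀ k i, den m k₀ k (s k i) = (S k)[i]?

noncomputable def ctl (m : Λ → TM2.Stmt Γ Λ σ) (l₀ : Λ) (c : TM2.Cfg Γ Λ σ) : SC m :=
  match c.l with
  | none => none
  | some l => some (toSt m l₀ (m l), c.var)

/-- number of elementary steps of a statement -/
def ht : TM2.Stmt Γ Λ σ → ℕ
  | .push _ _ q => ht q + 1
  | .peek _ _ q => ht q + 1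
  | .pop _ _ q => ht q + 1
  | .load _ q => ht q + 1
  | .branch _ q₁ q₂ => ht q₁ + ht q₂ + 1
  | .goto _ => 1
  | .halt => 1

omit [DecidableEq K] in
theorem sub_mem {m : Λ → TM2.Stmt Γ Λ σ} {q q' : TM2.Stmt Γ Λ σ}
    (h : ∃ l, q ∈ TM2.stmts₁ (m l)) (h' : q' ∈ TM2.stmts₁ q) : ∃ l, q' ∈ TM2.stmts₁ (m l) := by
  obtain ⟨l, hl⟩ := h
  exact ⟨l, TM2.stmts₁_trans hl h'⟩

theorem step_stay {m : Λ → TM2.Stmt Γ Λ σ} {l₀ : Λ} {k₀ : K} {s : St m} {v : σ}
    {S : K → ℕ → SY m k₀} (h : ∀ k, sop m k₀ s v k = .stay) :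
    (toSM m l₀ k₀).step (some (s, v), S)
      = (snext m l₀ k₀ s.1 v (S (stest k₀ s.1) 0), S) := by
  unfold SM.step
  simp only [toSM]
  congr 1
  funext k
  rw [h]
  rfl

theorem sim1 (m : Λ → TM2.Stmt Γ Λ σ) (l₀ : Λ) (k₀ : K) (q : TM2.Stmt Γ Λ σ) :
    (∃ l, q ∈ TM2.stmts₁ (m l)) → ∀ (v : σ) (S : ∀ k, List (Γ k)) (s : K → ℕ → SY m k₀),
    Rel m k₀ S s → ∃ n ≤ ht q, ∃ s', (toSM m l₀ k₀).step^[n] (some (toSt m l₀ q, v), s)
      = (ctl m l₀ (TM2.stepAux q v S), s') ∧ Rel m k₀ (TM2.stepAux q v S).stk s' := by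
  induction q with
  | push k f q ih =>
    intro hq v S s hs
    have hq' : ∃ l, q ∈ TM2.stmts₁ (m l) := sub_mem hq (by
      classical
      unfold TM2.stmts₁; exact Finset.mem_insert_of_mem TM2.stmts₁_self)
    set s' : K → ℕ → SY m k₀ :=
      update s k (ncons (some (Sum.inr (toSt m l₀ (.push k f q), v))) (s k)) with hs'
    have h1 : (toSM m l₀ k₀).step (some (toSt m l₀ (.push k f q), v), s)
        = (some (toSt m l₀ q, v), s') := by
      unfold SM.step
      simp only [toSM]
      rw [toSt_val hq]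
      congr 1
      funext k'
      unfold sop
      rw [toSt_val hq]
      by_cases h : k' = k
      · subst h
        simp only [if_true, hs', update_self]
        rfl
      · simp only [h, if_false, hs', ne_eq, not_false_eq_true, update_of_ne]
        rfl
    have h2 : Rel m k₀ (update S k (f v :: S k)) s' := by
      intro k' i
      by_cases h : k' = k
      · subst h
        rw [hs', update_self, update_self]
        cases i with
        | zero =>
          simp only [ncons, den, List.getElem?_cons_zero]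
          rw [toSt_val hq]
          simp [pushed]
        | succ i =>
          simp only [ncons, List.getElem?_cons_succ]
          exact hs k' i
      · rw [hs', update_of_ne h, update_of_ne h]
        exact hs k' i
    obtain ⟨n, hn, s'', h3, h4⟩ := ih hq' v _ _ h2
    refine ⟨n + 1, Nat.succ_le_succ hn, s'', ?_, h4⟩
    rw [iterate_succ_apply, h1]
    exact h3
  | peek k f q ih =>
    intro hq v S s hs
    have hq' : ∃ l, q ∈ TM2.stmts₁ (m l) := sub_mem hq (by
      classical
      unfold TM2.stmts₁; exact Finset.mem_insert_of_mem TM2.stmts₁_self)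
    have h1 : (toSM m l₀ k₀).step (some (toSt m l₀ (.peek k f q), v), s)
        = (some (toSt m l₀ q, f v (S k).head?), s) := by
      rw [step_stay]
      · rw [toSt_val hq]
        simp only [snext, stest]
        rw [hs k 0, List.head?_eq_getElem?]
      · intro k'
        unfold sop
        rw [toSt_val hq]
    obtain ⟨n, hn, s'', h3, h4⟩ := ih hq' (f v (S k).head?) _ _ hs
    refine ⟨n + 1, Nat.succ_le_succ hn, s'', ?_, h4⟩
    rw [iterate_succ_apply, h1]
    exact h3
  | pop k f q ih =>
    intro hq v S s hs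
    have hq' : ∃ l, q ∈ TM2.stmts₁ (m l) := sub_mem hq (by
      classical
      unfold TM2.stmts₁; exact Finset.mem_insert_of_mem TM2.stmts₁_self)
    set s' : K → ℕ → SY m k₀ := update s k (fun i => s k (i + 1)) with hs'
    have h1 : (toSM m l₀ k₀).step (some (toSt m l₀ (.pop k f q), v), s)
        = (some (toSt m l₀ q, f v (S k).head?), s') := by
      unfold SM.step
      simp only [toSM]
      rw [toSt_val hq]
      simp only [snext, stest]
      rw [hs k 0, List.head?_eq_getElem?]
      congr 1
      funext k'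
      unfold sop
      rw [toSt_val hq]
      by_cases h : k' = k
      · subst h
        simp only [if_true, hs', update_self]
        rfl
      · simp only [h, if_false, hs', ne_eq, not_false_eq_true, update_of_ne]
        rfl
    have h2 : Rel m k₀ (update S k (S k).tail) s' := by
      intro k' i
      by_cases h : k' = k
      · subst h
        rw [hs', update_self, update_self, List.getElem?_tail]
        exact hs k' (i + 1)
      · rw [hs', update_of_ne h, update_of_ne h]
        exact hs k' i
    obtain ⟨n, hn, s'', h3, h4⟩ := ih hq' (f v (S k).head?) _ _ h2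
    refine ⟨n + 1, Nat.succ_le_succ hn, s'', ?_, h4⟩
    rw [iterate_succ_apply, h1]
    exact h3
  | load a q ih =>
    intro hq v S s hs
    have hq' : ∃ l, q ∈ TM2.stmts₁ (m l) := sub_mem hq (by
      classical
      unfold TM2.stmts₁; exact Finset.mem_insert_of_mem TM2.stmts₁_self)
    have h1 : (toSM m l₀ k₀).step (some (toSt m l₀ (.load a q), v), s)
        = (some (toSt m l₀ q, a v), s) := by
      rw [step_stay]
      · rw [toSt_val hq]
        simp only [snext, stest]
      · intro k'
        unfold sop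
        rw [toSt_val hq]
    obtain ⟨n, hn, s'', h3, h4⟩ := ih hq' (a v) _ _ hs
    refine ⟨n + 1, Nat.succ_le_succ hn, s'', ?_, h4⟩
    rw [iterate_succ_apply, h1]
    exact h3
  | branch p q₁ q₂ ih₁ ih₂ =>
    intro hq v S s hs
    have hq₁ : ∃ l, q₁ ∈ TM2.stmts₁ (m l) := sub_mem hq (by
      classical
      unfold TM2.stmts₁
      exact Finset.mem_insert_of_mem (Finset.mem_union_left _ TM2.stmts₁_self))
    have hq₂ : ∃ l, q₂ ∈ TM2.stmts₁ (m l) := sub_mem hq (by
      classical
      unfold TM2.stmts₁
      exact Finset.mem_insert_of_mem (Finset.mem_union_right _ TM2.stmts₁_self))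
    have h1 : (toSM m l₀ k₀).step (some (toSt m l₀ (.branch p q₁ q₂), v), s)
        = (some (cond (p v) (toSt m l₀ q₁) (toSt m l₀ q₂), v), s) := by
      rw [step_stay]
      · rw [toSt_val hq]
        simp only [snext, stest]
      · intro k'
        unfold sop
        rw [toSt_val hq]
    cases hp : p v with
    | true =>
      obtain ⟨n, hn, s'', h3, h4⟩ := ih₁ hq₁ v _ _ hs
      refine ⟨n + 1, by simp only [ht]; omega, s'', ?_, ?_⟩
      · rw [iterate_succ_apply, h1, hp]
        simp only [TM2.stepAux, hp, cond_true]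
        exact h3
      · simp only [TM2.stepAux, hp, cond_true]
        exact h4
    | false =>
      obtain ⟨n, hn, s'', h3, h4⟩ := ih₂ hq₂ v _ _ hs
      refine ⟨n + 1, by simp only [ht]; omega, s'', ?_, ?_⟩
      · rw [iterate_succ_apply, h1, hp]
        simp only [TM2.stepAux, hp, cond_false]
        exact h3
      · simp only [TM2.stepAux, hp, cond_false]
        exact h4
  | goto g =>
    intro hq v S s hs
    refine ⟨1, le_rfl, s, ?_, hs⟩
    rw [iterate_one, step_stay]
    · rw [toSt_val hq]
      simp only [snext, stest]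
      rfl
    · intro k'
      unfold sop
      rw [toSt_val hq]
  | halt =>
    intro hq v S s hs
    refine ⟨1, le_rfl, s, ?_, hs⟩
    rw [iterate_one, step_stay]
    · rw [toSt_val hq]
      simp only [snext, stest]
      rfl
    · intro k'
      unfold sop
      rw [toSt_val hq]

theorem step_none (m : Λ → TM2.Stmt Γ Λ σ) (l₀ : Λ) (k₀ : K) (s : K → ℕ → SY m k₀) (n : ℕ) :
    (toSM m l₀ k₀).step^[n] (none, s) = (none, s) := by
  induction n with
  | zero => rfl
  | succ n ih =>
    rw [iterate_succ_apply]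
    exact ih

theorem bind_none_iter {α : Type} (f : α → Option α) (n : ℕ) : (flip bind f)^[n] none = none := by
  induction n with
  | zero => rfl
  | succ n ih => rw [iterate_succ_apply]; exact ih

/-- simulation of a halting run -/
theorem sim_run (m : Λ → TM2.Stmt Γ Λ σ) (l₀ : Λ) (k₀ : K) (H : ℕ) (hH : ∀ l, ht (m l) ≤ H)
    (N : ℕ) : ∀ (a b : TM2.Cfg Γ Λ σ), StepsTo (TM2.step m) N a b → b.l = none →
    ∀ s : K → ℕ → SY m k₀, Rel m k₀ a.stk s → ∀ T, H * N ≤ T →
    ∃ s', (toSM m l₀ k₀).step^[T] (ctl m l₀ a, s) = (none, s') ∧ Rel m k₀ b.stk s' := by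
  induction N with
  | zero =>
    intro a b h hb s hs T _
    have e : a = b := by simpa [StepsTo] using h
    subst e
    refine ⟨s, ?_, hs⟩
    have : ctl m l₀ a = none := by unfold ctl; rw [hb]
    rw [this, step_none]
  | succ N ih =>
    intro a b h hb s hs T hT
    obtain ⟨la, v, S⟩ := a
    unfold StepsTo at h
    rw [iterate_succ_apply] at h
    cases la with
    | none =>
      exfalso
      have : flip bind (TM2.step m) (some ⟨none, v, S⟩) = none := rfl
      rw [this, bind_none_iter] at h
      exact absurd h (by simp)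
    | some l =>
      have e : flip bind (TM2.step m) (some ⟨some l, v, S⟩) = some (TM2.stepAux (m l) v S) := rfl
      rw [e] at h
      obtain ⟨n, hn, s1, h1, h2⟩ := sim1 m l₀ k₀ (m l) ⟨l, TM2.stmts₁_self⟩ v S s hs
      have hnH : n ≤ H := hn.trans (hH l)
      have hT2 : H * N ≤ T - n := by
        have : H * (N + 1) = H * N + H := by ring
        omega
      obtain ⟨s', h3, h4⟩ := ih _ b h hb s1 h2 (T - n) hT2
      refine ⟨s', ?_, h4⟩
      have hTn : T = (T - n) + n := by
        have : H * (N + 1) = H * N + H := by ring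
        omega
      rw [hTn, iterate_add_apply]
      have e2 : ctl m l₀ ⟨some l, v, S⟩ = some (toSt m l₀ (m l), v) := rfl
      rw [e2, h1]
      exact h3

end sim

end Pool.Agent.H.MP_84f0af_lc
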