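import Pool.Agent.H.MP_84f0af_lc.Tableau
import Pool.Agent.H.MP_84f0af_lc.Shift
import Pool.Agent.H.MP_84f0af_lc.Defs

/-!
Languages in NP and formulas.
-/

namespace Pool.Agent.H.MP_84f0af_lc

open Turing Function

/-! ### Numbering -/

section numbering

noncomputable def num {X : Type} [Fintype X] (x : X) : ℕ := (Fintype.equivFin X x).val

open Classical in
noncomputable def unnum {X : Type} [Fintype X] [Nonempty X] (n : ℕ) : X :=
  if h : n < Fintype.card X then (Fintype.equivFin X).symm ⟨n, h⟩ else Classical.arbitrary X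

theorem num_lt {X : Type} [Fintype X] (x : X) : num x < Fintype.card X :=
  (Fintype.equivFin X x).isLt

theorem unnum_num {X : Type} [Fintype X] [Nonempty X] (x : X) : unnum (num x) = x := by
  unfold unnum
  rw [dif_pos (num_lt x)]
  simp [num]

theorem num_injective {X : Type} [Fintype X] : Injective (num : X → ℕ) := by
  intro x y h
  exact (Fintype.equivFin X).injective (Fin.ext h)

variable {C K Y : Type} [Fintype C] [Fintype K] [Fintype Y] [Nonempty C] [Nonempty K] [Nonempty Y]

noncomputable def opCode (o : Op Y) : ℕ :=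
  match o with
  | .stay => 0
  | .pop => 1
  | .push y => num y + 2

/-- the machine with numbered states of a shift machine -/
noncomputable def toNM (M : SM C K Y) : NM where
  nC := Fintype.card C
  nK := Fintype.card K
  nY := Fintype.card Y
  ts c := num (M.tst (unnum c))
  nx c a := num (M.nxt (unnum c) (unnum a))
  op c k := opCode (M.op (unnum c) (unnum k))
  ts_lt _ _ := num_lt _
  nx_lt _ _ _ _ := num_lt _
  op_lt c _ k _ := by
    have h : 0 < Fintype.card Y := Fintype.card_pos
    cases M.op (unnum c) (unnum k) with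
    | stay => simp only [opCode]; omega
    | pop => simp only [opCode]; omega
    | push y => have := num_lt y; simp only [opCode]; omega

/-- configuration with numbers -/
noncomputable def encC (c : C × (K → ℕ → Y)) (k i : ℕ) : ℕ :=
  if k < Fintype.card K then num (c.2 (unnum k) i) else num c.1

theorem step_encC (M : SM C K Y) (c : C × (K → ℕ → Y)) :
    (toNM M).step (encC c) = encC (M.step c) := by
  funext k i
  have hc : encC c (toNM M).nK 0 = num c.1 := by
    unfold encC
    exact if_neg (lt_irrefl _)
  unfold NM.step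
  rw [hc]
  by_cases hk : k < Fintype.card K
  · have hk' : k < (toNM M).nK := hk
    rw [if_pos hk']
    have hop : (toNM M).op (num c.1) k = opCode (M.op c.1 (unnum k)) := by
      show opCode (M.op (unnum (num c.1)) (unnum k)) = _
      rw [unnum_num]
    rw [hop]
    have e : ∀ j, encC c k j = num (c.2 (unnum k) j) := fun j => if_pos hk
    have e2 : encC (M.step c) k i = num ((M.op c.1 (unnum k)).act (c.2 (unnum k)) i) := if_pos hk
    rw [e2]
    cases M.op c.1 (unnum k) with
    | stay => simp only [opCode, if_true, Op.act]; exact e i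
    | pop => simp only [opCode, one_ne_zero, if_false, if_true, Op.act]; exact e (i + 1)
    | push y =>
      have h1 : ¬ num y + 2 = 0 := by omega
      have h2 : ¬ num y + 2 = 1 := by omega
      simp only [opCode, h1, h2, if_false, Op.act]
      cases i with
      | zero => simp [ncons]
      | succ i =>
        rw [if_neg (by omega), e]
        rfl
  · have hk' : ¬ k < (toNM M).nK := hk
    rw [if_neg hk']
    have e1 : (toNM M).ts (num c.1) = num (M.tst c.1) := by
      show num (M.tst (unnum (num c.1))) = _
      rw [unnum_num]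
    have e2 : encC c (num (M.tst c.1)) 0 = num (c.2 (M.tst c.1) 0) := by
      unfold encC
      rw [if_pos (num_lt _), unnum_num]
    rw [e1, e2]
    have e3 : encC (M.step c) k i = num (M.step c).1 := if_neg hk
    rw [e3]
    show num (M.nxt (unnum (num c.1)) (unnum (num (c.2 (M.tst c.1) 0)))) = _
    rw [unnum_num, unnum_num]
    rfl

theorem iter_encC (M : SM C K Y) (c : C × (K → ℕ → Y)) (t : ℕ) :
    (toNM M).step^[t] (encC c) = encC (M.step^[t] c) := by
  induction t with
  | zero => rfl
  | succ t ih => rw [iterate_succ_apply', iterate_succ_apply', ih, step_encC]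

end numbering

/-! ### Polynomials -/

theorem poly_mono (P : Polynomial ℕ) {a b : ℕ} (h : a ≤ b) : P.eval a ≤ P.eval b := by
  rw [Polynomial.eval_eq_sum_range, Polynomial.eval_eq_sum_range]
  exact Finset.sum_le_sum fun i _ => Nat.mul_le_mul_left _ (Nat.pow_le_pow_left h i)

theorem UF.cpow {Γ₀ Γ₁ τ : Type} [Env τ Γ₀] {f : τ → ℕ} (hf : UF Γ₁ f) (c : ℕ) :
    UF Γ₁ (fun t => f t ^ c) := by
  induction c with
  | zero => exact (UF.const 1).congr fun t => by simp
  | succ c ih => exact (ih.mul hf).congr fun t => by rw [pow_succ]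

theorem UF.poly {Γ₀ Γ₁ τ : Type} [Env τ Γ₀] (P : Polynomial ℕ) {f : τ → ℕ} (hf : UF Γ₁ f) :
    UF Γ₁ (fun t => P.eval (f t)) := by
  induction P using Polynomial.induction_on' with
  | add p q hp hq => exact (hp.add hq).congr fun t => by rw [Polynomial.eval_add]
  | monomial n a =>
    exact ((UF.const a).mul (hf.cpow n)).congr fun t => by rw [Polynomial.eval_monomial]

/-! ### The machine of a verifier -/

theorem initList_self (tm : FinTM2) (s : List (tm.Γ tm.k₀)) : (initList tm s).stk tm.k₀ = s := by
  unfold initList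
  exact dif_pos rfl

theorem initList_ne (tm : FinTM2) (s : List (tm.Γ tm.k₀)) {k : tm.K} (h : k ≠ tm.k₀) :
    (initList tm s).stk k = [] := by
  unfold initList
  exact dif_neg h

theorem haltList_self (tm : FinTM2) (s : List (tm.Γ tm.k₁)) : (haltList tm s).stk tm.k₁ = s := by
  unfold haltList
  exact dif_pos rfl

theorem np_families {Γ : Type} [Fintype Γ] {L : Set (List Γ)} (h : InNP L) (Γ₁ : Type) :
    ∃ (n m : List Γ → ℕ) (ks : List (Kind Γ Γ₁)), UF Γ₁ n ∧ UF Γ₁ m ∧ (∀ x, 1 ≤ n x) ∧
      ∀ x, x ∈ L ↔ (famF n m ks x).Sat := by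
  obtain ⟨p, V, ⟨comp⟩, hL⟩ := h
  let tm := comp.tm
  let : DecidableEq tm.K := tm.kDecidableEq
  let : Fintype tm.K := tm.kFin
  let : Fintype tm.Λ := tm.ΛFin
  let : Fintype tm.σ := tm.σFin
  let : Fintype (tm.Γ tm.k₀) := tm.Γk₀Fin
  have : Finite (St tm.m) := St.finite tm.m
  let : Fintype (St tm.m) := Fintype.ofFinite _
  have : Nonempty tm.K := ⟨tm.k₀⟩
  let l₀ : tm.Λ := tm.main
  let SMt : SM (SC tm.m) tm.K (SY tm.m tm.k₀) := toSM tm.m l₀ tm.k₀
  let M : NM := toNM SMt
  let c₀ : SC tm.m := some (toSt tm.m l₀ (tm.m tm.main), tm.initialState)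
  let ia : Γ ⊕ Bool → tm.Γ tm.k₀ := comp.inputAlphabet.invFun
  let oa : Bool → tm.Γ tm.k₁ := comp.outputAlphabet.invFun
  have hoa : Injective oa := comp.outputAlphabet.symm.injective
  let inj : Γ ⊕ Bool → SY tm.m tm.k₀ := fun g => some (Sum.inl (ia g))
  let D : Acc Γ M :=
    { c₀ := num c₀
      k₀ := num tm.k₀
      k₁ := num tm.k₁
      y₀ := num (none : SY tm.m tm.k₀)
      inY := fun g => num (inj (Sum.inl g))
      wY := fun b => num (inj (Sum.inr b))
      good := fun a => den tm.m tm.k₀ tm.k₁ (unnum a) = some (oa true)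
      c₀_lt := num_lt _
      k₀_lt := num_lt _
      k₁_lt := num_lt _
      y₀_lt := num_lt _
      inY_lt := fun _ => num_lt _
      wY_lt := fun _ => num_lt _
      wY_ne := fun b hb => by
        have := num_injective hb
        simp [inj] at this }
  obtain ⟨H, hH⟩ : ∃ H, ∀ l, ht (tm.m l) ≤ H :=
    ⟨Finset.univ.sup fun l => ht (tm.m l), fun l => Finset.le_sup (f := fun l => ht (tm.m l))
      (Finset.mem_univ l)⟩
  let B : List Γ → ℕ := fun x => p.eval x.length
  let T : List Γ → ℕ := fun x => H * comp.time.eval (x.length + B x) + (x.length + B x)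
  have hlenU : UF Γ₁ (fun x : List Γ => x.length) := UF.len (τ := List Γ)
  have hB : UF Γ₁ B := UF.poly p hlenU
  have hT : UF Γ₁ T := ((UF.const H).mul (UF.poly comp.time (hlenU.add hB))).add (hlenU.add hB)
  have hR : UF Γ₁ (RR M T) := hT.add (UF.const _)
  refine ⟨fun x => RR M T x ^ 4, fun x => RR M T x ^ 8, fams M D T B hT hB, hR.cpow 4, hR.cpow 8,
    ?_, ?_⟩
  · intro x
    exact Nat.one_le_pow _ _ (by unfold RR; omega)
  -- the initial configuration
  let s₀ : List Γ → List Bool → tm.K → ℕ → SY tm.m tm.k₀ := fun x w k i =>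
    if k = tm.k₀ then
      ((x.map Sum.inl ++ w.map (Sum.inr : Bool → Γ ⊕ Bool)).map inj)[i]?.getD none else none
  have hinit : ∀ x w, D.init x w = encC (c₀, s₀ x w) := by
    intro x w
    funext k i
    unfold Acc.init encC
    by_cases hk : k < Fintype.card tm.K
    · have hk' : k < M.nK := hk
      rw [if_pos hk', if_pos hk]
      by_cases h1 : k = num tm.k₀
      · have h1' : k = D.k₀ := h1
        rw [if_pos h1']
        simp only [s₀]
        rw [h1, unnum_num, if_pos rfl]
        have e : x.map D.inY ++ w.map D.wY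
            = (((x.map Sum.inl ++ w.map (Sum.inr : Bool → Γ ⊕ Bool)).map inj)).map num := by
          simp [D, Function.comp_def]
        rw [e, List.getElem?_map]
        cases ((x.map Sum.inl ++ w.map (Sum.inr : Bool → Γ ⊕ Bool)).map inj)[i]? <;> rfl
      · have h1' : ¬ k = D.k₀ := h1
        rw [if_neg h1']
        have h2 : ¬ (unnum k : tm.K) = tm.k₀ := by
          intro h3
          apply h1
          rw [← h3]
          unfold unnum num
          rw [dif_pos hk]
          simp
        simp only [s₀, h2, if_false]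
        rfl
    · have hk' : ¬ k < M.nK := hk
      rw [if_neg hk', if_neg hk]
  -- the run of the machine
  have hacc : ∀ x w, w.length ≤ B x →
      (D.good (M.step^[T x] (D.init x w) D.k₁ 0) ↔ V (x, w) = true) := by
    intro x w hw
    have hrun := comp.outputsFun (x, w)
    obtain ⟨⟨N, hN⟩, hNle⟩ := hrun
    simp only [Option.map_some] at hN
    have hle : H * N ≤ T x := by
      have h1 : (x.map Sum.inl ++ w.map (Sum.inr : Bool → Γ ⊕ Bool)).length ≤ x.length + B x := by
        simp only [List.length_append, List.length_map]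
        omega
      have h2 := hNle.trans (poly_mono comp.time h1)
      have h3 : H * N ≤ H * comp.time.eval (x.length + B x) := Nat.mul_le_mul_left H h2
      simp only [T]
      omega
    obtain ⟨s', h1, h2⟩ := sim_run tm.m l₀ tm.k₀ H hH N _ _ hN rfl (s₀ x w) (by
      intro k i
      by_cases hk : k = tm.k₀
      · subst hk
        simp only [s₀, if_true]
        rw [initList_self comp.tm]
        show den tm.m tm.k₀ tm.k₀ _ = (List.map ia _)[i]?
        rw [List.getElem?_map, List.getElem?_map]
        cases (x.map Sum.inl ++ w.map (Sum.inr : Bool → Γ ⊕ Bool))[i]? with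
        | none => rfl
        | some g => simp [inj, den]
      · simp only [s₀, hk, if_false]
        rw [initList_ne comp.tm _ hk]
        simp [den]) (T x) hle
    have e1 : ctl tm.m l₀ (initList tm (List.map ia
        (x.map Sum.inl ++ w.map (Sum.inr : Bool → Γ ⊕ Bool)))) = c₀ := rfl
    have e2 : M.step^[T x] (D.init x w) = encC ((none : SC tm.m), s') := by
      rw [hinit, iter_encC]
      congr 1
    have e3 : M.step^[T x] (D.init x w) D.k₁ 0 = num (s' tm.k₁ 0) := by
      rw [e2]
      show encC _ (num tm.k₁) 0 = _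
      unfold encC
      rw [if_pos (num_lt _), unnum_num]
    rw [e3]
    show den tm.m tm.k₀ tm.k₁ (unnum (num (s' tm.k₁ 0))) = some (oa true) ↔ _
    rw [unnum_num, h2 tm.k₁ 0]
    have e4 : (haltList tm (List.map comp.outputAlphabet.invFun [V (x, w)])).stk tm.k₁
        = [oa (V (x, w))] := haltList_self comp.tm _
    rw [e4]
    simp only [List.getElem?_cons_zero, Option.some.injEq]
    exact ⟨fun h => hoa h, fun h => by rw [h]⟩
  intro x
  rw [hL x]
  constructor
  · rintro ⟨w, hw, hV⟩
    exact tableau_sat M D hT hB x w hw ((hacc x w hw).2 hV)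
  · intro hs
    obtain ⟨w, hw, hg⟩ := sat_tableau M D hT hB x (Nat.le_add_left _ _) le_rfl le_rfl hs
    exact ⟨w, hw, (hacc x w hw).1 hg⟩

end Pool.Agent.H.MP_84f0af_lc
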