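import Pool.Agent.H.MP_84f0af_lc.Tiles

/-!
The density of the instance is one.
-/

namespace Pool.Agent.H.MP_84f0af_lc

theorem sum_map_flatMap_range {α : Type*} (n : ℕ) (g : ℕ → List α) (f : α → ℚ) :
    (((List.range n).flatMap g).map f).sum = ∑ i ∈ Finset.range n, ((g i).map f).sum := by
  induction n with
  | zero => simp
  | succ n ih =>
    rw [List.range_succ, List.flatMap_append, List.map_append, List.sum_append, ih,
      Finset.sum_range_succ]
    simp

theorem sum_map_range_map {α : Type*} (n : ℕ) (g : ℕ → α) (f : α → ℚ) :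
    (((List.range n).map g).map f).sum = ∑ i ∈ Finset.range n, f (g i) := by
  induction n with
  | zero => simp
  | succ n ih =>
    rw [List.range_succ, List.map_append, List.map_append, List.sum_append, ih,
      Finset.sum_range_succ]
    simp

namespace Fml
variable {F : Fml}

/-- inverse of the modulus -/
def inv (F : Fml) (t : Tile) : ℚ := 1 / (F.modulus t : ℚ)

theorem inv_T (k d : ℕ) : F.inv (.T k d) = 1 / 4 ^ k := by simp [inv, modulus, base, rest]
theorem inv_P (i : ℕ) : F.inv (.P i) = 1 / (3 * 4 ^ (2 * i + 1)) := by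
  simp [inv, modulus, base, rest]
theorem inv_Y (i d : ℕ) : F.inv (.Y i d) = 1 / (3 * 4 ^ (2 * i + 2)) := by
  simp [inv, modulus, base, rest]
theorem inv_G (l k d : ℕ) : F.inv (.G l k d) = 1 / (3 * 4 ^ k * F.q l) := by
  simp [inv, modulus, base, rest]
theorem inv_CF (j d : ℕ) : F.inv (.CF j d) = 1 / (3 * 4 ^ F.K j * F.Q j) := by
  simp [inv, modulus, base, rest]
theorem inv_CT (j : ℕ) : F.inv (.CT j) = 1 / (4 ^ F.K j * F.Q j) := by
  simp [inv, modulus, base, rest]

theorem sum_varTiles (i : ℕ) : ((varTiles i).map F.inv).sum = 13 / 4 ^ (2 * i + 2) := by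
  unfold varTiles
  simp only [List.map_append, List.sum_append, sum_map_range_map, List.map_cons, List.map_nil,
    List.sum_cons, List.sum_nil, inv_T, inv_P, inv_Y, Finset.sum_const, Finset.card_range,
    nsmul_eq_mul]
  have e : (4 : ℚ) ^ (2 * i + 2) = 4 ^ (2 * i + 1) * 4 := by ring
  rw [e]
  have : (4 : ℚ) ^ (2 * i + 1) ≠ 0 := by positivity
  generalize (4 : ℚ) ^ (2 * i + 1) = x at *
  push_cast
  field_simp
  norm_num

theorem sum_litTiles_aux (hF : F.Good) {l : ℕ} (hl : l < 2 * F.n) (N : ℕ)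
    (hN : 2 * (l / 2) + 2 + 1 ≤ N) (hN' : N ≤ 2 * F.n + 1 + F.m) :
    ∑ k ∈ Finset.range N, (F.cnt l k : ℚ) * (1 / (3 * 4 ^ k * F.q l)) =
      1 / 4 ^ (2 * (l / 2) + 2) - 1 / (4 ^ (N - 1) * F.q l) -
      ∑ k ∈ Finset.range N, (if F.Mem l k then 1 / (4 ^ k * (F.q l : ℚ)) else 0) := by
  have hq : (F.q l : ℚ) ≠ 0 := by
    have := hF.q_gt l hl
    have : F.q l ≠ 0 := by omega
    exact_mod_cast this
  induction N, hN using Nat.le_induction with
  | base =>
    rw [Finset.sum_range_succ, Finset.sum_range_succ (f := fun k => if F.Mem l k then _ else _)]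
    have h1 : ∑ k ∈ Finset.range (2 * (l / 2) + 2), (F.cnt l k : ℚ) * (1 / (3 * 4 ^ k * F.q l)) = 0 := by
      apply Finset.sum_eq_zero
      intro k hk
      have hk := Finset.mem_range.1 hk
      rw [cnt, if_pos hk]
      simp
    have h2 : ∀ k ≤ 2 * (l / 2) + 2, ¬ F.Mem l k := by
      intro k hk h
      have := h.1
      omega
    have h3 : ∑ k ∈ Finset.range (2 * (l / 2) + 2), (if F.Mem l k then 1 / (4 ^ k * (F.q l : ℚ)) else 0) = 0 := by
      apply Finset.sum_eq_zero
      intro k hk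
      have hk := Finset.mem_range.1 hk
      rw [if_neg (h2 k hk.le)]
    rw [h1, h3, if_neg (h2 _ le_rfl), cnt, if_neg (by omega), if_pos rfl]
    have hge : 1 ≤ F.q l := by have := hF.q_gt l hl; omega
    rw [Nat.add_sub_cancel]
    push_cast [Nat.cast_sub hge]
    have : (4 : ℚ) ^ (2 * (l / 2) + 2) ≠ 0 := by positivity
    field_simp
    ring
  | succ N hN ih =>
    rw [Finset.sum_range_succ, Finset.sum_range_succ (f := fun k => if F.Mem l k then _ else _),
      ih (by omega)]
    obtain ⟨N', rfl⟩ : ∃ N', N = N' + 1 := ⟨N - 1, by omega⟩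
    rw [cnt, if_neg (by omega), if_neg (by omega), if_pos (by omega)]
    have : (4 : ℚ) ^ N' ≠ 0 := by positivity
    simp only [Nat.add_sub_cancel]
    split_ifs with h
    · push_cast
      rw [pow_succ (4 : ℚ) N']
      field_simp
      ring
    · push_cast
      rw [pow_succ (4 : ℚ) N']
      field_simp
      ring

theorem sum_litTiles (hF : F.Good) {l : ℕ} (hl : l < 2 * F.n) :
    ((F.litTiles l).map F.inv).sum = 1 / 4 ^ (2 * (l / 2) + 2) -
      ∑ j ∈ Finset.range F.m, (if l ∈ F.cl j then 1 / (4 ^ F.K j * (F.q l : ℚ)) else 0) := by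
  have hq : (F.q l : ℚ) ≠ 0 := by
    have := hF.q_gt l hl
    have : F.q l ≠ 0 := by omega
    exact_mod_cast this
  unfold litTiles
  rw [sum_map_flatMap_range]
  simp only [sum_map_range_map, inv_G, Finset.sum_const, Finset.card_range, nsmul_eq_mul]
  have e : 2 * F.n + 2 + F.m = (2 * F.n + 1 + F.m) + 1 := by ring
  rw [e, Finset.sum_range_succ, sum_litTiles_aux hF hl _ (by omega) le_rfl]
  have h1 : F.cnt l (2 * F.n + 1 + F.m) = 12 := by
    rw [cnt, if_neg (by omega), if_neg (by omega), if_neg (by omega), if_pos rfl]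
  have h2 : ∑ k ∈ Finset.range (2 * F.n + 1 + F.m), (if F.Mem l k then 1 / (4 ^ k * (F.q l : ℚ)) else 0)
      = ∑ j ∈ Finset.range F.m, (if l ∈ F.cl j then 1 / (4 ^ F.K j * (F.q l : ℚ)) else 0) := by
    rw [Finset.sum_range_add]
    have h3 : ∑ k ∈ Finset.range (2 * F.n + 1), (if F.Mem l k then 1 / (4 ^ k * (F.q l : ℚ)) else 0) = 0 := by
      apply Finset.sum_eq_zero
      intro k hk
      have hk := Finset.mem_range.1 hk
      rw [if_neg]
      intro h
      have := h.1
      omega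
    rw [h3, zero_add]
    apply Finset.sum_congr rfl
    intro j _
    have : F.Mem l (2 * F.n + 1 + j) ↔ l ∈ F.cl j := by
      unfold Mem
      rw [Nat.add_sub_cancel_left]
      exact ⟨fun h => h.2, fun h => ⟨by omega, h⟩⟩
    simp only [this, K]
  rw [h1, h2]
  obtain ⟨N', hN'⟩ : ∃ N', 2 * F.n + 1 + F.m = N' + 1 := ⟨2 * F.n + F.m, by ring⟩
  rw [hN', Nat.add_sub_cancel, pow_succ]
  have : (4 : ℚ) ^ N' ≠ 0 := by positivity
  push_cast
  field_simp
  ring

theorem sum_clTiles (hF : F.Good) {j : ℕ} (hj : j < F.m) :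
    ((F.clTiles j).map F.inv).sum = ∑ l ∈ F.cl j, 1 / (4 ^ F.K j * (F.q l : ℚ)) := by
  unfold clTiles
  rw [List.map_append, List.sum_append, sum_map_range_map]
  simp only [inv_CF, Finset.sum_const, Finset.card_range, nsmul_eq_mul]
  have hq : ∀ l ∈ F.cl j, F.q l ≠ 0 := by
    intro l hl
    have := hF.q_gt l (hF.cl_lt j hj l hl)
    omega
  have hQ : (F.Q j : ℚ) ≠ 0 := by
    have : F.Q j ≠ 0 := Finset.prod_ne_zero_iff.2 hq
    exact_mod_cast this
  have h4 : (4 : ℚ) ^ F.K j ≠ 0 := by positivity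
  rcases Finset.eq_empty_or_nonempty (F.cl j) with h | h
  · have hS : F.S j = 0 := by unfold S; rw [h]; simp
    rw [if_neg (by rw [h]; simp), hS, h]
    simp
  · have hS : 1 ≤ F.S j := by
      obtain ⟨l, hl⟩ := h
      have h1 : 1 ≤ ∏ l' ∈ (F.cl j).erase l, F.q l' := by
        apply Nat.one_le_iff_ne_zero.2
        exact Finset.prod_ne_zero_iff.2 fun l' hl' => hq l' (Finset.mem_of_mem_erase hl')
      exact le_trans h1 (Finset.single_le_sum (f := fun l => ∏ l' ∈ (F.cl j).erase l, F.q l')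
        (fun _ _ => Nat.zero_le _) hl)
    rw [if_pos h]
    simp only [List.map_cons, List.map_nil, List.sum_cons, List.sum_nil, inv_CT]
    rw [Nat.cast_sub (by omega)]
    have hSQ : (F.S j : ℚ) / F.Q j = ∑ l ∈ F.cl j, 1 / (F.q l : ℚ) := by
      unfold S
      push_cast
      rw [Finset.sum_div]
      apply Finset.sum_congr rfl
      intro l hl
      have e : (F.Q j : ℚ) = (F.q l : ℚ) * ∏ l' ∈ (F.cl j).erase l, (F.q l' : ℚ) := by
        unfold Q
        push_cast
        exact (Finset.mul_prod_erase _ (fun l' => (F.q l' : ℚ)) hl).symm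
      rw [e]
      have h1 : (F.q l : ℚ) ≠ 0 := by exact_mod_cast hq l hl
      have h2 : (∏ l' ∈ (F.cl j).erase l, (F.q l' : ℚ)) ≠ 0 :=
        Finset.prod_ne_zero_iff.2 fun l' hl' => by exact_mod_cast hq l' (Finset.mem_of_mem_erase hl')
      field_simp
    have : ∑ l ∈ F.cl j, 1 / (4 ^ F.K j * (F.q l : ℚ)) = (1 / 4 ^ F.K j) * ((F.S j : ℚ) / F.Q j) := by
      rw [hSQ, Finset.mul_sum]
      apply Finset.sum_congr rfl
      intro l _
      rw [one_div_mul_one_div]
    rw [this]
    push_cast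
    field_simp
    ring

theorem sum_pow16 (n : ℕ) : ∑ i ∈ Finset.range n, (15 : ℚ) / 4 ^ (2 * i + 2) + 1 / 4 ^ (2 * n) = 1 := by
  induction n with
  | zero => simp
  | succ n ih =>
    rw [Finset.sum_range_succ]
    have e : 2 * (n + 1) = 2 * n + 2 := by ring
    rw [e]
    have h : (15 : ℚ) / 4 ^ (2 * n + 2) + 1 / 4 ^ (2 * n + 2) = 1 / 4 ^ (2 * n) := by
      rw [pow_add]
      have : (4 : ℚ) ^ (2 * n) ≠ 0 := by positivity
      field_simp
      norm_num
    linarith

theorem sum_lit_levels (n : ℕ) : ∑ l ∈ Finset.range (2 * n), (1 : ℚ) / 4 ^ (2 * (l / 2) + 2)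
    = ∑ i ∈ Finset.range n, 2 / 4 ^ (2 * i + 2) := by
  induction n with
  | zero => simp
  | succ n ih =>
    have e : 2 * (n + 1) = 2 * n + 1 + 1 := by ring
    rw [e, Finset.sum_range_succ, Finset.sum_range_succ, ih, Finset.sum_range_succ]
    have h1 : 2 * n / 2 = n := by omega
    have h2 : (2 * n + 1) / 2 = n := by omega
    rw [h1, h2]
    ring

theorem density (hF : F.Good) : (F.tiles.map F.inv).sum = 1 := by
  unfold tiles
  simp only [List.map_append, List.sum_append, sum_map_flatMap_range, sum_map_range_map,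
    sum_varTiles, inv_T]
  have h1 : ∑ l ∈ Finset.range (2 * F.n), ((F.litTiles l).map F.inv).sum
      = ∑ i ∈ Finset.range F.n, (2 : ℚ) / 4 ^ (2 * i + 2) - ∑ l ∈ Finset.range (2 * F.n),
        ∑ j ∈ Finset.range F.m, (if l ∈ F.cl j then 1 / (4 ^ F.K j * (F.q l : ℚ)) else 0) := by
    rw [← sum_lit_levels, ← Finset.sum_sub_distrib]
    apply Finset.sum_congr rfl
    intro l hl
    exact sum_litTiles hF (Finset.mem_range.1 hl)
  have h2 : ∑ j ∈ Finset.range F.m, ((F.clTiles j).map F.inv).sum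
      = ∑ l ∈ Finset.range (2 * F.n),
        ∑ j ∈ Finset.range F.m, (if l ∈ F.cl j then 1 / (4 ^ F.K j * (F.q l : ℚ)) else 0) := by
    rw [Finset.sum_comm]
    apply Finset.sum_congr rfl
    intro j hj
    rw [sum_clTiles hF (Finset.mem_range.1 hj), ← Finset.sum_filter]
    apply Finset.sum_congr _ (fun _ _ => rfl)
    ext l
    rw [Finset.mem_filter, Finset.mem_range]
    exact ⟨fun h => ⟨hF.cl_lt j (Finset.mem_range.1 hj) l h, h⟩, fun h => h.2⟩
  rw [h1, h2]
  have h3 : ∑ _d ∈ Finset.range 4, (1 : ℚ) / 4 ^ (2 * F.n + 1) = 1 / 4 ^ (2 * F.n) := by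
    simp only [Finset.sum_const, Finset.card_range, nsmul_eq_mul]
    rw [pow_succ]
    have : (4 : ℚ) ^ (2 * F.n) ≠ 0 := by positivity
    push_cast
    field_simp
  rw [h3]
  have h4 := sum_pow16 F.n
  have h5 : ∑ i ∈ Finset.range F.n, (15 : ℚ) / 4 ^ (2 * i + 2)
      = ∑ i ∈ Finset.range F.n, (13 : ℚ) / 4 ^ (2 * i + 2) +
        ∑ i ∈ Finset.range F.n, (2 : ℚ) / 4 ^ (2 * i + 2) := by
    rw [← Finset.sum_add_distrib]
    apply Finset.sum_congr rfl
    intro i _
    rw [← add_div]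
    norm_num
  linarith

end Fml

end Pool.Agent.H.MP_84f0af_lc
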