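import Pool.Agent.H.MP_84f0af_lc.UFlib

/-!
Words which can be written in polynomial time.
-/

namespace Pool.Agent.H.MP_84f0af_lc

open Function

variable {Γ₀ Γ₁ τ τ' : Type} [Env τ Γ₀] [Env τ' Γ₀]

/-- writing to register `1` keeps the representation -/
theorem Holds.out {S : Sto (Sy Γ₀ Γ₁)} {t : τ} {a : ℕ → ℕ} {b : ℕ} (h : Holds Γ₁ S t a b)
    (x : List (Sy Γ₀ Γ₁)) : Holds Γ₁ (update S 1 x) t a b where
  inp := by rw [update_of_ne (by omega)]; exact h.inp
  two := h.two
  lo := h.lo
  hi := h.hi
  val := fun i hi => by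
    rw [update_of_ne (by have := h.lo i hi; omega)]; exact h.val i hi
  emp := fun r hr => by rw [update_of_ne (by have := h.two; omega)]; exact h.emp r hr

theorem Emits.nil : Emits Γ₁ (fun _ : τ => ([] : List Γ₁)) := by
  refine ⟨fun _ _ => .skip, fun _ => 1, PB.const 1, fun _ => Nat.zero_le _, ?_⟩
  intro a b t S hS
  exact ⟨1, le_rfl, (Run.skip S).congr (by simp)⟩

theorem Emits.sym (y : Γ₁) : Emits Γ₁ (fun _ : τ => [y]) := by
  refine ⟨fun _ _ => .push 1 (outS Γ₀ y), fun _ => 1, PB.const 1, fun _ => le_rfl, ?_⟩
  intro a b t S hS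
  exact ⟨1, le_rfl, (Run.push 1 (outS Γ₀ y) S).congr (by simp)⟩

theorem Emits.append {f g : τ → List Γ₁} (hf : Emits Γ₁ f) (hg : Emits Γ₁ g) :
    Emits Γ₁ (fun t => f t ++ g t) := by
  obtain ⟨pf, Tf, hTf, hfle, hfr⟩ := hf
  obtain ⟨pg, Tg, hTg, hgle, hgr⟩ := hg
  refine ⟨fun a b => .seq (pf a b) (pg a b), fun t => Tf t + Tg t, hTf.add hTg, ?_, ?_⟩
  · intro t
    beta_reduce
    rw [List.length_append]
    exact Nat.add_le_add (hfle t) (hgle t)
  · intro a b t S hS
    obtain ⟨n1, hn1, r1⟩ := hfr a b t S hS
    obtain ⟨n2, hn2, r2⟩ := hgr a b t _ (hS.out (((f t).map (outS Γ₀)).reverse ++ S 1))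
    refine ⟨n1 + n2, Nat.add_le_add hn1 hn2, (Run.seq r1 r2).congr ?_⟩
    rw [update_idem, update_self]
    simp

theorem Emits.ite {P : τ → Prop} [∀ t, Decidable (P t)] (hP : UP Γ₁ P) {f g : τ → List Γ₁}
    (hf : Emits Γ₁ f) (hg : Emits Γ₁ g) : Emits Γ₁ (fun t => if P t then f t else g t) := by
  obtain ⟨pp, Tp, hTp, hple, hpr⟩ := hP
  obtain ⟨pf, Tf, hTf, hfle, hfr⟩ := hf
  obtain ⟨pg, Tg, hTg, hgle, hgr⟩ := hg
  refine ⟨fun a b => .seq (pp a b) (.ite b nonemp (.seq (clear b) (pf a b)) (pg a b)),
    fun t => Tp t + (1 + ((2 * Tp t + 1) + (Tf t + Tg t))), ?_, ?_, ?_⟩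
  · exact hTp.add ((PB.const 1).add ((((PB.const 2).mul hTp).add (PB.const 1)).add
      (hTf.add hTg)))
  · intro t
    have := hfle t
    have := hgle t
    beta_reduce
    split_ifs <;> omega
  · intro a b t S hS
    beta_reduce
    obtain ⟨n1, hn1, r1⟩ := hpr a b t S hS
    have h1 := hple t
    beta_reduce at r1 h1
    by_cases h : P t
    · rw [if_pos h]
      rw [if_pos h] at r1
      have r2 := run_clear (r := b) [mkS] (update S b (un 1)) (by rw [update_self]; rfl)
      have hSb : update (update S b (un 1)) b [] = S := by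
        rw [update_idem, ← hS.emp b le_rfl, update_eq_self]
      rw [hSb] at r2
      obtain ⟨n2, hn2, r3⟩ := hfr a b t S hS
      rw [if_pos h] at h1
      refine ⟨_, ?_, Run.seq r1 (Run.ite_true ?_ (Run.seq r2 r3))⟩
      · simp only [List.length_singleton]
        omega
      · rw [update_self]; rfl
    · rw [if_neg h]
      rw [if_neg h, un_zero, ← hS.emp b le_rfl, update_eq_self] at r1
      obtain ⟨n2, hn2, r3⟩ := hgr a b t S hS
      refine ⟨_, ?_, Run.seq r1 (Run.ite_false ?_ r3)⟩
      · omega
      · rw [hS.emp b le_rfl]; rfl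

/-- concatenation over a range -/
theorem Emits.loop {F : ℕ × τ → List Γ₁} (hF : Emits Γ₁ F) {g : τ → ℕ} (hg : UF Γ₁ g) :
    Emits Γ₁ (fun t => (List.range (g t)).flatMap fun i => F (i, t)) := by
  obtain ⟨pF, TF, hTF, hFle, hFr⟩ := hF
  obtain ⟨pg, Tg, hTg, hgle, hgr⟩ := hg
  obtain ⟨M, hM, hM'⟩ := hTF.unif (hTg.of_le hgle)
  let body : (ℕ → ℕ) → ℕ → Cmd (Sy Γ₀ Γ₁) := fun a b =>
    .seq (.pop b) (.seq (pF (ncons (b + 1) a) (b + 2)) (.push (b + 1) mkS))
  refine ⟨fun a b => .seq (pg a b) (.seq (.loop b nonemp (body a b)) (clear (b + 1))),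
    fun t => Tg t + ((Tg t * (1 + (1 + (M t + 1))) + 1) + (2 * Tg t + 1)), ?_, ?_, ?_⟩
  · exact hTg.add (((hTg.mul ((PB.const 1).add ((PB.const 1).add (hM.add (PB.const 1))))).add
      (PB.const 1)).add (((PB.const 2).mul hTg).add (PB.const 1)))
  · intro t
    beta_reduce
    have h1 : ∀ k ≤ g t, ((List.range k).flatMap fun i => F (i, t)).length ≤ k * M t := by
      intro k
      induction k with
      | zero => intro _; simp
      | succ k ih =>
        intro hk
        rw [List.range_succ, List.flatMap_append, List.length_append]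
        have h1 := ih (by omega)
        have h2 := (hFle (k, t)).trans (hM' t k (by omega))
        have h3 : (List.flatMap (fun i => F (i, t)) [k]).length = (F (k, t)).length := by simp
        rw [h3, Nat.succ_mul]
        omega
    have h2 := h1 (g t) le_rfl
    have h3 : g t * M t ≤ Tg t * (1 + (1 + (M t + 1))) := Nat.mul_le_mul (hgle t) (by omega)
    omega
  · intro a b t S hS
    beta_reduce
    obtain ⟨n1, hn1, r1⟩ := hgr a b t S hS
    have hb := hS.two
    let w : ℕ → List Γ₁ := fun i => (List.range i).flatMap fun i => F (i, t)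
    have hw : ∀ i, w (i + 1) = w i ++ F (i, t) := by
      intro i
      simp only [w]
      rw [List.range_succ, List.flatMap_append]
      simp
    let U : ℕ → ℕ → Sto (Sy Γ₀ Γ₁) := fun m i =>
      update (update (update S b (un m)) (b + 1) (un i)) 1 (((w i).map (outS Γ₀)).reverse ++ S 1)
    have hU : ∀ m i, Holds Γ₁ (U m i) t a (b + 2) := fun m i => ((hS.up (un m)).up (un i)).out _
    have U0 : ∀ m i, U m i b = un m := by
      intro m i
      simp only [U]
      rw [update_of_ne (by omega), update_of_ne (by omega), update_self]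
    have U1 : ∀ m i, U m i (b + 1) = un i := by
      intro m i
      simp only [U]
      rw [update_of_ne (by omega), update_self]
    have U2 : ∀ m i, U m i 1 = ((w i).map (outS Γ₀)).reverse ++ S 1 := by
      intro m i
      simp only [U]
      rw [update_self]
    have U3 : ∀ m i k, k ≠ 1 → k ≠ b → k ≠ b + 1 → U m i k = S k := by
      intro m i k h1 h2 h3
      simp only [U]
      rw [update_of_ne h1, update_of_ne h3, update_of_ne h2]
    have hloop : ∀ m i, m + i = g t → ∃ n ≤ m * (1 + (1 + (M t + 1))) + 1,
        Run (.loop b nonemp (body a b)) (U m i) n (U 0 (g t)) := by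
      intro m
      induction m with
      | zero =>
        intro i hi
        refine ⟨1, by omega, ?_⟩
        rw [← hi, Nat.zero_add]
        apply Run.loop_false
        rw [U0]
        rfl
      | succ m ih =>
        intro i hi
        obtain ⟨n, hn, hrun⟩ := ih (i + 1) (by omega)
        have q1 : Run (.pop b) (U (m + 1) i) 1 (U m i) := by
          refine (Run.pop b _).congr ?_
          funext k
          by_cases h1 : k = b
          · subst h1
            rw [update_self, U0, U0, un_succ]
            rfl
          · rw [update_of_ne h1]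
            by_cases h2 : k = b + 1
            · subst h2; rw [U1, U1]
            · by_cases h3 : k = 1
              · subst h3; rw [U2, U2]
              · rw [U3 _ _ _ h3 h1 h2, U3 _ _ _ h3 h1 h2]
        have hU1 := (hU m i).cons (r := b + 1) (n := i) (by omega) (by omega) (U1 m i)
        obtain ⟨n2, hn2, q2⟩ := hFr _ _ _ _ hU1
        have hn2' : n2 ≤ M t := hn2.trans (hM' t i (by omega))
        have q3 := Run.push (b + 1) (mkS : Sy Γ₀ Γ₁)
          (update (U m i) 1 (((F (i, t)).map (outS Γ₀)).reverse ++ U m i 1))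
        refine ⟨1 + (1 + (n2 + 1) + n), ?_, ?_⟩
        · rw [Nat.succ_mul]
          omega
        · refine Run.loop_true ?_ ((Run.seq q1 (Run.seq q2 q3)).congr ?_) hrun
          · rw [U0, un_succ]; rfl
          · funext k
            by_cases h2 : k = b + 1
            · subst h2
              rw [update_self, update_of_ne (by omega), U1, U1, un_succ]
            · rw [update_of_ne h2]
              by_cases h3 : k = 1
              · subst h3
                rw [update_self, U2, U2, hw]
                simp
              · rw [update_of_ne h3]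
                by_cases h1 : k = b
                · subst h1; rw [U0, U0]
                · rw [U3 _ _ _ h3 h1 h2, U3 _ _ _ h3 h1 h2]
    obtain ⟨n2, hn2, r2⟩ := hloop (g t) 0 (by omega)
    have e0 : U (g t) 0 = update S b (un (g t)) := by
      funext k
      by_cases h1 : k = b
      · subst h1; rw [U0, update_self]
      · rw [update_of_ne h1]
        by_cases h2 : k = b + 1
        · subst h2; rw [U1, hS.emp _ (by omega)]; rfl
        · by_cases h3 : k = 1
          · subst h3; rw [U2]; simp [w]
          · rw [U3 _ _ _ h3 h1 h2]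
    rw [e0] at r2
    have r3 := run_clear (r := b + 1) _ (U 0 (g t)) (U1 0 (g t))
    refine ⟨_, ?_, (Run.seq r1 (Run.seq r2 r3)).congr ?_⟩
    · rw [un_length]
      have h1 := hgle t
      have h2 : g t * (1 + (1 + (M t + 1))) ≤ Tg t * (1 + (1 + (M t + 1))) :=
        Nat.mul_le_mul_right _ h1
      omega
    · funext k
      show _ = update S 1 (((w (g t)).map (outS Γ₀)).reverse ++ S 1) k
      by_cases h2 : k = b + 1
      · subst h2
        rw [update_self, update_of_ne (by omega), hS.emp _ (by omega)]
      · rw [update_of_ne h2]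
        by_cases h3 : k = 1
        · subst h3
          rw [update_self, U2]
        · rw [update_of_ne h3]
          by_cases h1 : k = b
          · subst h1; rw [U0, hS.emp _ le_rfl]; rfl
          · rw [U3 _ _ _ h3 h1 h2]

/-- writing the table of a number -/
theorem Emits.cases (w : ℕ → List Γ₁) (N : ℕ) {f : τ → ℕ} (hf : UF Γ₁ f) :
    Emits Γ₁ (fun t => if f t < N then w (f t) else []) := by
  induction N with
  | zero => exact Emits.nil.congr fun t => by simp
  | succ N ih =>
    have hw : Emits Γ₁ (fun _ : τ => w N) := by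
      generalize w N = l
      induction l with
      | nil => exact Emits.nil
      | cons y l ih => exact (Emits.append (Emits.sym y) ih).congr fun t => by simp
    refine (Emits.ite (P := fun t => f t = N) (UP.eq hf (UF.const N)) hw ih).congr fun t => ?_
    by_cases h1 : f t = N
    · simp [h1]
    · by_cases h2 : f t < N
      · have h3 : f t < N + 1 := by omega
        simp [h1, h2, h3]
      · have h3 : ¬ f t < N + 1 := by omega
        simp [h1, h2, h3]

/-! ### Binary digits -/

/-- iterated halves -/
theorem UF.half {f g : τ → ℕ} (hf : UF Γ₁ f) (hg : UF Γ₁ g) :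
    UF Γ₁ (fun t => f t / 2 ^ g t) := by
  have key : ∀ t : τ, ∀ i : ℕ, (Nat.rec (f t) (fun _ r => r / 2) i : ℕ) = f t / 2 ^ i := by
    intro t i
    induction i with
    | zero => simp
    | succ i ih => show _ / 2 = _; rw [ih, pow_succ, Nat.div_div_eq_div_mul]
  have h := UF.recur (Γ₁ := Γ₁) (N := g) (z := f) (s := fun p => p.2.1 / 2)
    (B := f) hg hf (UF.snd.div (UF.const 2)) hf.pb (by
      intro t i hi
      have := key t i
      beta_reduce
      rw [this]
      exact Nat.div_le_self _ _)
  exact h.congr fun t => key t (g t)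

theorem bits_eq (N : ℕ) : ∀ R ≤ N, ((List.range N).flatMap fun i =>
    if R / 2 ^ i = 0 then [] else [decide (R / 2 ^ i % 2 = 1)]) = Nat.bits R := by
  induction N with
  | zero =>
    intro R hR
    have : R = 0 := by omega
    subst this
    simp
  | succ N ih =>
    intro R hR
    rw [List.range_succ_eq_map, List.flatMap_cons, List.flatMap_map]
    have h1 := ih (R / 2) (by omega)
    have h2 : ((List.range N).flatMap fun i => if R / 2 ^ (i.succ) = 0 then [] else
        [decide (R / 2 ^ (i.succ) % 2 = 1)]) = Nat.bits (R / 2) := by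
      rw [← h1]
      congr 1
      funext i
      rw [Nat.div_div_eq_div_mul, Nat.pow_succ, mul_comm]
    rw [h2]
    by_cases h0 : R = 0
    · subst h0; simp
    · have h3 : R / 2 ^ 0 = R := by simp
      rw [h3, if_neg h0]
      rcases Nat.mod_two_eq_zero_or_one R with h | h
      · have h4 : R = 2 * (R / 2) := by omega
        have h5 : R / 2 ≠ 0 := by omega
        conv_rhs => rw [h4, Nat.bit0_bits _ h5]
        simp [h]
      · have h4 : R = 2 * (R / 2) + 1 := by omega
        conv_rhs => rw [h4, Nat.bit1_bits]
        simp [h]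

theorem bits_four_pow (k : ℕ) {R : ℕ} (hR : 0 < R) :
    Nat.bits (4 ^ k * R) = List.replicate (2 * k) false ++ Nat.bits R := by
  induction k with
  | zero => simp
  | succ k ih =>
    have h1 : 0 < 4 ^ k * R := Nat.mul_pos (by positivity) hR
    have e : 4 ^ (k + 1) * R = 2 * (2 * (4 ^ k * R)) := by ring
    rw [e, Nat.bit0_bits _ (by omega), Nat.bit0_bits _ (by omega), ih]
    have e2 : 2 * (k + 1) = 2 * k + 1 + 1 := by ring
    rw [e2, List.replicate_succ, List.replicate_succ]
    rfl

/-- writing the binary digits of a number -/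
theorem Emits.bits (y : Bool → Γ₁) {f : τ → ℕ} (hf : UF Γ₁ f) :
    Emits Γ₁ (fun t => (Nat.bits (f t)).map y) := by
  have h1 : UF Γ₁ (fun p : ℕ × τ => f p.2 / 2 ^ p.1) := hf.weak.half UF.fst
  have h2 : Emits Γ₁ (fun p : ℕ × τ => if f p.2 / 2 ^ p.1 = 0 then [] else
      (if f p.2 / 2 ^ p.1 % 2 = 1 then [y true] else [y false])) :=
    Emits.ite (UP.eq h1 (UF.const 0)) Emits.nil
      (Emits.ite (UP.eq (h1.mod (UF.const 2)) (UF.const 1)) (Emits.sym _) (Emits.sym _))
  refine (Emits.loop h2 hf).congr fun t => ?_
  rw [← bits_eq (f t) (f t) le_rfl, List.map_flatMap]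
  congr 1
  funext i
  split_ifs with k1 k2
  · rfl
  · simp [k2]
  · simp [k2]

/-- writing the binary digits of a number times a power of four -/
theorem Emits.bits4 (y : Bool → Γ₁) {f g : τ → ℕ} (hf : UF Γ₁ f) (hg : UF Γ₁ g)
    (hpos : ∀ t, 0 < f t) : Emits Γ₁ (fun t => (Nat.bits (4 ^ g t * f t)).map y) := by
  have h1 : Emits Γ₁ (fun t => (List.range (2 * g t)).flatMap fun _ => [y false]) :=
    Emits.loop (F := fun _ => [y false]) (Emits.sym _) ((UF.const 2).mul hg)
  refine (h1.append (Emits.bits y hf)).congr fun t => ?_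
  rw [bits_four_pow _ (hpos t), List.map_append, List.map_replicate]
  congr 1
  generalize 2 * g t = n
  induction n with
  | zero => rfl
  | succ n ih => rw [List.range_succ, List.flatMap_append, ih, List.replicate_succ']; simp

/-- the top-level statement: words which can be written are computable by machines of Mathlib -/
theorem Emits.computable {α : Type} [Fintype Γ₀] [Fintype Γ₁] [Nonempty Γ₁]
    {w : List Γ₀ → List Γ₁} (h : Emits Γ₁ w)
    (enc : α → List Γ₁) (f : List Γ₀ → α) (hf : ∀ x, enc (f x) = w x) :
    Nonempty (Turing.TM2ComputableInPolyTime (id : List Γ₀ → List Γ₀) enc f) := by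
  obtain ⟨prog, T, ⟨e, he⟩, hle, hr⟩ := h
  obtain ⟨y₀⟩ := ‹Nonempty Γ₁›
  let outA : Sy Γ₀ Γ₁ → Γ₁ := fun o =>
    match o with
    | some (Sum.inr y) => y
    | _ => y₀
  have hes : ∀ x : List Γ₀, esize x = x.length := by
    intro x
    unfold esize
    show x.length + ∑ i ∈ Finset.range 0, _ = _
    simp
  refine computable_of_run (none : Sy Γ₀ Γ₁) (inS Γ₁) outA (outS Γ₀) (fun _ => rfl) id enc f
    (.seq (moveAll 0 2) (.seq (moveAll 2 3) (.seq (moveAll 3 0) (.seq (prog id 2) (clear 0)))))
    (e + 4) ?_ ?_
  · intro x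
    set R : List (Sy Γ₀ Γ₁) := (x.map (inS Γ₁)).reverse with hR
    have r1 := run_moveAll (r := 0) (s := 2) (by omega) R (update (fun _ => []) 0 R)
      (by rw [update_self])
    have r2 := run_moveAll (r := 2) (s := 3) (by omega) R.reverse
      (update (update (update (fun _ => []) 0 R) 0 []) 2
        (R.reverse ++ update (fun _ => []) 0 R 2)) (by simp)
    have e1 : (update (update (update (fun _ => []) 0 R) 0 []) 2
        (R.reverse ++ update (fun _ => []) 0 R 2)) = update (fun _ => []) 2 R.reverse := by
      funext k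
      simp only [update_apply]
      split_ifs <;> simp_all
    rw [e1] at r1 r2
    have e2 : (update (update (update (fun _ => []) 2 R.reverse) 2 []) 3
        (R.reverse.reverse ++ update (fun _ => []) 2 R.reverse 3)) = update (fun _ => []) 3 R := by
      funext k
      simp only [update_apply]
      split_ifs <;> simp_all
    rw [e2] at r2
    have r3 := run_moveAll (r := 3) (s := 0) (by omega) R (update (fun _ => []) 3 R)
      (by rw [update_self])
    have e3 : (update (update (update (fun _ => []) 3 R) 3 []) 0
        (R.reverse ++ update (fun _ => []) 3 R 0)) = update (fun _ => []) 0 R.reverse := by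
      funext k
      simp only [update_apply]
      split_ifs <;> simp_all
    rw [e3] at r3
    have hH : Holds Γ₁ (update (fun _ => []) 0 R.reverse) x id 2 := by
      constructor
      · rw [update_self, hR, List.reverse_reverse]
        rfl
      · exact le_rfl
      · intro i hi; exact absurd hi (Nat.not_lt_zero _)
      · intro i hi; exact absurd hi (Nat.not_lt_zero _)
      · intro i hi; exact absurd hi (Nat.not_lt_zero _)
      · intro r hr; rw [update_of_ne (by omega)]
    obtain ⟨n, hn, r4⟩ := hr id 2 x _ hH
    have r5 := run_clear (r := 0) R.reverse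
      (update (update (fun _ => []) 0 R.reverse) 1 (((w x).map (outS Γ₀)).reverse ++
        update (fun _ => []) 0 R.reverse 1)) (by rw [update_of_ne (by omega), update_self])
    refine ⟨_, ?_, (Run.seq r1 (Run.seq r2 (Run.seq r3 (Run.seq r4 r5)))).congr ?_⟩
    · have hRl : R.length = x.length := by rw [hR]; simp
      simp only [List.length_reverse, hRl]
      have h1 := hn.trans (he x)
      rw [hes] at h1
      show _ ≤ (x.length + 2) ^ (e + 4)
      have h2 : (x.length + 2) ^ (e + 4) = (x.length + 2) ^ e * (x.length + 2) ^ 4 := by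
        rw [pow_add]
      rw [h2]
      have h3 : 1 ≤ (x.length + 2) ^ e := Nat.one_le_pow _ _ (by omega)
      have h4 : 8 * (x.length + 2) ≤ (x.length + 2) ^ 4 := by
        have : (x.length + 2) ^ 4 = (x.length + 2) ^ 3 * (x.length + 2) := by ring
        rw [this]
        apply Nat.mul_le_mul_right
        calc 8 = 2 ^ 3 := rfl
          _ ≤ (x.length + 2) ^ 3 := Nat.pow_le_pow_left (by omega) 3
      calc 2 * x.length + 1 + (2 * x.length + 1 + (2 * x.length + 1 + (n + (2 * x.length + 1))))
          = 8 * x.length + 4 + n := by ring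
        _ ≤ 8 * x.length + 4 + (x.length + 2) ^ e := by omega
        _ ≤ (x.length + 2) ^ e * (8 * x.length + 4 + 1) := by
          nlinarith
        _ ≤ (x.length + 2) ^ e * (x.length + 2) ^ 4 := Nat.mul_le_mul_left _ (by omega)
    · rw [← hf x]
      funext k
      simp only [update_apply]
      split_ifs <;> simp_all
  · intro x
    rw [hf x]
    have h1 := (hle x).trans (he x)
    rw [hes] at h1
    exact h1.trans (Nat.pow_le_pow_right (by omega) (by omega))

end Pool.Agent.H.MP_84f0af_lc
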