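import Pool.Agent.H.MP_84f0af_lc.Primes
import Pool.Agent.H.MP_84f0af_lc.Core

/-!
Writing the instance attached to a formula.
-/

namespace Pool.Agent.H.MP_84f0af_lc

open Function

/-- code of a number: binary digits (least significant first) followed by a separator -/
def encNum (a : ℕ) : List (Option Bool) := (Nat.bits a).map some ++ [none]

/-- code of a list of numbers -/
def encNums (l : List ℕ) : List (Option Bool) := l.flatMap encNum

theorem encNums_append (l l' : List ℕ) : encNums (l ++ l') = encNums l ++ encNums l' := by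
  simp [encNums]

theorem encNums_map_const {α : Type} (l : List α) (f : α → ℕ) (a : ℕ) (h : ∀ x ∈ l, f x = a) :
    encNums (l.map f) = (List.range l.length).flatMap fun _ => encNum a := by
  unfold encNums
  induction l with
  | nil => rfl
  | cons x l ih =>
    rw [List.map_cons, List.flatMap_cons, ih (fun y hy => h y (List.mem_cons_of_mem _ hy)),
      h x List.mem_cons_self, List.length_cons, List.range_succ_eq_map, List.flatMap_cons,
      List.flatMap_map]

theorem encNums_flatMap {α : Type} (l : List α) (f : α → List ℕ) :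
    encNums (l.flatMap f) = l.flatMap fun x => encNums (f x) := by
  unfold encNums
  rw [List.flatMap_assoc]

variable {Γ₀ τ τ' : Type} [Env τ Γ₀] [Env τ' Γ₀]

theorem Emits.num {f g : τ → ℕ} (hf : UF (Option Bool) f) (hg : UF (Option Bool) g)
    (hpos : ∀ t, 0 < f t) : Emits (Option Bool) (fun t => encNum (4 ^ g t * f t)) :=
  (Emits.bits4 some hf hg hpos).append (Emits.sym none)

theorem Emits.rep {c : τ → ℕ} (hc : UF (Option Bool) c) {f g : τ → ℕ} (hf : UF (Option Bool) f)
    (hg : UF (Option Bool) g) (hpos : ∀ t, 0 < f t) :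
    Emits (Option Bool) (fun t => (List.range (c t)).flatMap fun _ => encNum (4 ^ g t * f t)) :=
  Emits.loop (F := fun p => encNum (4 ^ g p.2 * f p.2))
    (Emits.num hf.weak hg.weak fun p => hpos p.2) hc

/-- product over a set given by three elements -/
theorem prod_three (F : ℕ → ℕ) (a b c : ℕ) : ∏ l ∈ ({a, b, c} : Finset ℕ), F l
    = F a * ((if b = a then 1 else F b) * (if c = a ∨ c = b then 1 else F c)) := by
  by_cases h1 : b = a
  · subst h1
    by_cases h2 : c = b
    · subst h2; simp
    · rw [Finset.insert_eq_of_mem (by simp), Finset.prod_pair (Ne.symm h2)]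
      simp [h2]
  · by_cases h2 : c = a
    · subst h2
      have e : ({c, b, c} : Finset ℕ) = {c, b} := by ext; simp; tauto
      rw [e, Finset.prod_pair (Ne.symm h1)]
      simp [h1]
    · by_cases h3 : c = b
      · subst h3
        have e : ({a, c, c} : Finset ℕ) = {a, c} := by ext; simp
        rw [e, Finset.prod_pair (Ne.symm h1)]
        simp [h1]
      · rw [Finset.prod_insert (by simp; tauto), Finset.prod_pair (Ne.symm h3)]
        simp [h1, h2, h3]

theorem sum_three (F : ℕ → ℕ) (a b c : ℕ) : ∑ l ∈ ({a, b, c} : Finset ℕ), F l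
    = F a + ((if b = a then 0 else F b) + (if c = a ∨ c = b then 0 else F c)) := by
  by_cases h1 : b = a
  · subst h1
    by_cases h2 : c = b
    · subst h2; simp
    · rw [Finset.insert_eq_of_mem (by simp), Finset.sum_pair (Ne.symm h2)]
      simp [h2]
  · by_cases h2 : c = a
    · subst h2
      have e : ({c, b, c} : Finset ℕ) = {c, b} := by ext; simp; tauto
      rw [e, Finset.sum_pair (Ne.symm h1)]
      simp [h1]
    · by_cases h3 : c = b
      · subst h3
        have e : ({a, c, c} : Finset ℕ) = {a, c} := by ext; simp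
        rw [e, Finset.sum_pair (Ne.symm h1)]
        simp [h1]
      · rw [Finset.sum_insert (by simp; tauto), Finset.sum_pair (Ne.symm h3)]
        simp [h1, h2, h3]

variable {Γ₁ : Type}

theorem UF.prod3 {a b c : τ → ℕ} (ha : UF Γ₁ a) (hb : UF Γ₁ b) (hc : UF Γ₁ c) :
    UF Γ₁ (fun t => ∏ l ∈ ({a t, b t, c t} : Finset ℕ), qq l) :=
  ((UF.qqf ha).mul ((UF.ite (UP.eq hb ha) (UF.const 1) (UF.qqf hb)).mul
    (UF.ite ((UP.eq hc ha).or (UP.eq hc hb)) (UF.const 1) (UF.qqf hc)))).congr
    fun t => (prod_three qq (a t) (b t) (c t)).symm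

theorem UF.sum3 {a b c : τ → ℕ} (ha : UF Γ₁ a) (hb : UF Γ₁ b) (hc : UF Γ₁ c) :
    UF Γ₁ (fun t => ∑ l ∈ ({a t, b t, c t} : Finset ℕ),
      ∏ l' ∈ ({a t, b t, c t} : Finset ℕ).erase l, qq l') := by
  have h0 := UF.prod3 ha hb hc
  refine ((h0.div (UF.qqf ha)).add ((UF.ite (UP.eq hb ha) (UF.const 0) (h0.div (UF.qqf hb))).add
    (UF.ite ((UP.eq hc ha).or (UP.eq hc hb)) (UF.const 0) (h0.div (UF.qqf hc))))).congr
    fun t => ?_
  rw [← sum_three (fun l => (∏ l ∈ ({a t, b t, c t} : Finset ℕ), qq l) / qq l)]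
  refine Finset.sum_congr rfl fun l hl => ?_
  rw [← Finset.mul_prod_erase _ _ hl]
  exact Nat.mul_div_cancel_left _ (qq_prime l).pos

/-- formula given by functions -/
noncomputable def mkF (n m : τ → ℕ) (a b c : ℕ × τ → ℕ) (t : τ) : Fml where
  n := n t
  m := m t
  q := qq
  cl := fun j => {a (j, t), b (j, t), c (j, t)}

/-- the instance attached to a formula given by computable functions can be written -/
theorem Emits.periods {n m : τ → ℕ} {a b c : ℕ × τ → ℕ} (hn : UF (Option Bool) n)
    (hm : UF (Option Bool) m) (ha : UF (Option Bool) a) (hb : UF (Option Bool) b)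
    (hc : UF (Option Bool) c) :
    Emits (Option Bool) (fun t => encNums (mkF n m a b c t).periods) := by
  -- variables
  have c0 : ∀ {σ : Type} [Env σ Γ₀] (k : ℕ), UF (Option Bool) (fun _ : σ => k) :=
    fun k => UF.const k
  have h1 : Emits (Option Bool) (fun t : τ => (List.range (n t)).flatMap fun i =>
      ((List.range 2).flatMap fun _ => encNum (4 ^ (2 * i + 1) * 1)) ++
      (encNum (4 ^ (2 * i + 1) * 3) ++
      (((List.range 2).flatMap fun _ => encNum (4 ^ (2 * i + 2) * 1)) ++
      ((List.range 5).flatMap fun _ => encNum (4 ^ (2 * i + 2) * 3))))) := by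
    have g1 : UF (Option Bool) (fun p : ℕ × τ => 2 * p.1 + 1) := ((c0 2).mul UF.fst).succ
    have g2 : UF (Option Bool) (fun p : ℕ × τ => 2 * p.1 + 2) := ((c0 2).mul UF.fst).add (c0 2)
    exact Emits.loop (F := fun p => ((List.range 2).flatMap fun _ => encNum (4 ^ (2 * p.1 + 1) * 1))
      ++ (encNum (4 ^ (2 * p.1 + 1) * 3) ++
      (((List.range 2).flatMap fun _ => encNum (4 ^ (2 * p.1 + 2) * 1)) ++
      ((List.range 5).flatMap fun _ => encNum (4 ^ (2 * p.1 + 2) * 3)))))
      ((Emits.rep (c0 2) (c0 1) g1 fun _ => by omega).append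
        ((Emits.num (c0 3) g1 fun _ => by omega).append
          ((Emits.rep (c0 2) (c0 1) g2 fun _ => by omega).append
            (Emits.rep (c0 5) (c0 3) g2 fun _ => by omega)))) hn
  have h2 : Emits (Option Bool) (fun t : τ => (List.range 4).flatMap fun _ =>
      encNum (4 ^ (2 * n t + 1) * 1)) :=
    Emits.rep (c0 4) (c0 1) ((c0 2).mul hn).succ fun _ => by omega
  have hcnt : UF (Option Bool) (fun p : ℕ × ℕ × τ => (mkF n m a b c p.2.2).cnt p.2.1 p.1) := by
    have vk : UF (Option Bool) (fun p : ℕ × ℕ × τ => p.1) := UF.fst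
    have vl : UF (Option Bool) (fun p : ℕ × ℕ × τ => p.2.1) := UF.snd
    have vn : UF (Option Bool) (fun p : ℕ × ℕ × τ => n p.2.2) := hn.weak.weak
    have vm : UF (Option Bool) (fun p : ℕ × ℕ × τ => m p.2.2) := hm.weak.weak
    have hbse : UF (Option Bool) (fun p : ℕ × ℕ × τ => 2 * (p.2.1 / 2) + 2) :=
      ((c0 2).mul (vl.div (c0 2))).add (c0 2)
    have hj : UF (Option Bool) (fun p : ℕ × ℕ × τ => p.1 - (2 * n p.2.2 + 1)) :=
      vk.sub ((c0 2).mul vn).succ
    have hla : ∀ {w : ℕ × τ → ℕ}, UF (Option Bool) w → UF (Option Bool)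
        (fun p : ℕ × ℕ × τ => w (p.1 - (2 * n p.2.2 + 1), p.2.2)) := by
      intro w hw
      have : UF (Option Bool) (fun p : ℕ × ℕ × ℕ × τ => w (p.1, p.2.2.2)) :=
        hw.rename (Ren.cons IsVar.fst Ren.id.weak.weak.weak)
      exact UF.comp this hj
    have hmem : UP (Option Bool) (fun p : ℕ × ℕ × τ => (mkF n m a b c p.2.2).Mem p.2.1 p.1) := by
      refine ((UP.le ((c0 2).mul vn).succ vk).and ((UP.eq vl (hla ha)).or
        ((UP.eq vl (hla hb)).or (UP.eq vl (hla hc))))).congr fun p => ?_
      unfold Fml.Mem mkF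
      simp only [Finset.mem_insert, Finset.mem_singleton]
    refine (UF.ite (UP.lt vk hbse) (c0 0) (UF.ite (UP.eq vk hbse)
      ((c0 3).mul ((UF.qqf vl).sub (c0 1)))
      (UF.ite (UP.lt vk (((c0 2).mul vn).succ.add vm)) (UF.ite hmem (c0 6) (c0 9))
        (UF.ite (UP.eq vk (((c0 2).mul vn).succ.add vm)) (c0 12) (c0 0))))).congr fun p => ?_
    rfl
  have h3 : Emits (Option Bool) (fun t : τ => (List.range (2 * n t)).flatMap fun l =>
      (List.range (2 * n t + 2 + m t)).flatMap fun k =>
        (List.range ((mkF n m a b c t).cnt l k)).flatMap fun _ => encNum (4 ^ k * (3 * qq l))) := by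
    have e1 : Emits (Option Bool) (fun p : ℕ × ℕ × τ =>
        (List.range ((mkF n m a b c p.2.2).cnt p.2.1 p.1)).flatMap fun _ =>
          encNum (4 ^ p.1 * (3 * qq p.2.1))) :=
      Emits.rep hcnt ((c0 3).mul (UF.qqf UF.snd)) UF.fst fun p => by
        have := qq_gt p.2.1
        omega
    have e2 : Emits (Option Bool) (fun p : ℕ × τ => (List.range (2 * n p.2 + 2 + m p.2)).flatMap
        fun k => (List.range ((mkF n m a b c p.2).cnt p.1 k)).flatMap fun _ =>
          encNum (4 ^ k * (3 * qq p.1))) :=
      Emits.loop e1 ((((c0 2).mul hn.weak).add (c0 2)).add hm.weak)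
    exact Emits.loop e2 ((c0 2).mul hn)
  have h4 : Emits (Option Bool) (fun t : τ => (List.range (m t)).flatMap fun j =>
      ((List.range (3 * (mkF n m a b c t).S j - 3)).flatMap fun _ =>
        encNum (4 ^ (2 * n t + 1 + j) * (3 * (mkF n m a b c t).Q j))) ++
      encNum (4 ^ (2 * n t + 1 + j) * (mkF n m a b c t).Q j)) := by
    have eQ : UF (Option Bool) (fun p : ℕ × τ => (mkF n m a b c p.2).Q p.1) :=
      UF.prod3 ha hb hc
    have eS : UF (Option Bool) (fun p : ℕ × τ => (mkF n m a b c p.2).S p.1) :=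
      UF.sum3 ha hb hc
    have eK : UF (Option Bool) (fun p : ℕ × τ => 2 * n p.2 + 1 + p.1) :=
      ((c0 2).mul hn.weak).succ.add UF.fst
    have pQ : ∀ p : ℕ × τ, 0 < (mkF n m a b c p.2).Q p.1 := fun p =>
      Finset.prod_pos fun l _ => (qq_prime l).pos
    exact Emits.loop (F := fun p => ((List.range (3 * (mkF n m a b c p.2).S p.1 - 3)).flatMap
      fun _ => encNum (4 ^ (2 * n p.2 + 1 + p.1) * (3 * (mkF n m a b c p.2).Q p.1))) ++
      encNum (4 ^ (2 * n p.2 + 1 + p.1) * (mkF n m a b c p.2).Q p.1))
      ((Emits.rep (((c0 3).mul eS).sub (c0 3)) ((c0 3).mul eQ) eK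
        (fun p => by have := pQ p; omega)).append (Emits.num eQ eK pQ)) hm
  refine (h1.append (h2.append (h3.append h4))).congr fun t => ?_
  set F := mkF n m a b c t with hF
  unfold Fml.periods Fml.tiles
  have hnt : F.n = n t := rfl
  have hmt : F.m = m t := rfl
  rw [List.map_append, List.map_append, List.map_append, encNums_append, encNums_append,
    encNums_append]
  refine congrArg₂ (· ++ ·) ?_ (congrArg₂ (· ++ ·) ?_ (congrArg₂ (· ++ ·) ?_ ?_))
  · -- variables
    rw [List.map_flatMap, encNums_flatMap, hnt]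
    congr 1
    funext i
    unfold Fml.varTiles
    rw [List.map_append, List.map_append, List.map_append, encNums_append, encNums_append,
      encNums_append, List.map_map, List.map_map, List.map_map]
    rw [encNums_map_const (List.range 2) (F.modulus ∘ Tile.T (2 * i + 1)) (4 ^ (2 * i + 1) * 1)
      (fun x _ => rfl)]
    rw [encNums_map_const (List.range 2) (F.modulus ∘ Tile.T (2 * i + 2)) (4 ^ (2 * i + 2) * 1)
      (fun x _ => rfl)]
    rw [encNums_map_const (List.range 5) (F.modulus ∘ Tile.Y i) (4 ^ (2 * i + 2) * 3)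
      (fun x _ => by simp only [comp_apply, Fml.modulus, Fml.base, Fml.rest]; ring)]
    rw [List.length_range, List.length_range]
    congr 2
    · simp only [List.map_cons, List.map_nil, encNums, List.flatMap_cons, List.flatMap_nil,
        List.append_nil]
      congr 1
      simp only [Fml.modulus, Fml.base, Fml.rest]
      ring
  · rw [List.map_map, encNums_map_const (List.range 4) (F.modulus ∘ Tile.T (2 * F.n + 1))
      (4 ^ (2 * n t + 1) * 1) (fun x _ => rfl), List.length_range]
  · rw [List.map_flatMap, encNums_flatMap, hnt]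
    congr 1
    funext l
    unfold Fml.litTiles
    rw [List.map_flatMap, encNums_flatMap, hnt, hmt]
    congr 1
    funext k
    rw [List.map_map, encNums_map_const (List.range (F.cnt l k)) (F.modulus ∘ Tile.G l k)
      (4 ^ k * (3 * qq l)) (fun x _ => by
        simp only [comp_apply, Fml.modulus, Fml.base, Fml.rest]
        show 3 * 4 ^ k * qq l = _
        ring), List.length_range]
  · rw [List.map_flatMap, encNums_flatMap, hmt]
    congr 1
    funext j
    unfold Fml.clTiles
    have hne : (F.cl j).Nonempty := ⟨a (j, t), by simp [hF, mkF]⟩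
    rw [if_pos hne, List.map_append, encNums_append, List.map_map,
      encNums_map_const (List.range (3 * F.S j - 3)) (F.modulus ∘ Tile.CF j)
      (4 ^ (2 * n t + 1 + j) * (3 * F.Q j)) (fun x _ => by
        simp only [comp_apply, Fml.modulus, Fml.base, Fml.rest, Fml.K, hnt]
        ring), List.length_range]
    congr 1
    simp only [List.map_cons, List.map_nil, encNums, List.flatMap_cons, List.flatMap_nil,
      List.append_nil]
    congr 1

end Pool.Agent.H.MP_84f0af_lc
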