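import Pool.Agent.H.MP_84f0af_lc.CookLevin

/-!
The pinwheel scheduling problem is NP-hard, even for instances of density exactly one.
-/

namespace Pool.Agent.H.MP_84f0af_lc.PinwheelNPHard

open Pool.Agent.H.MP_84f0af_lc Turing

/-- Every language `L` in NP (over a finite alphabet) reduces to the pinwheel scheduling problem,
with periods written in binary, by a many-one reduction `f` computable in polynomial time;
moreover all the instances `f x` have density exactly one. -/
theorem result {Γ : Type} [Fintype Γ] (L : Set (List Γ)) (hL : InNP L) :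
    ∃ f : List Γ → PinInst,
      Nonempty (TM2ComputableInPolyTime (id : List Γ → List Γ) PinInst.encode f) ∧
      ∀ x, (f x).density = 1 ∧ (x ∈ L ↔ (f x).Schedulable) := by
  obtain ⟨n, m, ks, hn, hm, hn1, hsat⟩ := np_families hL (Option Bool)
  have hgood : ∀ x, (famF n m ks x).Good := fun x => good_famF hn1 ks x
  let f : List Γ → PinInst := fun x => ⟨(famF n m ks x).periods, by
    refine ⟨?_, ?_⟩
    · intro h0
      have h1 : Tile.T (2 * (famF n m ks x).n + 1) 0 ∈ (famF n m ks x).tiles :=
        (Fml.mem_T _).2 (Or.inr ⟨rfl, by omega⟩)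
      have h2 : (famF n m ks x).modulus (Tile.T (2 * (famF n m ks x).n + 1) 0)
          ∈ (famF n m ks x).periods := List.mem_map_of_mem h1
      rw [h0] at h2
      exact absurd h2 List.not_mem_nil
    · intro a ha
      obtain ⟨t, ht, rfl⟩ := List.mem_map.1 ha
      exact Fml.modulus_pos (hgood x) ht⟩
  refine ⟨f, (emits_famF hn hm ks).computable PinInst.encode f fun x => rfl, fun x => ⟨?_, ?_⟩⟩
  · have h := Fml.density (hgood x)
    show (((famF n m ks x).tiles.map (famF n m ks x).modulus).map fun a : ℕ => (1 : ℚ) / (a : ℚ)).sum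
      = 1
    rw [List.map_map]
    exact h
  · rw [hsat x, ← Fml.schedulable_iff_sat (hgood x)]
    constructor
    · rintro ⟨s, hs⟩
      refine ⟨fun j => s (j - 1), fun i t => ?_⟩
      obtain ⟨j, hj, hj'⟩ := hs i t
      refine ⟨t + 1 + j, by omega, ?_, ?_⟩
      · have : t + 1 + j ≤ t + (famF n m ks x).periods.get i := by omega
        exact this
      · have e : t + 1 + j - 1 = t + j := by omega
        show s (t + 1 + j - 1) = i
        rw [e]
        exact hj'
    · rintro ⟨s, hs⟩
      refine ⟨fun j => s (j + 1), fun i t => ?_⟩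
      obtain ⟨j, hj1, hj2, hj3⟩ := hs i t
      have hj2' : j ≤ t + (famF n m ks x).periods.get i := hj2
      refine ⟨j - (t + 1), by omega, ?_⟩
      have e : t + (j - (t + 1)) + 1 = j := by omega
      show s (t + (j - (t + 1)) + 1) = i
      rw [e]
      exact hj3

end Pool.Agent.H.MP_84f0af_lc.PinwheelNPHard
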