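import Pool.Agent.H.MP_84f0af_lc.Emit

/-!
Primes: a polynomial bound for the primes and their computation.
-/

namespace Pool.Agent.H.MP_84f0af_lc

open Function

/-- the number of primes up to `16 * (M + 1) ^ 2` is larger than `M` -/
theorem lt_primeCounting (M : ℕ) : M < Nat.primeCounting (16 * (M + 1) ^ 2) := by
  by_contra hcon
  push Not at hcon
  set s := M + 1 with hs
  set N := 16 * s ^ 2 with hN
  have h1 : 2 ^ N ≤ (N + 1) * Nat.lcmUpto N := Chebyshev.two_pow_le_mul_lcmUpto N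
  have hN0 : N ≠ 0 := by rw [hN]; positivity
  have h2 : Nat.lcmUpto N ≤ N ^ M := by
    rw [Nat.lcmUpto_eq_prod_pow_log]
    calc ∏ p ∈ Nat.primesLE N, p ^ p.log N ≤ ∏ _p ∈ Nat.primesLE N, N :=
          Finset.prod_le_prod' fun p _ => Nat.pow_log_le_self p hN0
      _ = N ^ (Nat.primesLE N).card := by rw [Finset.prod_const]
      _ ≤ N ^ M := Nat.pow_le_pow_right (by omega) (by
          rw [Nat.primesLE_card_eq_primeCounting]; exact hcon)
  have h3 : 2 ^ N ≤ (N + 1) ^ s := by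
    calc 2 ^ N ≤ (N + 1) * N ^ M := h1.trans (Nat.mul_le_mul_left _ h2)
      _ ≤ (N + 1) * (N + 1) ^ M := Nat.mul_le_mul_left _ (Nat.pow_le_pow_left (by omega) _)
      _ = (N + 1) ^ s := by rw [hs, pow_succ, mul_comm]
  have h4 : N + 1 ≤ 2 ^ (7 * s) := by
    have e1 : s ≤ 2 ^ s := (Nat.lt_two_pow_self).le
    have e2 : s ^ 2 ≤ (2 ^ s) ^ 2 := Nat.pow_le_pow_left e1 2
    have e3 : 1 ≤ (2 ^ s) ^ 2 := Nat.one_le_pow _ _ (by positivity)
    calc N + 1 ≤ 16 * (2 ^ s) ^ 2 + (2 ^ s) ^ 2 := by rw [hN]; omega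
      _ ≤ 2 ^ 5 * (2 ^ s) ^ 2 := by omega
      _ = 2 ^ (s * 2 + 5) := by rw [← pow_mul, ← pow_add, add_comm]
      _ ≤ 2 ^ (7 * s) := Nat.pow_le_pow_right (by omega) (by omega)
  have h5 : (N + 1) ^ s ≤ 2 ^ (7 * s * s) := by
    calc (N + 1) ^ s ≤ (2 ^ (7 * s)) ^ s := Nat.pow_le_pow_left h4 s
      _ = 2 ^ (7 * s * s) := by rw [← pow_mul]
  have h6 : 7 * s * s < N := by
    have : 0 < s ^ 2 := by positivity
    rw [hN]
    nlinarith
  have h7 : 2 ^ (7 * s * s) < 2 ^ N := Nat.pow_lt_pow_right (by omega) h6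
  omega

theorem nth_prime_le (M : ℕ) : Nat.nth Nat.Prime M ≤ 16 * (M + 1) ^ 2 := by
  have h := lt_primeCounting M
  rw [Nat.primeCounting, Nat.primeCounting'] at h
  have := Nat.nth_lt_of_lt_count h
  omega

variable {Γ₀ Γ₁ τ τ' : Type} [Env τ Γ₀] [Env τ' Γ₀]

theorem UP.prime {f : τ → ℕ} (hf : UF Γ₁ f) : UP Γ₁ (fun t => (f t).Prime) := by
  have h1 : UP Γ₁ (fun p : ℕ × τ => p.1 ∣ f p.2 → p.1 = 1) :=
    (UP.dvd UF.fst hf.weak).imp (UP.eq UF.fst (UF.const 1))
  exact ((UP.le (UF.const 2) hf).and (h1.all hf)).congr fun t => Nat.prime_def_lt.symm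

theorem UF.countPrime {f : τ → ℕ} (hf : UF Γ₁ f) :
    UF Γ₁ (fun t => Nat.count Nat.Prime (f t)) := by
  have h1 : UF Γ₁ (fun p : ℕ × τ => if p.1.Prime then 1 else 0) :=
    UF.ite (UP.prime UF.fst) (UF.const 1) (UF.const 0)
  refine (UF.sum h1 hf).congr fun t => ?_
  rw [Nat.count_eq_card_filter_range, Finset.card_filter]

/-- the sequence of the primes -/
theorem UF.nthPrime {f : τ → ℕ} (hf : UF Γ₁ f) : UF Γ₁ (fun t => Nat.nth Nat.Prime (f t)) := by
  have h1 : UF Γ₁ (fun p : ℕ × τ => if p.1.Prime ∧ Nat.count Nat.Prime p.1 = f p.2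
      then p.1 else 0) :=
    UF.ite ((UP.prime UF.fst).and (UP.eq (UF.countPrime UF.fst) hf.weak)) UF.fst (UF.const 0)
  have h2 : UF Γ₁ (fun t => 16 * ((f t + 1) * (f t + 1)) + 1) :=
    ((UF.const 16).mul (hf.succ.mul hf.succ)).succ
  refine (UF.sum h1 h2).congr fun t => ?_
  have hinf := Nat.infinite_setOfPred_prime
  have hp : (Nat.nth Nat.Prime (f t)).Prime := Nat.nth_mem_of_infinite hinf _
  rw [Finset.sum_eq_single (Nat.nth Nat.Prime (f t))]
  · rw [if_pos ⟨hp, Nat.count_nth_of_infinite hinf _⟩]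
  · intro b _ hb
    rw [if_neg]
    rintro ⟨h3, h4⟩
    apply hb
    show b = _
    rw [← h4, Nat.nth_count h3]
  · intro hn
    exfalso
    apply hn
    rw [Finset.mem_range]
    have := nth_prime_le (f t)
    nlinarith

/-- the numbers attached to the literals -/
noncomputable def qq (l : ℕ) : ℕ := Nat.nth Nat.Prime (l + 2)

theorem UF.qqf {f : τ → ℕ} (hf : UF Γ₁ f) : UF Γ₁ (fun t => qq (f t)) :=
  UF.nthPrime (f := fun t => f t + 2) (hf.add (UF.const 2))

theorem qq_prime (l : ℕ) : (qq l).Prime := Nat.nth_mem_of_infinite Nat.infinite_setOfPred_prime _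

theorem qq_gt (l : ℕ) : 3 < qq l := by
  have h0 : Nat.nth Nat.Prime 1 = 3 := by
    have := Nat.nth_count (p := Nat.Prime) (n := 3) (by norm_num)
    have h : Nat.count Nat.Prime 3 = 1 := by decide
    rwa [h] at this
  rw [← h0]
  exact Nat.nth_strictMono Nat.infinite_setOfPred_prime (by omega)

theorem qq_coprime {l l' : ℕ} (h : l ≠ l') : Nat.Coprime (qq l) (qq l') := by
  rw [Nat.coprime_primes (qq_prime l) (qq_prime l')]
  intro h1
  have := (Nat.nth_strictMono Nat.infinite_setOfPred_prime).injective h1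
  omega

theorem qq_coprime_two (l : ℕ) : Nat.Coprime (qq l) 2 := by
  rw [Nat.coprime_primes (qq_prime l) Nat.prime_two]
  have := qq_gt l
  omega

theorem qq_coprime_three (l : ℕ) : Nat.Coprime (qq l) 3 := by
  rw [Nat.coprime_primes (qq_prime l) Nat.prime_three]
  have := qq_gt l
  omega

end Pool.Agent.H.MP_84f0af_lc
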