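import Mathlib

/-!
Pinwheel schedules: the exact case (density one) and residue classes.
-/

namespace Pool.Agent.H.MP_84f0af_lc

/-- The list `b` of periods is schedulable: there is an infinite sequence of symbols
(positions of the list) such that each block of `b i` consecutive terms contains `i`. -/
def Schedulable (b : List ℕ) : Prop :=
  ∃ s : ℕ → Fin b.length, ∀ (i : Fin b.length) (t : ℕ), ∃ j < b.get i, s (t + j) = i

/-- The same notion for a family of periods. -/
def SchedF {ι : Type*} (b : ι → ℕ) : Prop :=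
  ∃ s : ℕ → ι, ∀ (i : ι) (t : ℕ), ∃ j < b i, s (t + j) = i

section basic
variable {ι : Type*} [DecidableEq ι]

theorem count_ge {b : ι → ℕ} {s : ℕ → ι} (hs : ∀ (i : ι) (t : ℕ), ∃ j < b i, s (t + j) = i)
    (i : ι) (n : ℕ) : ∀ t : ℕ, n ≤ Nat.count (fun x => s (t + x) = i) (n * b i) := by
  induction n with
  | zero => intro t; simp
  | succ n ih =>
    intro t
    have h1 : 1 ≤ Nat.count (fun x => s (t + x) = i) (b i) := by
      obtain ⟨j, hj, hj'⟩ := hs i t
      have : 0 < Nat.count (fun x => s (t + x) = i) (j + 1) := by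
        rw [Nat.count_succ, if_pos hj']; omega
      exact lt_of_lt_of_le this (Nat.count_monotone _ hj)
    have h2 := ih (t + b i)
    have : (n + 1) * b i = b i + n * b i := by ring
    rw [this, Nat.count_add]
    have h3 : Nat.count (fun k => s (t + (b i + k)) = i) (n * b i)
        = Nat.count (fun x => s (t + b i + x) = i) (n * b i) := by
      simp only [add_assoc]
    rw [h3]
    omega

theorem sum_count [Fintype ι] (s : ℕ → ι) (N : ℕ) :
    ∑ i, Nat.count (fun x => s x = i) N = N := by
  induction N with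
  | zero => simp
  | succ N ih =>
    simp only [Nat.count_succ, Finset.sum_add_distrib, ih]
    simp

/-- In a schedule of a density-one instance two occurrences of `i` are at distance at least
`b i`. -/
theorem no_close [Fintype ι] {b : ι → ℕ} (hb : ∀ i, 0 < b i)
    (hd : ∑ i, (1 : ℚ) / b i = 1) {s : ℕ → ι}
    (hs : ∀ (i : ι) (t : ℕ), ∃ j < b i, s (t + j) = i) {x y : ℕ} (hxy : x < y)
    (h : s x = s y) : s x = s y → x + b (s x) ≤ y := by
  intro _
  by_contra hlt
  push Not at hlt
  set i := s x with hi
  set L := ∏ k, b k with hL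
  have hLpos : 0 < L := Finset.prod_pos fun k _ => hb k
  have hdvd : ∀ k, b k ∣ L := fun k => Finset.dvd_prod_of_mem _ (Finset.mem_univ k)
  -- counts in the window of length `L` starting at `x`
  have hcnt : ∀ k, L / b k ≤ Nat.count (fun z => s (x + z) = k) L := by
    intro k
    have := count_ge hs k (L / b k) x
    rwa [Nat.div_mul_cancel (hdvd k)] at this
  have hcnt' : L / b i + 1 ≤ Nat.count (fun z => s (x + z) = i) L := by
    obtain ⟨m, hm⟩ := hdvd i
    have hm0 : 0 < m := by
      rcases Nat.eq_zero_or_pos m with h0 | h0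
      · rw [h0] at hm; omega
      · exact h0
    have hdiv : L / b i = m := by rw [hm]; exact Nat.mul_div_cancel_left m (hb i)
    obtain ⟨m', rfl⟩ : ∃ m', m = m' + 1 := ⟨m - 1, by omega⟩
    have hLe : L = b i + m' * b i := by rw [hm]; ring
    rw [hdiv, hLe, Nat.count_add]
    have h2 : 2 ≤ Nat.count (fun z => s (x + z) = i) (b i) := by
      obtain ⟨d, rfl⟩ : ∃ d, y = x + d := ⟨y - x, by omega⟩
      have hd0 : 0 < d := by omega
      have e1 : Nat.count (fun z => s (x + z) = i) 1 = 1 := by
        simp [Nat.count_succ, ← hi]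
      have e2 : Nat.count (fun z => s (x + z) = i) d + 1
          = Nat.count (fun z => s (x + z) = i) (d + 1) := by
        rw [Nat.count_succ, if_pos h.symm]
      have e3 : 1 ≤ Nat.count (fun z => s (x + z) = i) d := by
        rw [← e1]; exact Nat.count_monotone _ hd0
      have e4 : Nat.count (fun z => s (x + z) = i) (d + 1)
          ≤ Nat.count (fun z => s (x + z) = i) (b i) := Nat.count_monotone _ (by omega)
      omega
    have h3 := count_ge hs i m' (x + b i)
    simp only [add_assoc] at h3
    omega
  have hsum := sum_count (fun z => s (x + z)) L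
  have hlt' : ∑ k, L / b k < L := by
    calc ∑ k, L / b k < ∑ k, Nat.count (fun z => s (x + z) = k) L :=
          Finset.sum_lt_sum (fun k _ => hcnt k) ⟨i, Finset.mem_univ i, hcnt'⟩
      _ = L := hsum
  have hq : ((∑ k, L / b k : ℕ) : ℚ) = L := by
    push_cast
    have : ∀ k, ((L / b k : ℕ) : ℚ) = (L : ℚ) * (1 / b k) := by
      intro k
      rw [Nat.cast_div (hdvd k) (by exact_mod_cast (hb k).ne')]
      ring
    simp only [this, ← Finset.mul_sum, hd, mul_one]
  have : (∑ k, L / b k : ℕ) = L := by exact_mod_cast hq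
  omega

theorem sched_step [Fintype ι] {b : ι → ℕ} (hb : ∀ i, 0 < b i)
    (hd : ∑ i, (1 : ℚ) / b i = 1) {s : ℕ → ι}
    (hs : ∀ (i : ι) (t : ℕ), ∃ j < b i, s (t + j) = i) (i : ι) (x : ℕ) :
    s (x + b i) = i ↔ s x = i := by
  constructor
  · intro h
    obtain ⟨j, hj, hj'⟩ := hs i x
    rcases Nat.eq_zero_or_pos j with h0 | h0
    · simpa [h0] using hj'
    · have := no_close hb hd hs (x := x + j) (y := x + b i) (by omega) (by rw [hj', h])
        (by rw [hj', h])
      rw [hj'] at this
      omega
  · intro h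
    obtain ⟨j, hj, hj'⟩ := hs i (x + 1)
    have := no_close hb hd hs (x := x) (y := x + 1 + j) (by omega) (by rw [hj', h])
      (by rw [hj', h])
    rw [h] at this
    have e : x + 1 + j = x + b i := by omega
    rw [← e, hj']

theorem sched_step_mul [Fintype ι] {b : ι → ℕ} (hb : ∀ i, 0 < b i)
    (hd : ∑ i, (1 : ℚ) / b i = 1) {s : ℕ → ι}
    (hs : ∀ (i : ι) (t : ℕ), ∃ j < b i, s (t + j) = i) (i : ι) (x n : ℕ) :
    s (x + n * b i) = i ↔ s x = i := by
  induction n with
  | zero => simp
  | succ n ih =>
    have : x + (n + 1) * b i = (x + n * b i) + b i := by ring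
    rw [this, sched_step hb hd hs, ih]

/-- In a schedule of a density-one instance, the occurrences of each symbol form a residue
class. -/
theorem sched_exact [Fintype ι] {b : ι → ℕ} (hb : ∀ i, 0 < b i)
    (hd : ∑ i, (1 : ℚ) / b i = 1) {s : ℕ → ι}
    (hs : ∀ (i : ι) (t : ℕ), ∃ j < b i, s (t + j) = i) (x y : ℕ) :
    s y = s x ↔ y ≡ x [MOD b (s x)] := by
  have key : ∀ x y : ℕ, x ≤ y → (s y = s x ↔ y ≡ x [MOD b (s x)]) := by
    intro x y hxy
    constructor
    · intro h
      set i := s x with hi
      set n := (y - x) / b i with hn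
      have h1 : s (x + n * b i) = i := (sched_step_mul hb hd hs i x n).2 hi.symm
      have h2 : n * b i ≤ y - x := Nat.div_mul_le_self _ _
      have h3 : y - x < (n + 1) * b i := by
        have := Nat.lt_div_mul_add (a := y - x) (hb i)
        rw [add_mul, one_mul]; exact this
      by_cases h4 : x + n * b i = y
      · rw [← h4]
        have : x + n * b i ≡ x + 0 [MOD b i] := Nat.ModEq.add_left x (by
          simp [Nat.ModEq])
        simpa using this
      · exfalso
        have := no_close hb hd hs (x := x + n * b i) (y := y) (by omega) (by rw [h1, h])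
          (by rw [h1, h])
        rw [h1] at this
        rw [add_mul, one_mul] at h3
        omega
    · intro h
      obtain ⟨n, hn⟩ := (Nat.modEq_iff_dvd' hxy).1 h.symm
      have : y = x + n * b (s x) := by rw [mul_comm] at hn; omega
      rw [this]
      exact (sched_step_mul hb hd hs (s x) x n).2 rfl
  rcases le_total x y with h | h
  · exact key x y h
  · constructor
    · intro h'
      have := (key y x h).1 h'.symm
      rw [h'] at this
      exact this.symm
    · intro h'
      -- go up from `y` to `x`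
      obtain ⟨n, hn⟩ := (Nat.modEq_iff_dvd' h).1 h'
      have e : x = y + n * b (s x) := by rw [mul_comm] at hn; omega
      have : s (y + n * b (s x)) = s x := by rw [← e]
      exact (sched_step_mul hb hd hs (s x) y n).1 this

/-- Two symbols whose classes contain points that agree modulo the gcd of the periods are
equal. -/
theorem sched_key [Fintype ι] {b : ι → ℕ} (hb : ∀ i, 0 < b i)
    (hd : ∑ i, (1 : ℚ) / b i = 1) {s : ℕ → ι}
    (hs : ∀ (i : ι) (t : ℕ), ∃ j < b i, s (t + j) = i) {u v : ι} {y z : ℕ}
    (hu : s y = u) (hv : s z = v) (h : y ≡ z [MOD Nat.gcd (b u) (b v)]) : u = v := by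
  obtain ⟨x, hx1, hx2⟩ := Nat.chineseRemainder' h
  have h1 : s x = s y := (sched_exact hb hd hs y x).2 (by rw [hu]; exact hx1)
  have h2 : s x = s z := (sched_exact hb hd hs z x).2 (by rw [hv]; exact hx2)
  rw [← hu, ← hv, ← h1, ← h2]

end basic

/-- Pairwise disjoint residue classes give a schedule. -/
theorem schedF_of_classes {ι : Type*} [Nonempty ι] {b : ι → ℕ} (hb : ∀ i, 0 < b i) (r : ι → ℕ)
    (hr : ∀ i j x, x ≡ r i [MOD b i] → x ≡ r j [MOD b j] → i = j) : SchedF b := by
  classical
  refine ⟨fun x => if h : ∃ i, x ≡ r i [MOD b i] then h.choose else Classical.arbitrary ι, ?_⟩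
  intro i t
  -- the residue to be hit in the block
  obtain ⟨j, hj, hj'⟩ : ∃ j < b i, t + j ≡ r i [MOD b i] := by
    refine ⟨(r i + (b i - t % b i)) % b i, Nat.mod_lt _ (hb i), ?_⟩
    unfold Nat.ModEq
    rw [Nat.add_mod_mod]
    have hlt : t % b i < b i := Nat.mod_lt _ (hb i)
    have h1 : b i * (t / b i) + t % b i = t := Nat.div_add_mod t (b i)
    have : t + (r i + (b i - t % b i)) = r i + b i * (t / b i + 1) := by
      rw [mul_add, mul_one]; omega
    rw [this, Nat.add_mul_mod_self_left]
  refine ⟨j, hj, ?_⟩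
  have hex : ∃ i, t + j ≡ r i [MOD b i] := ⟨i, hj'⟩
  simp only [dif_pos hex]
  exact hr _ _ (t + j) hex.choose_spec hj'

theorem schedF_congr {ι κ : Type*} (e : ι ≃ κ) {b : ι → ℕ} {c : κ → ℕ}
    (h : ∀ i, c (e i) = b i) : SchedF b ↔ SchedF c := by
  constructor
  · rintro ⟨s, hs⟩
    refine ⟨fun x => e (s x), fun k t => ?_⟩
    obtain ⟨j, hj, hj'⟩ := hs (e.symm k) t
    refine ⟨j, ?_, ?_⟩
    · rw [← h, e.apply_symm_apply] at hj; exact hj
    · simp only [hj', e.apply_symm_apply]
  · rintro ⟨s, hs⟩
    refine ⟨fun x => e.symm (s x), fun i t => ?_⟩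
    obtain ⟨j, hj, hj'⟩ := hs (e i) t
    refine ⟨j, ?_, ?_⟩
    · rw [h] at hj; exact hj
    · simp only [hj', e.symm_apply_apply]

/-- The list form and the family form, for a list without repetitions of descriptors. -/
theorem schedulable_map_iff {D : Type*} [DecidableEq D] (L : List D) (hL : L.Nodup) (f : D → ℕ) :
    Schedulable (L.map f) ↔ SchedF (fun d : {d // d ∈ L} => f d.1) := by
  have e1 : Schedulable (L.map f) ↔ SchedF (fun i : Fin (L.map f).length => (L.map f).get i) :=
    Iff.rfl
  rw [e1]
  refine schedF_congr ((finCongr (by simp)).trans (List.Nodup.getEquiv L hL)) ?_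
  intro i
  simp

end Pool.Agent.H.MP_84f0af_lc
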