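import Pool.Agent.H.MP_84f0af_lc.Tiles

/-!
Soundness: a placement of the tiles gives a satisfying assignment.
-/

namespace Pool.Agent.H.MP_84f0af_lc

theorem cop3 (k : ℕ) : Nat.Coprime 3 (4 ^ k) := by
  apply Nat.Coprime.pow_right
  decide

theorem modEq_three_mul {x y k : ℕ} :
    x ≡ y [MOD 3 * 4 ^ k] ↔ x ≡ y [MOD 3] ∧ x ≡ y [MOD 4 ^ k] :=
  (Nat.modEq_and_modEq_iff_modEq_mul (cop3 k)).symm

theorem crt3 (a b k : ℕ) : ∃ y, y ≡ a [MOD 3] ∧ y ≡ b [MOD 4 ^ k] :=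
  ⟨(Nat.chineseRemainder (cop3 k) a b).1, (Nat.chineseRemainder (cop3 k) a b).2⟩

theorem modEq_succ {x y k : ℕ} (h : x % 4 ^ k = y % 4 ^ k) :
    x ≡ y [MOD 4 ^ (k + 1)] ↔ x / 4 ^ k % 4 = y / 4 ^ k % 4 := by
  unfold Nat.ModEq
  rw [Nat.mod_pow_succ, Nat.mod_pow_succ, h]
  have : 0 < 4 ^ k := by positivity
  constructor
  · intro h'
    exact Nat.eq_of_mul_eq_mul_left this (by omega)
  · intro h'; rw [h']

theorem modEq_of_le {x y k k' : ℕ} (hk : k ≤ k') (h : x ≡ y [MOD 4 ^ k']) :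
    x ≡ y [MOD 4 ^ k] := h.of_dvd (pow_dvd_pow 4 hk)

namespace Fml
variable {F : Fml}

theorem Good.q_cop_base (hF : F.Good) {l : ℕ} (hl : l < 2 * F.n) (k : ℕ) :
    Nat.Coprime (F.q l) (3 * 4 ^ k) := by
  refine Nat.Coprime.mul_right (hF.q_three l hl) (Nat.Coprime.pow_right _ ?_)
  exact Nat.Coprime.mul_right (hF.q_two l hl) (hF.q_two l hl)

theorem Good.Q_cop_base (hF : F.Good) {j : ℕ} (hj : j < F.m) (k : ℕ) :
    Nat.Coprime (F.Q j) (3 * 4 ^ k) :=
  Nat.Coprime.prod_left fun l hl => hF.q_cop_base (hF.cl_lt j hj l hl) k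

theorem Good.rest_cop (hF : F.Good) {u : Tile} (hu : u ∈ F.tiles) (k : ℕ) :
    Nat.Coprime (F.rest u) (3 * 4 ^ k) := by
  cases u with
  | T _ _ => exact Nat.coprime_one_left _
  | P _ => exact Nat.coprime_one_left _
  | Y _ _ => exact Nat.coprime_one_left _
  | G l _ _ => exact hF.q_cop_base (F.mem_G.1 hu).1 k
  | CF j _ => exact hF.Q_cop_base (F.mem_CF.1 hu).1 k
  | CT j => exact hF.Q_cop_base (F.mem_CT.1 hu).1 k

theorem base_dvd (F : Fml) (u : Tile) : ∃ k, F.base u ∣ 3 * 4 ^ k := by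
  cases u with
  | T k _ => exact ⟨k, Dvd.intro_left _ rfl⟩
  | P i => exact ⟨_, dvd_rfl⟩
  | Y i _ => exact ⟨_, dvd_rfl⟩
  | G _ k _ => exact ⟨_, dvd_rfl⟩
  | CF j _ => exact ⟨_, dvd_rfl⟩
  | CT j => exact ⟨F.K j, Dvd.intro_left _ rfl⟩

theorem Good.rest_cop_base (hF : F.Good) {u : Tile} (hu : u ∈ F.tiles) (v : Tile) :
    Nat.Coprime (F.rest u) (F.base v) := by
  obtain ⟨k, hk⟩ := F.base_dvd v
  exact (hF.rest_cop hu k).coprime_dvd_right hk

theorem modulus_G (F : Fml) (l k d : ℕ) : F.modulus (.G l k d) = 3 * 4 ^ k * F.q l := rfl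

/-- tiles are placed (by representatives `r`) without overlap -/
def Placed (F : Fml) (r : Tile → ℕ) : Prop :=
  ∀ u ∈ F.tiles, ∀ v ∈ F.tiles, r u ≡ r v [MOD Nat.gcd (F.modulus u) (F.modulus v)] → u = v

theorem meet_eq (hF : F.Good) {r : Tile → ℕ} (H : F.Placed r) {u v : Tile} (hu : u ∈ F.tiles)
    (hv : v ∈ F.tiles) (hc : Nat.Coprime (F.rest u) (F.rest v)) {y : ℕ}
    (h1 : y ≡ r u [MOD F.base u]) (h2 : y ≡ r v [MOD F.base v]) : u = v := by
  apply H u hu v hv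
  have e : Nat.gcd (F.modulus u) (F.modulus v) = Nat.gcd (F.base u) (F.base v) := by
    unfold modulus
    have c1 : Nat.Coprime (F.rest u) (F.base v * F.rest v) :=
      Nat.Coprime.mul_right (hF.rest_cop_base hu v) hc
    rw [Nat.Coprime.gcd_mul_right_cancel _ c1]
    exact Nat.Coprime.gcd_mul_right_cancel_right _ (hF.rest_cop_base hv u)
  rw [e]
  exact (h1.symm.of_dvd (Nat.gcd_dvd_left _ _)).trans (h2.of_dvd (Nat.gcd_dvd_right _ _))

/-- fill tiles of variable `i` -/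
def FT (i : ℕ) (v : Tile) : Prop :=
  (∃ d < 2, v = .T (2 * i + 1) d) ∨ v = .P i ∨ (∃ d < 2, v = .T (2 * i + 2) d) ∨
    (∃ d < 5, v = .Y i d)

/-- cell tiles of the literals of variable `i` -/
def GT (F : Fml) (i : ℕ) (v : Tile) : Prop :=
  ∃ l, l / 2 = i ∧ ∃ d < 3 * (F.q l - 1), v = .G l (2 * i + 2) d

theorem FT.mem {i : ℕ} (hi : i < F.n) {v : Tile} (h : FT i v) : v ∈ F.tiles := by
  rcases h with ⟨d, hd, rfl⟩ | rfl | ⟨d, hd, rfl⟩ | ⟨d, hd, rfl⟩
  · exact F.mem_T.2 (Or.inl ⟨i, hi, Or.inl rfl, hd⟩)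
  · exact F.mem_P.2 hi
  · exact F.mem_T.2 (Or.inl ⟨i, hi, Or.inr rfl, hd⟩)
  · exact F.mem_Y.2 ⟨hi, hd⟩

theorem FT.rest {i : ℕ} {v : Tile} (h : FT i v) : F.rest v = 1 := by
  rcases h with ⟨d, hd, rfl⟩ | rfl | ⟨d, hd, rfl⟩ | ⟨d, hd, rfl⟩ <;> rfl

theorem GT.mem {i : ℕ} (hi : i < F.n) {v : Tile} (h : F.GT i v) : v ∈ F.tiles := by
  obtain ⟨l, hl, d, hd, rfl⟩ := h
  refine F.mem_G.2 ⟨by omega, by omega, ?_⟩
  unfold cnt
  rw [if_neg (by omega), if_pos (by omega)]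
  exact hd

def Blocked (F : Fml) (r : Tile → ℕ) (i y : ℕ) : Prop :=
  ∃ i' < i, ∃ v, (FT i' v ∨ F.GT i' v) ∧ y ≡ r v [MOD F.base v]

theorem not_blocked_fill (hF : F.Good) {r : Tile → ℕ} (H : F.Placed r) {i : ℕ} (hi : i ≤ F.n)
    {u : Tile} (hu : u ∈ F.tiles) (hu1 : F.rest u = 1) (hu2 : ∀ i' < i, ¬ FT i' u)
    {y : ℕ} (hy : y ≡ r u [MOD F.base u]) : ¬ F.Blocked r i y := by
  rintro ⟨i', hi', v, hv, hv'⟩
  have hvm : v ∈ F.tiles := by
    rcases hv with hv | hv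
    · exact hv.mem (by omega)
    · exact hv.mem (by omega)
  have e := meet_eq hF H hu hvm (by rw [hu1]; exact Nat.coprime_one_left _) hy hv'
  subst e
  rcases hv with hv | hv
  · exact hu2 i' hi' hv
  · obtain ⟨l, hl, d, hd, rfl⟩ := hv
    have : F.q l = 1 := hu1
    have := hF.q_gt l (by omega)
    omega

theorem not_blocked_lit (hF : F.Good) {r : Tile → ℕ} (H : F.Placed r) {i : ℕ} (hi : i < F.n)
    {u : Tile} (hu : F.GT i u) {y : ℕ} (hy : y ≡ r u [MOD F.base u]) : ¬ F.Blocked r i y := by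
  rintro ⟨i', hi', v, hv, hv'⟩
  have hum := hu.mem hi
  obtain ⟨l, hl, d, hd, rfl⟩ := hu
  rcases hv with hv | hv
  · have e := meet_eq hF H hum (hv.mem (by omega))
      (by rw [hv.rest]; exact Nat.coprime_one_right _) hy hv'
    rcases hv with ⟨d, hd, h⟩ | h | ⟨d, hd, h⟩ | ⟨d, hd, h⟩ <;> rw [← e] at h <;> cases h
  · have hvm := hv.mem (F := F) (show i' < F.n by omega)
    obtain ⟨l', hl', d', hd', rfl⟩ := hv
    have e := meet_eq hF H hum hvm
      (hF.q_cop l (by omega) l' (by omega) (by omega)) hy hv'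
    simp only [Tile.G.injEq] at e
    omega

/-- The statement kept along the induction. -/
def Inv (F : Fml) (r : Tile → ℕ) (i z : ℕ) : Prop := ∀ y, y % 4 ^ (2 * i) ≠ z → F.Blocked r i y

/-- Location facts of variable `i`. -/
def Loc (F : Fml) (r : Tile → ℕ) (i sl be : ℕ) (y : ℕ) : Prop :=
  y % 3 = sl → (∃ v, FT i v ∧ y ≡ r v [MOD F.base v]) ∨
    (y % 4 ^ (2 * i + 2) = be ∧ ∃ v, F.GT i v ∧ y ≡ r v [MOD F.base v])

theorem pick4 {x a b c d : ℕ} (hx : x < 4) (ha : a < 4) (hb : b < 4) (hc : c < 4) (hd : d < 4)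
    (hab : a ≠ b) (hac : a ≠ c) (had : a ≠ d) (hbc : b ≠ c) (hbd : b ≠ d) (hcd : c ≠ d)
    (h1 : x ≠ a) (h2 : x ≠ b) (h3 : x ≠ c) : x = d := by omega

theorem exists4 {a b c : ℕ} (ha : a < 4) (hb : b < 4) (hc : c < 4)
    (hab : a ≠ b) (hac : c ≠ a) (hbc : c ≠ b) : ∃ h < 4, h ≠ a ∧ h ≠ b ∧ h ≠ c :=
  ⟨6 - (a + b + c), by omega, by omega, by omega, by omega⟩

theorem FT_T {i i' k d : ℕ} (h : FT i' (.T k d)) (hk : 2 * i < k) (hi : i' < i) : False := by
  rcases h with ⟨d, hd, h⟩ | h | ⟨d, hd, h⟩ | ⟨d, hd, h⟩ <;>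
    simp only [Tile.T.injEq, reduceCtorEq] at h
  · omega
  · omega

theorem FT_P {i i' : ℕ} (h : FT i' (.P i)) (hi : i' < i) : False := by
  rcases h with ⟨d, hd, h⟩ | h | ⟨d, hd, h⟩ | ⟨d, hd, h⟩ <;>
    simp only [Tile.P.injEq, reduceCtorEq] at h
  omega

theorem FT_Y {i i' d : ℕ} (h : FT i' (.Y i d)) (hi : i' < i) : False := by
  rcases h with ⟨d, hd, h⟩ | h | ⟨d, hd, h⟩ | ⟨d, hd, h⟩ <;>
    simp only [Tile.Y.injEq, reduceCtorEq] at h
  omega

theorem stage (hF : F.Good) {r : Tile → ℕ} (H : F.Placed r) {i z : ℕ} (hi : i < F.n)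
    (hz : F.Inv r i z) : ∃ z', F.Inv r (i + 1) z' ∧ ∃ sl < 3, ∃ be, ∀ y, y % 4 ^ (2 * i) = z →
      y % 4 ^ (2 * i + 2) ≠ z' → F.Loc r i sl be y := by
  classical
  -- positions
  have hz' : ∀ y, ¬ F.Blocked r i y → y % 4 ^ (2 * i) = z := by
    intro y hy
    by_contra h
    exact hy (hz y h)
  -- the tiles
  have mT1 : ∀ d < 2, Tile.T (2 * i + 1) d ∈ F.tiles := fun d hd =>
    F.mem_T.2 (Or.inl ⟨i, hi, Or.inl rfl, hd⟩)
  have mT2 : ∀ d < 2, Tile.T (2 * i + 2) d ∈ F.tiles := fun d hd =>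
    F.mem_T.2 (Or.inl ⟨i, hi, Or.inr rfl, hd⟩)
  have mP : Tile.P i ∈ F.tiles := F.mem_P.2 hi
  have mt : Tile.T (2 * i + 3) 0 ∈ F.tiles := by
    apply F.mem_T.2
    by_cases h : i + 1 = F.n
    · right; omega
    · left; exact ⟨i + 1, by omega, by omega⟩
  have zT1 : ∀ d < 2, ∀ y, y ≡ r (.T (2 * i + 1) d) [MOD 4 ^ (2 * i + 1)] →
      y % 4 ^ (2 * i) = z := fun d hd y hy =>
    hz' y (not_blocked_fill hF H hi.le (mT1 d hd) rfl
      (fun i' hi' h => FT_T h (Nat.lt_succ_self _) hi') hy)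
  have zT2 : ∀ d < 2, ∀ y, y ≡ r (.T (2 * i + 2) d) [MOD 4 ^ (2 * i + 2)] →
      y % 4 ^ (2 * i) = z := fun d hd y hy =>
    hz' y (not_blocked_fill hF H hi.le (mT2 d hd) rfl
      (fun i' hi' h => FT_T h (show 2 * i < 2 * i + 2 by omega) hi') hy)
  have zt : ∀ y, y ≡ r (.T (2 * i + 3) 0) [MOD 4 ^ (2 * i + 3)] → y % 4 ^ (2 * i) = z :=
    fun y hy => hz' y (not_blocked_fill hF H hi.le mt rfl
      (fun i' hi' h => FT_T h (show 2 * i < 2 * i + 3 by omega) hi') hy)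
  have zP : ∀ y, y ≡ r (.P i) [MOD 3 * 4 ^ (2 * i + 1)] → y % 4 ^ (2 * i) = z :=
    fun y hy => hz' y (not_blocked_fill hF H hi.le mP rfl (fun i' hi' h => FT_P h hi') hy)
  -- digits
  obtain ⟨c1, hc1⟩ : ∃ c : ℕ → ℕ, ∀ y, c y = y / 4 ^ (2 * i) % 4 := ⟨_, fun _ => rfl⟩
  obtain ⟨c2, hc2⟩ : ∃ c : ℕ → ℕ, ∀ y, c y = y / 4 ^ (2 * i + 1) % 4 := ⟨_, fun _ => rfl⟩
  have c1lt : ∀ y, c1 y < 4 := fun y => by rw [hc1]; exact Nat.mod_lt _ (by norm_num)
  have c2lt : ∀ y, c2 y < 4 := fun y => by rw [hc2]; exact Nat.mod_lt _ (by norm_num)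
  have e1 : ∀ {x y}, x % 4 ^ (2 * i) = z → y % 4 ^ (2 * i) = z → c1 x = c1 y →
      x ≡ y [MOD 4 ^ (2 * i + 1)] := fun hx hy h =>
    (modEq_succ (hx.trans hy.symm)).2 (by rw [← hc1, ← hc1]; exact h)
  have e2 : ∀ {x y}, x % 4 ^ (2 * i) = z → y % 4 ^ (2 * i) = z → c1 x = c1 y → c2 x = c2 y →
      x ≡ y [MOD 4 ^ (2 * i + 2)] := fun hx hy h h' =>
    (modEq_succ (e1 hx hy h)).2 (by rw [← hc2, ← hc2]; exact h')
  have c1_congr : ∀ {x y}, x ≡ y [MOD 4 ^ (2 * i + 1)] → c1 x = c1 y := fun h => by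
    rw [hc1, hc1]; exact (modEq_succ (modEq_of_le (Nat.le_succ _) h)).1 h
  -- representatives
  obtain ⟨U, hU⟩ : ∃ c : ℕ → ℕ, ∀ d, r (.T (2 * i + 1) d) = c d := ⟨_, fun _ => rfl⟩
  obtain ⟨V, hV⟩ : ∃ c : ℕ → ℕ, ∀ d, r (.T (2 * i + 2) d) = c d := ⟨_, fun _ => rfl⟩
  obtain ⟨p, hp⟩ : ∃ c, r (.P i) = c := ⟨_, rfl⟩
  obtain ⟨t, ht⟩ : ∃ c, r (.T (2 * i + 3) 0) = c := ⟨_, rfl⟩
  simp only [hU] at zT1
  simp only [hV] at zT2
  simp only [hp] at zP
  simp only [ht] at zt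
  have zU : ∀ d < 2, U d % 4 ^ (2 * i) = z := fun d hd => zT1 d hd _ rfl
  have zV : ∀ d < 2, V d % 4 ^ (2 * i) = z := fun d hd => zT2 d hd _ rfl
  have zp : p % 4 ^ (2 * i) = z := zP _ rfl
  have zt' : t % 4 ^ (2 * i) = z := zt _ rfl
  have l0 : 0 < 2 := by norm_num
  have l1 : 1 < 2 := by norm_num
  -- a point with the right digits is in the tile
  have in1 : ∀ d < 2, ∀ y, y % 4 ^ (2 * i) = z → c1 y = c1 (U d) →
      y ≡ r (.T (2 * i + 1) d) [MOD F.base (.T (2 * i + 1) d)] := fun d hd y hy h => by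
    rw [hU]; exact e1 hy (zU d hd) h
  have in2 : ∀ d < 2, ∀ y, y % 4 ^ (2 * i) = z → c1 y = c1 (V d) → c2 y = c2 (V d) →
      y ≡ r (.T (2 * i + 2) d) [MOD F.base (.T (2 * i + 2) d)] := fun d hd y hy h h' => by
    rw [hV]; exact e2 hy (zV d hd) h h'
  have inP : ∀ y, y % 4 ^ (2 * i) = z → c1 y = c1 p → y % 3 = p % 3 →
      y ≡ r (.P i) [MOD F.base (.P i)] := fun y hy h h' => by
    rw [hp]; exact modEq_three_mul.2 ⟨h', e1 hy zp h⟩
  have own1 : ∀ d, U d ≡ r (.T (2 * i + 1) d) [MOD F.base (.T (2 * i + 1) d)] := fun d => by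
    rw [hU]
  have own2 : ∀ d, V d ≡ r (.T (2 * i + 2) d) [MOD F.base (.T (2 * i + 2) d)] := fun d => by
    rw [hV]
  have ownt : ∀ y, y ≡ t [MOD 4 ^ (2 * i + 3)] →
      y ≡ r (.T (2 * i + 3) 0) [MOD F.base (.T (2 * i + 3) 0)] := fun y hy => by
    rw [ht]; exact hy
  have cop1 : ∀ {u v : Tile}, F.rest u = 1 → Nat.Coprime (F.rest u) (F.rest v) := by
    intro u v h; rw [h]; exact Nat.coprime_one_left _
  have d12 : c1 (U 0) ≠ c1 (U 1) := by
    intro h
    have := meet_eq hF H (mT1 0 l0) (mT1 1 l1) (cop1 rfl) (own1 0) (in1 1 l1 _ (zU 0 l0) h)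
    simp at this
  have dp : ∀ d < 2, c1 p ≠ c1 (U d) := by
    intro d hd h
    have := meet_eq hF H mP (mT1 d hd) (cop1 rfl) (inP p zp rfl rfl) (in1 d hd _ zp h)
    simp at this
  have dv : ∀ d < 2, ∀ e < 2, c1 (V e) ≠ c1 (U d) := by
    intro d hd e he h
    have := meet_eq hF H (mT2 e he) (mT1 d hd) (cop1 rfl) (own2 e) (in1 d hd _ (zV e he) h)
    simp at this
  have dt : ∀ d < 2, c1 t ≠ c1 (U d) := by
    intro d hd h
    have := meet_eq hF H mt (mT1 d hd) (cop1 rfl) (ownt t rfl) (in1 d hd _ zt' h)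
    simp at this
  have dvp : ∀ e < 2, c1 (V e) ≠ c1 p := by
    intro e he h
    obtain ⟨y, hy1, hy2⟩ := crt3 p (V e) (2 * i + 2)
    have hyz : y % 4 ^ (2 * i) = z := zT2 e he y hy2
    have hyc : c1 y = c1 p := by
      rw [← h]; exact c1_congr (modEq_of_le (Nat.le_succ _) hy2)
    have := meet_eq hF H (mT2 e he) mP (cop1 rfl) (y := y) (by rw [hV]; exact hy2)
      (inP y hyz hyc hy1)
    simp at this
  have dtp : c1 t ≠ c1 p := by
    intro h
    obtain ⟨y, hy1, hy2⟩ := crt3 p t (2 * i + 3)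
    have hyz : y % 4 ^ (2 * i) = z := zt y hy2
    have hyc : c1 y = c1 p := by
      rw [← h]; exact c1_congr (modEq_of_le (by omega) hy2)
    have := meet_eq hF H mt mP (cop1 rfl) (y := y) (ownt y hy2) (inP y hyz hyc hy1)
    simp at this
  -- the digits are forced
  have pickt : ∀ x, x < 4 → x ≠ c1 (U 0) → x ≠ c1 (U 1) → x ≠ c1 p → x = c1 t :=
    fun x hx h1 h2 h3 => pick4 hx (c1lt _) (c1lt _) (c1lt _) (c1lt _) d12 (dp 0 l0).symm
      (dt 0 l0).symm (dp 1 l1).symm (dt 1 l1).symm dtp.symm h1 h2 h3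
  have hVt : ∀ e < 2, c1 (V e) = c1 t := fun e he =>
    pickt _ (c1lt _) (dv 0 l0 e he) (dv 1 l1 e he) (dvp e he)
  have f12 : c2 (V 0) ≠ c2 (V 1) := by
    intro h
    have := meet_eq hF H (mT2 0 l0) (mT2 1 l1) (cop1 rfl) (own2 0)
      (in2 1 l1 _ (zV 0 l0) ((hVt 0 l0).trans (hVt 1 l1).symm) h)
    simp at this
  have ft : ∀ e < 2, c2 t ≠ c2 (V e) := by
    intro e he h
    have := meet_eq hF H mt (mT2 e he) (cop1 rfl) (ownt t rfl)
      (in2 e he _ zt' (hVt e he).symm h)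
    simp at this
  obtain ⟨h0, hh0, hh1, hh2, hh3⟩ : ∃ h0 < 4, h0 ≠ c2 (V 0) ∧ h0 ≠ c2 (V 1) ∧ h0 ≠ c2 t :=
    exists4 (c2lt _) (c2lt _) (c2lt _) f12 (ft 0 l0) (ft 1 l1)
  have pickh : ∀ x, x < 4 → x ≠ c2 (V 0) → x ≠ c2 (V 1) → x ≠ c2 t → x = h0 :=
    fun x hx h1 h2 h3 => pick4 hx (c2lt _) (c2lt _) (c2lt _) hh0 f12 (ft 0 l0).symm
      hh1.symm (ft 1 l1).symm hh2.symm hh3.symm h1 h2 h3
  -- available cells
  obtain ⟨Av, hAv⟩ : ∃ Av : Finset (ℕ × ℕ × ℕ), Av =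
    (((Finset.range 3).erase (p % 3)) ×ˢ (({c1 p} : Finset ℕ) ×ˢ Finset.range 4)) ∪
      (Finset.range 3 ×ˢ (({c1 t} : Finset ℕ) ×ˢ ({h0} : Finset ℕ))) := ⟨_, rfl⟩
  have Avcard : Av.card = 11 := by
    rw [hAv, Finset.card_union_of_disjoint]
    · simp only [Finset.card_product, Finset.card_singleton, Finset.card_range]
      rw [Finset.card_erase_of_mem (Finset.mem_range.2 (Nat.mod_lt _ (by norm_num)))]
      simp
    · rw [Finset.disjoint_left]
      rintro ⟨a, b, c⟩ h1 h2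
      simp only [Finset.mem_product, Finset.mem_singleton] at h1 h2
      exact dtp (h2.2.1.symm.trans h1.2.1)
  have Av1 : ∀ a b c, a < 3 → a ≠ p % 3 → b = c1 p → c < 4 → (a, b, c) ∈ Av := by
    intro a b c h1 h2 h3 h4
    rw [hAv, Finset.mem_union]
    left
    simp only [Finset.mem_product, Finset.mem_erase, Finset.mem_range, Finset.mem_singleton]
    exact ⟨⟨h2, h1⟩, h3, h4⟩
  have Av2 : ∀ a b c, a < 3 → b = c1 t → c = h0 → (a, b, c) ∈ Av := by
    intro a b c h1 h3 h4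
    rw [hAv, Finset.mem_union]
    right
    simp only [Finset.mem_product, Finset.mem_range, Finset.mem_singleton]
    exact ⟨h1, h3, h4⟩
  -- cells of the tiles of level `2 i + 2`
  have cellmem : ∀ w ∈ F.tiles, F.base w = 3 * 4 ^ (2 * i + 2) → (∀ a b, w ≠ .T a b) →
      w ≠ .P i → r w % 4 ^ (2 * i) = z → (r w % 3, c1 (r w), c2 (r w)) ∈ Av := by
    intro w hw hwb hwT hwP hwz
    have n1 : ∀ d < 2, c1 (r w) ≠ c1 (U d) := by
      intro d hd h
      exact hwT _ _ (meet_eq hF H (mT1 d hd) hw (cop1 rfl) (y := r w) (in1 d hd _ hwz h) rfl).symm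
    have n2 : c1 (r w) = c1 p → r w % 3 ≠ p % 3 := by
      intro h h'
      exact hwP (meet_eq hF H mP hw (cop1 rfl) (y := r w) (inP _ hwz h h') rfl).symm
    have n3 : ∀ d < 2, c1 (r w) = c1 (V d) → c2 (r w) ≠ c2 (V d) := by
      intro d hd h h'
      exact hwT _ _
        (meet_eq hF H (mT2 d hd) hw (cop1 rfl) (y := r w) (in2 d hd _ hwz h h') rfl).symm
    have n4 : c1 (r w) = c1 t → c2 (r w) ≠ c2 t := by
      intro h h'
      obtain ⟨y, hy1, hy2⟩ := crt3 (r w) t (2 * i + 3)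
      have : y ≡ r w [MOD F.base w] := by
        rw [hwb]
        exact modEq_three_mul.2 ⟨hy1, (modEq_of_le (by omega) hy2).trans (e2 zt' hwz h.symm h'.symm)⟩
      exact hwT _ _ (meet_eq hF H mt hw (cop1 rfl) (y := y) (ownt y hy2) this).symm
    by_cases hcp : c1 (r w) = c1 p
    · exact Av1 _ _ _ (Nat.mod_lt _ (by norm_num)) (n2 hcp) hcp (c2lt _)
    · have hct : c1 (r w) = c1 t := pickt _ (c1lt _) (n1 0 l0) (n1 1 l1) hcp
      exact Av2 _ _ _ (Nat.mod_lt _ (by norm_num)) hct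
        (pickh _ (c2lt _) (n3 0 l0 (hct.trans (hVt 0 l0).symm))
          (n3 1 l1 (hct.trans (hVt 1 l1).symm)) (n4 hct))
  -- agreement of cells
  have cellag : ∀ x y, x % 4 ^ (2 * i) = z → y % 4 ^ (2 * i) = z →
      (x % 3, c1 x, c2 x) = (y % 3, c1 y, c2 y) → x ≡ y [MOD 3 * 4 ^ (2 * i + 2)] := by
    intro x y hx hy h
    simp only [Prod.mk.injEq] at h
    exact modEq_three_mul.2 ⟨h.1, e2 hx hy h.2.1 h.2.2⟩
  -- the tiles `Y i d`
  have mY : ∀ d < 5, Tile.Y i d ∈ F.tiles := fun d hd => F.mem_Y.2 ⟨hi, hd⟩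
  have zY : ∀ d < 5, r (.Y i d) % 4 ^ (2 * i) = z := fun d hd =>
    hz' _ (not_blocked_fill hF H hi.le (mY d hd) rfl (fun i' hi' h => FT_Y h hi') rfl)
  obtain ⟨cell, hcell⟩ : ∃ c : Tile → ℕ × ℕ × ℕ, ∀ w, c w = (r w % 3, c1 (r w), c2 (r w)) :=
    ⟨_, fun _ => rfl⟩
  obtain ⟨CY, hCY⟩ : ∃ C : Finset (ℕ × ℕ × ℕ),
    C = (Finset.range 5).image (fun d => cell (.Y i d)) := ⟨_, rfl⟩
  have CYcard : CY.card = 5 := by
    rw [hCY, Finset.card_image_of_injOn, Finset.card_range]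
    intro d hd d' hd' h
    have hd := Finset.mem_range.1 hd
    have hd' := Finset.mem_range.1 hd'
    have h : cell (.Y i d) = cell (.Y i d') := h
    rw [hcell, hcell] at h
    have := meet_eq hF H (mY d hd) (mY d' hd') (cop1 rfl) (y := r (.Y i d)) rfl
      (cellag _ _ (zY d hd) (zY d' hd') h)
    rw [Tile.Y.injEq] at this
    exact this.2
  have mG : ∀ l, l / 2 = i → ∀ d < 3 * (F.q l - 1), F.GT i (.G l (2 * i + 2) d) :=
    fun l hl d hd => ⟨l, hl, d, hd, rfl⟩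
  have zG : ∀ l, l / 2 = i → ∀ d < 3 * (F.q l - 1), r (.G l (2 * i + 2) d) % 4 ^ (2 * i) = z :=
    fun l hl d hd => hz' _ (not_blocked_lit hF H hi (mG l hl d hd) rfl)
  obtain ⟨CG, hCG⟩ : ∃ C : ℕ → Finset (ℕ × ℕ × ℕ), ∀ l, C l =
    (Finset.range (3 * (F.q l - 1))).image (fun d => cell (.G l (2 * i + 2) d)) :=
    ⟨_, fun _ => rfl⟩
  have llt : ∀ l, l / 2 = i → l < 2 * F.n := fun l hl => by omega
  have CGcard : ∀ l, l / 2 = i → 3 ≤ (CG l).card := by
    intro l hl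
    have hq := hF.q_gt l (llt l hl)
    have hinj : (Finset.range (3 * (F.q l - 1))).card ≤ ((CG l) ×ˢ Finset.range (F.q l)).card := by
      apply Finset.card_le_card_of_injOn
        (fun d => (cell (.G l (2 * i + 2) d), r (.G l (2 * i + 2) d) % F.q l))
      · intro d hd
        simp only [Finset.coe_product, Set.mem_prod, Finset.mem_coe]
        refine ⟨?_, Finset.mem_range.2 (Nat.mod_lt _ (lt_trans (by norm_num) hq))⟩
        rw [hCG]
        exact Finset.mem_image_of_mem _ hd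
      · intro d hd d' hd' h
        have hd := Finset.mem_range.1 hd
        have hd' := Finset.mem_range.1 hd'
        simp only [Prod.mk.injEq] at h
        obtain ⟨h1, h2⟩ := h
        rw [hcell, hcell] at h1
        have h3 : r (.G l (2 * i + 2) d) ≡ r (.G l (2 * i + 2) d') [MOD 3 * 4 ^ (2 * i + 2)] :=
          cellag _ _ (zG l hl d hd) (zG l hl d' hd') h1
        have h4 : r (.G l (2 * i + 2) d) ≡ r (.G l (2 * i + 2) d')
            [MOD 3 * 4 ^ (2 * i + 2) * F.q l] :=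
          (Nat.modEq_and_modEq_iff_modEq_mul (hF.q_cop_base (llt l hl) _).symm).1 ⟨h3, h2⟩
        have hgcd : Nat.gcd (F.modulus (.G l (2 * i + 2) d)) (F.modulus (.G l (2 * i + 2) d'))
            = 3 * 4 ^ (2 * i + 2) * F.q l := by
          rw [modulus_G, modulus_G, Nat.gcd_self]
        have := H _ ((mG l hl d hd).mem hi) _ ((mG l hl d' hd').mem hi) (by
          rw [hgcd]; exact h4)
        rw [Tile.G.injEq] at this
        exact this.2.2
    rw [Finset.card_product, Finset.card_range, Finset.card_range] at hinj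
    by_contra hlt
    have : (CG l).card * F.q l ≤ 2 * F.q l := Nat.mul_le_mul_right _ (by omega)
    exact absurd (le_trans hinj this) (by clear hinj this hlt; omega)
  have dYG : ∀ l, l / 2 = i → Disjoint CY (CG l) := by
    intro l hl
    rw [Finset.disjoint_left]
    intro c h1 h2
    rw [hCY, Finset.mem_image] at h1
    rw [hCG, Finset.mem_image] at h2
    obtain ⟨d, hd, hd1⟩ := h1
    obtain ⟨d', hd', hd1'⟩ := h2
    have hd := Finset.mem_range.1 hd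
    have hd' := Finset.mem_range.1 hd'
    have h := hd1.trans hd1'.symm
    rw [hcell, hcell] at h
    have := meet_eq hF H (mY d hd) ((mG l hl d' hd').mem hi) (cop1 rfl) (y := r (.Y i d)) rfl
      (cellag _ _ (zY d hd) (zG l hl d' hd') h)
    simp at this
  have hl1 : 2 * i / 2 = i := by omega
  have hl2 : (2 * i + 1) / 2 = i := by omega
  have dGG : Disjoint (CG (2 * i)) (CG (2 * i + 1)) := by
    rw [Finset.disjoint_left]
    intro c h1 h2
    rw [hCG, Finset.mem_image] at h1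
    rw [hCG, Finset.mem_image] at h2
    obtain ⟨d, hd, hd1⟩ := h1
    obtain ⟨d', hd', hd1'⟩ := h2
    have hd := Finset.mem_range.1 hd
    have hd' := Finset.mem_range.1 hd'
    have h := hd1.trans hd1'.symm
    rw [hcell, hcell] at h
    have := meet_eq hF H ((mG _ hl1 d hd).mem hi) ((mG _ hl2 d' hd').mem hi)
      (hF.q_cop _ (llt _ hl1) _ (llt _ hl2) (by omega)) (y := r (.G (2 * i) (2 * i + 2) d)) rfl
      (cellag _ _ (zG _ hl1 d hd) (zG _ hl2 d' hd') h)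
    rw [Tile.G.injEq] at this
    omega
  have hsub : CY ∪ (CG (2 * i) ∪ CG (2 * i + 1)) ⊆ Av := by
    intro c hc
    rw [Finset.mem_union, Finset.mem_union] at hc
    rcases hc with hc | hc | hc
    · rw [hCY] at hc
      obtain ⟨d, hd, rfl⟩ := Finset.mem_image.1 hc
      have hd := Finset.mem_range.1 hd
      rw [hcell]
      exact cellmem _ (mY d hd) rfl (by simp) (by simp) (zY d hd)
    · rw [hCG] at hc
      obtain ⟨d, hd, rfl⟩ := Finset.mem_image.1 hc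
      have hd := Finset.mem_range.1 hd
      rw [hcell]
      exact cellmem _ ((mG _ hl1 d hd).mem hi) rfl (by simp) (by simp) (zG _ hl1 d hd)
    · rw [hCG] at hc
      obtain ⟨d, hd, rfl⟩ := Finset.mem_image.1 hc
      have hd := Finset.mem_range.1 hd
      rw [hcell]
      exact cellmem _ ((mG _ hl2 d hd).mem hi) rfl (by simp) (by simp) (zG _ hl2 d hd)
  have hAveq : CY ∪ (CG (2 * i) ∪ CG (2 * i + 1)) = Av := by
    apply Finset.eq_of_subset_of_card_le hsub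
    rw [Avcard, Finset.card_union_of_disjoint, Finset.card_union_of_disjoint dGG, CYcard]
    · have h1 := CGcard (2 * i) hl1
      have h2 := CGcard (2 * i + 1) hl2
      exact Nat.add_le_add_left (Nat.add_le_add h1 h2) 5
    · rw [Finset.disjoint_union_right]
      exact ⟨dYG _ hl1, dYG _ hl2⟩
  -- hosting
  have host : ∀ y, y % 4 ^ (2 * i) = z → (y % 3, c1 y, c2 y) ∈ Av →
      (∃ v, FT i v ∧ y ≡ r v [MOD F.base v]) ∨ (∃ v, F.GT i v ∧ y ≡ r v [MOD F.base v]) := by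
    intro y hy hc
    rw [← hAveq, Finset.mem_union, Finset.mem_union] at hc
    rcases hc with hc | hc | hc
    · rw [hCY] at hc
      obtain ⟨d, hd, hd'⟩ := Finset.mem_image.1 hc
      have hd := Finset.mem_range.1 hd
      rw [hcell] at hd'
      left
      exact ⟨.Y i d, Or.inr (Or.inr (Or.inr ⟨d, hd, rfl⟩)), cellag _ _ hy (zY d hd) hd'.symm⟩
    · rw [hCG] at hc
      obtain ⟨d, hd, hd'⟩ := Finset.mem_image.1 hc
      have hd := Finset.mem_range.1 hd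
      rw [hcell] at hd'
      right
      exact ⟨_, mG _ hl1 d hd, cellag _ _ hy (zG _ hl1 d hd) hd'.symm⟩
    · rw [hCG] at hc
      obtain ⟨d, hd, hd'⟩ := Finset.mem_image.1 hc
      have hd := Finset.mem_range.1 hd
      rw [hcell] at hd'
      right
      exact ⟨_, mG _ hl2 d hd, cellag _ _ hy (zG _ hl2 d hd) hd'.symm⟩
  -- case analysis for a point of the current ball
  have cases : ∀ y, y % 4 ^ (2 * i) = z → y % 4 ^ (2 * i + 2) ≠ t % 4 ^ (2 * i + 2) →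
      (∃ v, FT i v ∧ y ≡ r v [MOD F.base v]) ∨
      ((y % 3 = p % 3 → c1 y = c1 t ∧ c2 y = h0) ∧
        ∃ v, F.GT i v ∧ y ≡ r v [MOD F.base v]) := by
    intro y hy hyt
    by_cases g1 : c1 y = c1 (U 0)
    · left; exact ⟨_, Or.inl ⟨0, by norm_num, rfl⟩, in1 0 l0 y hy g1⟩
    by_cases g2 : c1 y = c1 (U 1)
    · left; exact ⟨_, Or.inl ⟨1, by norm_num, rfl⟩, in1 1 l1 y hy g2⟩
    by_cases g3 : c1 y = c1 p
    · by_cases g4 : y % 3 = p % 3
      · left; exact ⟨_, Or.inr (Or.inl rfl), inP y hy g3 g4⟩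
      · rcases host y hy (Av1 _ _ _ (Nat.mod_lt _ (by norm_num)) g4 g3 (c2lt _)) with h | h
        · exact Or.inl h
        · exact Or.inr ⟨fun h' => absurd h' g4, h⟩
    · have hct : c1 y = c1 t := pickt _ (c1lt _) g1 g2 g3
      by_cases k1 : c2 y = c2 (V 0)
      · left
        exact ⟨_, Or.inr (Or.inr (Or.inl ⟨0, by norm_num, rfl⟩)),
          in2 0 l0 y hy (hct.trans (hVt 0 l0).symm) k1⟩
      by_cases k2 : c2 y = c2 (V 1)
      · left
        exact ⟨_, Or.inr (Or.inr (Or.inl ⟨1, by norm_num, rfl⟩)),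
          in2 1 l1 y hy (hct.trans (hVt 1 l1).symm) k2⟩
      by_cases k3 : c2 y = c2 t
      · exact absurd (e2 hy zt' hct k3) hyt
      · have hh : c2 y = h0 := pickh _ (c2lt _) k1 k2 k3
        rcases host y hy (Av2 _ _ _ (Nat.mod_lt _ (by norm_num)) hct hh) with h | h
        · exact Or.inl h
        · exact Or.inr ⟨fun _ => ⟨hct, hh⟩, h⟩
  refine ⟨t % 4 ^ (2 * i + 2), ?_, p % 3, Nat.mod_lt _ (by norm_num),
    z + 4 ^ (2 * i) * c1 t + 4 ^ (2 * i + 1) * h0, ?_⟩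
  · intro y hy
    have e : 2 * (i + 1) = 2 * i + 2 := by ring
    rw [e] at hy
    by_cases hyz : y % 4 ^ (2 * i) = z
    · rcases cases y hyz hy with ⟨v, hv, hv'⟩ | ⟨_, v, hv, hv'⟩
      · exact ⟨i, Nat.lt_succ_self i, v, Or.inl hv, hv'⟩
      · exact ⟨i, Nat.lt_succ_self i, v, Or.inr hv, hv'⟩
    · obtain ⟨i', hi', v, hv, hv'⟩ := hz y hyz
      exact ⟨i', Nat.lt_succ_of_lt hi', v, hv, hv'⟩
  · intro y hyz hy hs
    rcases cases y hyz hy with h | ⟨h1, h2⟩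
    · exact Or.inl h
    · right
      refine ⟨?_, h2⟩
      obtain ⟨h3, h4⟩ := h1 hs
      rw [Nat.mod_pow_succ, Nat.mod_pow_succ, hyz, ← hc1, ← hc2, h3, h4]

theorem stages (hF : F.Good) {r : Tile → ℕ} (H : F.Placed r) (i : ℕ) (hi : i ≤ F.n) :
    ∃ z, F.Inv r i z ∧ ∃ sl be : ℕ → ℕ, (∀ i, sl i < 3) ∧ ∀ w, w % 4 ^ (2 * i) ≠ z →
      ∃ i' < i, ∀ y, y ≡ w [MOD 4 ^ (2 * i' + 2)] → F.Loc r i' (sl i') (be i') y := by
  induction i with
  | zero =>
    refine ⟨0, ?_, fun _ => 0, fun _ => 0, fun _ => by norm_num, ?_⟩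
    · intro y hy
      exact absurd (by simp [Nat.mod_one]) hy
    · intro w hw
      exact absurd (by simp [Nat.mod_one]) hw
  | succ i ih =>
    obtain ⟨z, hz, sl, be, hsl, h⟩ := ih (by omega)
    obtain ⟨z', hz', sl0, hsl0, be0, h'⟩ := stage hF H (show i < F.n by omega) hz
    refine ⟨z', hz', Function.update sl i sl0, Function.update be i be0, ?_, ?_⟩
    · intro i'
      by_cases hii : i' = i
      · subst hii; rw [Function.update_self]; exact hsl0
      · rw [Function.update_of_ne hii]; exact hsl i'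
    intro w hw
    have e : 2 * (i + 1) = 2 * i + 2 := by ring
    rw [e] at hw
    by_cases hwz : w % 4 ^ (2 * i) = z
    · refine ⟨i, Nat.lt_succ_self i, ?_⟩
      intro y hy
      rw [Function.update_self, Function.update_self]
      apply h' y
      · rw [← hwz]; exact modEq_of_le (by omega) hy
      · intro h0
        exact hw (by rw [← h0]; exact hy.symm)
    · obtain ⟨i', hi', h''⟩ := h w hwz
      refine ⟨i', by omega, ?_⟩
      rw [Function.update_of_ne (by omega), Function.update_of_ne (by omega)]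
      exact h''

theorem sound (hF : F.Good) {r : Tile → ℕ} (H : F.Placed r) : F.Sat := by
  classical
  obtain ⟨z, hz, sl, be, hsl, hloc⟩ := stages hF H F.n le_rfl
  -- the last ball is filled
  have hfill : ∀ y, y % 4 ^ (2 * F.n) = z → ∃ d < 4,
      y ≡ r (.T (2 * F.n + 1) d) [MOD F.base (.T (2 * F.n + 1) d)] := by
    intro y hy
    have mT : ∀ d < 4, Tile.T (2 * F.n + 1) d ∈ F.tiles := fun d hd =>
      F.mem_T.2 (Or.inr ⟨rfl, hd⟩)
    have zT : ∀ d < 4, r (.T (2 * F.n + 1) d) % 4 ^ (2 * F.n) = z := by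
      intro d hd
      by_contra hne
      exact not_blocked_fill hF H le_rfl (mT d hd) rfl
        (fun i' hi' h => FT_T h (show 2 * F.n < 2 * F.n + 1 by omega) hi') (y := _) rfl (hz _ hne)
    obtain ⟨D, hD⟩ : ∃ D : ℕ → ℕ, ∀ d, D d = r (.T (2 * F.n + 1) d) / 4 ^ (2 * F.n) % 4 :=
      ⟨_, fun _ => rfl⟩
    have hinj : Set.InjOn D (Finset.range 4) := by
      intro d hd d' hd' h
      have hd : d < 4 := Finset.mem_range.1 hd
      have hd' : d' < 4 := Finset.mem_range.1 hd'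
      rw [hD, hD] at h
      have h1 := (modEq_succ ((zT d hd).trans (zT d' hd').symm)).2 h
      have := meet_eq hF H (mT d hd) (mT d' hd') (Nat.coprime_one_left _)
        (y := r (.T (2 * F.n + 1) d)) rfl h1
      rw [Tile.T.injEq] at this
      exact this.2
    have himg : (Finset.range 4).image D = Finset.range 4 := by
      apply Finset.eq_of_subset_of_card_le
      · intro x hx
        obtain ⟨d, _, rfl⟩ := Finset.mem_image.1 hx
        rw [hD]
        exact Finset.mem_range.2 (Nat.mod_lt _ (by norm_num))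
      · rw [Finset.card_image_of_injOn hinj]
    have hy4 : y / 4 ^ (2 * F.n) % 4 ∈ Finset.range 4 :=
      Finset.mem_range.2 (Nat.mod_lt _ (by norm_num))
    rw [← himg] at hy4
    obtain ⟨d, hd, hd'⟩ := Finset.mem_image.1 hy4
    have hd := Finset.mem_range.1 hd
    rw [hD] at hd'
    exact ⟨d, hd, (modEq_succ (hy.trans (zT d hd).symm)).2 hd'.symm⟩
  -- the assignment
  refine ⟨fun i => decide (∃ d, Tile.G (2 * i) (2 * i + 2) d ∈ F.tiles ∧ ∃ y, y % 3 = sl i ∧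
    y % 4 ^ (2 * i + 2) = be i ∧
    y ≡ r (.G (2 * i) (2 * i + 2) d) [MOD F.base (.G (2 * i) (2 * i + 2) d)]), ?_⟩
  intro j hj hne
  have mC : Tile.CT j ∈ F.tiles := F.mem_CT.2 ⟨hj, hne⟩
  obtain ⟨w, hw⟩ : ∃ w, w = r (.CT j) := ⟨_, rfl⟩
  have hwz : w % 4 ^ (2 * F.n) ≠ z := by
    intro h
    obtain ⟨d, hd, hd'⟩ := hfill w h
    have := meet_eq hF H (F.mem_T.2 (Or.inr ⟨rfl, hd⟩)) mC (Nat.coprime_one_left _) hd'
      (by rw [hw])
    simp at this
  obtain ⟨i, hi, hl⟩ := hloc w hwz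
  obtain ⟨y, hy1, hy2⟩ := crt3 (sl i) w (F.K j)
  have hyC : y ≡ r (.CT j) [MOD F.base (.CT j)] := by rw [← hw]; exact hy2
  have hKi : 2 * i + 2 ≤ F.K j := by unfold K; omega
  have hslt : y % 3 = sl i % 3 := hy1
  have key := hl y (modEq_of_le hKi hy2)
  have hs : y % 3 = sl i := by rw [hslt, Nat.mod_eq_of_lt (hsl i)]
  rcases key hs with ⟨v, hv, hv'⟩ | ⟨hb, v, hv, hv'⟩
  · have := meet_eq hF H (hv.mem hi) mC (by rw [hv.rest]; exact Nat.coprime_one_left _) hv' hyC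
    subst this
    rcases hv with ⟨d, hd, h⟩ | h | ⟨d, hd, h⟩ | ⟨d, hd, h⟩ <;> cases h
  · have hvm := hv.mem hi
    obtain ⟨l, hl2, d, hd, rfl⟩ := hv
    have hlcl : l ∈ F.cl j := by
      by_contra hnot
      have hcop : Nat.Coprime (F.rest (.G l (2 * i + 2) d)) (F.rest (.CT j)) := by
        refine Nat.Coprime.prod_right fun l' hl' => hF.q_cop l (by omega) l' (hF.cl_lt j hj l' hl') ?_
        rintro rfl
        exact hnot hl'
      have := meet_eq hF H hvm mC hcop hv' hyC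
      simp at this
    refine ⟨l, hlcl, ?_⟩
    unfold LitTrue
    rw [hl2]
    rw [decide_eq_decide]
    constructor
    · rintro ⟨d', hd', y', h1, h2, h3⟩
      by_contra hodd
      have hlo : l = 2 * i + 1 := by omega
      subst hlo
      have hyy : y' ≡ y [MOD 3 * 4 ^ (2 * i + 2)] := by
        refine modEq_three_mul.2 ⟨?_, ?_⟩
        · show y' % 3 = y % 3
          rw [h1, hs]
        · show y' % _ = y % _
          rw [h2, hb]
      have := meet_eq hF H hd' hvm (hF.q_cop _ (by omega) _ (by omega) (by omega))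
        (hyy.symm.trans h3) hv'
      rw [Tile.G.injEq] at this
      omega
    · intro heven
      have hle : l = 2 * i := by omega
      subst hle
      exact ⟨d, hvm, y, hs, hb, hv'⟩

end Fml

end Pool.Agent.H.MP_84f0af_lc
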