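import Mathlib

/-!
A small structured language over finitely many stacks, and its compilation to the
machines of Mathlib (`FinTM2`).
-/

namespace Pool.Agent.H.MP_84f0af_lc

open Turing StateTransition

/-- Stack programs; stacks (registers) are numbered. -/
inductive Cmd (A : Type) where
  | skip : Cmd A
  | push (r : ℕ) (a : A) : Cmd A
  | pop (r : ℕ) : Cmd A
  | move (r s : ℕ) : Cmd A
  | dup (r s t : ℕ) : Cmd A
  | seq (c d : Cmd A) : Cmd A
  | ite (r : ℕ) (p : Option A → Bool) (c d : Cmd A) : Cmd A
  | loop (r : ℕ) (p : Option A → Bool) (c : Cmd A) : Cmd A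

/-- the stores -/
abbrev Sto (A : Type) := ℕ → List A

variable {A : Type}

def doMove (S : Sto A) (r s : ℕ) : Sto A :=
  match S r with
  | [] => S
  | a :: l => Function.update (Function.update S r l) s (a :: (Function.update S r l) s)

def doDup (S : Sto A) (r s t : ℕ) : Sto A :=
  match S r with
  | [] => S
  | a :: l =>
    Function.update (Function.update (Function.update S r l) s (a :: (Function.update S r l) s)) t
      (a :: (Function.update (Function.update S r l) s (a :: (Function.update S r l) s)) t)

/-- big-step semantics with the number of steps -/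
inductive Run : Cmd A → Sto A → ℕ → Sto A → Prop
  | skip (S : Sto A) : Run .skip S 1 S
  | push (r : ℕ) (a : A) (S : Sto A) : Run (.push r a) S 1 (Function.update S r (a :: S r))
  | pop (r : ℕ) (S : Sto A) : Run (.pop r) S 1 (Function.update S r (S r).tail)
  | move (r s : ℕ) (S : Sto A) : Run (.move r s) S 1 (doMove S r s)
  | dup (r s t : ℕ) (S : Sto A) : Run (.dup r s t) S 1 (doDup S r s t)
  | seq {c d : Cmd A} {S S' S'' : Sto A} {n m : ℕ} : Run c S n S' → Run d S' m S'' →
      Run (.seq c d) S (n + m) S''
  | ite_true {r : ℕ} {p : Option A → Bool} {c d : Cmd A} {S S' : Sto A} {n : ℕ}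
      (h : p (S r).head? = true) : Run c S n S' → Run (.ite r p c d) S (1 + n) S'
  | ite_false {r : ℕ} {p : Option A → Bool} {c d : Cmd A} {S S' : Sto A} {n : ℕ}
      (h : p (S r).head? = false) : Run d S n S' → Run (.ite r p c d) S (1 + n) S'
  | loop_false {r : ℕ} {p : Option A → Bool} {c : Cmd A} {S : Sto A}
      (h : p (S r).head? = false) : Run (.loop r p c) S 1 S
  | loop_true {r : ℕ} {p : Option A → Bool} {c : Cmd A} {S S' S'' : Sto A} {n m : ℕ}
      (h : p (S r).head? = true) : Run c S n S' → Run (.loop r p c) S' m S'' →
      Run (.loop r p c) S (1 + (n + m)) S''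

/-- all registers of the program are `≤ R` -/
def Cmd.RegLe : Cmd A → ℕ → Prop
  | .skip, _ => True
  | .push r _, R => r ≤ R
  | .pop r, R => r ≤ R
  | .move r s, R => r ≤ R ∧ s ≤ R
  | .dup r s t, R => r ≤ R ∧ s ≤ R ∧ t ≤ R
  | .seq c d, R => c.RegLe R ∧ d.RegLe R
  | .ite r _ c d, R => r ≤ R ∧ c.RegLe R ∧ d.RegLe R
  | .loop r _ c, R => r ≤ R ∧ c.RegLe R

theorem Cmd.RegLe.mono {c : Cmd A} {R R' : ℕ} (h : c.RegLe R) (hR : R ≤ R') : c.RegLe R' := by
  induction c with
  | skip => trivial
  | push r a => exact le_trans h hR
  | pop r => exact le_trans h hR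
  | move r s => exact ⟨le_trans h.1 hR, le_trans h.2 hR⟩
  | dup r s t => exact ⟨le_trans h.1 hR, le_trans h.2.1 hR, le_trans h.2.2 hR⟩
  | seq c d ihc ihd => exact ⟨ihc h.1, ihd h.2⟩
  | ite r p c d ihc ihd => exact ⟨le_trans h.1 hR, ihc h.2.1, ihd h.2.2⟩
  | loop r p c ih => exact ⟨le_trans h.1 hR, ih h.2⟩

/-! ### Stacks of the machine -/

/-- names of the stacks -/
inductive SK (R : ℕ) where
  | inp : SK R
  | out : SK R
  | reg (i : Fin (R + 1)) : SK R
  deriving DecidableEq

def SK.equiv (R : ℕ) : SK R ≃ Bool ⊕ Fin (R + 1) where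
  toFun
    | .inp => .inl false
    | .out => .inl true
    | .reg i => .inr i
  invFun
    | .inl false => .inp
    | .inl true => .out
    | .inr i => .reg i
  left_inv k := by cases k <;> rfl
  right_inv k := by rcases k with (_ | _) | _ <;> rfl

instance (R : ℕ) : Fintype (SK R) := Fintype.ofEquiv _ (SK.equiv R).symm

variable (Γ₀ Γ₁ : Type)

/-- alphabets of the stacks -/
@[reducible] def SG (A : Type) {R : ℕ} : SK R → Type
  | .inp => Γ₀
  | .out => Γ₁
  | .reg _ => A

variable {Γ₀ Γ₁}

@[reducible] def rg {R : ℕ} (r : ℕ) : SK R := .reg (Fin.ofNat (R + 1) r)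

/-- the stacks of the machine for a store, an input and an output -/
def lift {R : ℕ} (S : Sto A) (i : List Γ₀) (o : List Γ₁) : ∀ k : SK R, List (SG Γ₀ Γ₁ A k)
  | .inp => i
  | .out => o
  | .reg j => S j.1

theorem lift_rg {R : ℕ} {r : ℕ} (hr : r ≤ R) (S : Sto A) (i : List Γ₀) (o : List Γ₁) :
    lift S i o (rg (R := R) r) = S r := by
  show S (Fin.ofNat (R + 1) r).1 = S r
  rw [Fin.val_ofNat, Nat.mod_eq_of_lt (by omega)]

theorem update_lift {R : ℕ} {r : ℕ} (hr : r ≤ R) (S : Sto A) (i : List Γ₀) (o : List Γ₁)
    (x : List A) : Function.update (lift S i o) (rg (R := R) r) x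
      = lift (Function.update S r x) i o := by
  funext k
  cases k with
  | inp => rw [Function.update_of_ne (by simp)]; rfl
  | out => rw [Function.update_of_ne (by simp)]; rfl
  | reg j =>
    by_cases hj : j = Fin.ofNat (R + 1) r
    · subst hj
      rw [Function.update_self]
      show x = Function.update S r x (Fin.ofNat (R + 1) r).1
      rw [Fin.val_ofNat, Nat.mod_eq_of_lt (by omega), Function.update_self]
    · rw [Function.update_of_ne (by simpa using hj)]
      show S j.1 = Function.update S r x j.1
      rw [Function.update_of_ne]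
      intro h
      apply hj
      apply Fin.ext
      rw [Fin.val_ofNat, Nat.mod_eq_of_lt (by omega), h]

/-! ### Labels and code -/

def Lab : Cmd A → Type
  | .seq c d => Lab c ⊕ Lab d
  | .ite _ _ c d => Option (Lab c ⊕ Lab d)
  | .loop _ _ c => Option (Lab c)
  | .skip => Unit
  | .push _ _ => Unit
  | .pop _ => Unit
  | .move _ _ => Unit
  | .dup _ _ _ => Unit

def Lab.fintype : ∀ c : Cmd A, Fintype (Lab c)
  | .seq c d => by
      haveI := Lab.fintype c
      haveI := Lab.fintype d
      exact inferInstanceAs (Fintype (Lab c ⊕ Lab d))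
  | .ite _ _ c d => by
      haveI := Lab.fintype c
      haveI := Lab.fintype d
      exact inferInstanceAs (Fintype (Option (Lab c ⊕ Lab d)))
  | .loop _ _ c => by
      haveI := Lab.fintype c
      exact inferInstanceAs (Fintype (Option (Lab c)))
  | .skip => inferInstanceAs (Fintype Unit)
  | .push _ _ => inferInstanceAs (Fintype Unit)
  | .pop _ => inferInstanceAs (Fintype Unit)
  | .move _ _ => inferInstanceAs (Fintype Unit)
  | .dup _ _ _ => inferInstanceAs (Fintype Unit)

def entry : ∀ c : Cmd A, Lab c
  | .seq c _ => Sum.inl (entry c)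
  | .ite _ _ _ _ => none
  | .loop _ _ _ => none
  | .skip => ()
  | .push _ _ => ()
  | .pop _ => ()
  | .move _ _ => ()
  | .dup _ _ _ => ()

/-- the statements of the compiled program -/
def code (Γ₀ Γ₁ : Type) (R : ℕ) (a₀ : A) {Λ : Type} : ∀ c : Cmd A, (Lab c → Λ) → Λ → Lab c →
    TM2.Stmt (K := SK R) (SG Γ₀ Γ₁ A) Λ (Option A)
  | .skip, _, ex, _ => .goto fun _ => ex
  | .push r a, _, ex, _ => .push (rg r) (fun _ => a) (.goto fun _ => ex)
  | .pop r, _, ex, _ => .pop (rg r) (fun v _ => v) (.goto fun _ => ex)
  | .move r s, _, ex, _ => .pop (rg r) (fun _ h => h) (.branch (fun v => v.isSome)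
      (.push (rg s) (fun v => v.getD a₀) (.load (fun _ => none) (.goto fun _ => ex)))
      (.goto fun _ => ex))
  | .dup r s t, _, ex, _ => .pop (rg r) (fun _ h => h) (.branch (fun v => v.isSome)
      (.push (rg s) (fun v => v.getD a₀) (.push (rg t) (fun v => v.getD a₀)
        (.load (fun _ => none) (.goto fun _ => ex))))
      (.goto fun _ => ex))
  | .seq c _, emb, _, .inl l => code Γ₀ Γ₁ R a₀ c (fun l => emb (.inl l)) (emb (.inr (entry _))) l
  | .seq _ d, emb, ex, .inr l => code Γ₀ Γ₁ R a₀ d (fun l => emb (.inr l)) ex l
  | .ite r p _ _, emb, _, none => .peek (rg r) (fun _ h => h) (.branch (fun v => p v)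
      (.load (fun _ => none) (.goto fun _ => emb (some (.inl (entry _)))))
      (.load (fun _ => none) (.goto fun _ => emb (some (.inr (entry _))))))
  | .ite _ _ c _, emb, ex, some (.inl l) => code Γ₀ Γ₁ R a₀ c (fun l => emb (some (.inl l))) ex l
  | .ite _ _ _ d, emb, ex, some (.inr l) => code Γ₀ Γ₁ R a₀ d (fun l => emb (some (.inr l))) ex l
  | .loop r p _, emb, ex, none => .peek (rg r) (fun _ h => h) (.branch (fun v => p v)
      (.load (fun _ => none) (.goto fun _ => emb (some (entry _))))
      (.load (fun _ => none) (.goto fun _ => ex)))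
  | .loop _ _ c, emb, _, some l => code Γ₀ Γ₁ R a₀ c (fun l => emb (some l)) (emb none) l

/-! ### Steps -/

/-- `n` steps lead from `a` to `b` -/
def StepsTo {σ : Type} (f : σ → Option σ) (n : ℕ) (a b : σ) : Prop :=
  (flip bind f)^[n] (some a) = some b

theorem StepsTo.trans {σ : Type} {f : σ → Option σ} {n m : ℕ} {a b c : σ}
    (h1 : StepsTo f n a b) (h2 : StepsTo f m b c) : StepsTo f (n + m) a c := by
  unfold StepsTo at *
  rw [add_comm, Function.iterate_add_apply, h1, h2]

theorem StepsTo.one {σ : Type} {f : σ → Option σ} {a b : σ} (h : f a = some b) :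
    StepsTo f 1 a b := by
  unfold StepsTo
  simp only [Function.iterate_one, flip]
  exact h

theorem StepsTo.zero {σ : Type} {f : σ → Option σ} (a : σ) : StepsTo f 0 a a := rfl

theorem sim {R : ℕ} {a₀ : A} {Λ : Type}
    (M : Λ → TM2.Stmt (K := SK R) (SG Γ₀ Γ₁ A) Λ (Option A))
    {c : Cmd A} {S S' : Sto A} {n : ℕ} (h : Run c S n S') :
    ∀ (emb : Lab c → Λ) (ex : Λ), (∀ l, M (emb l) = code Γ₀ Γ₁ R a₀ c emb ex l) → c.RegLe R →
    ∀ (i : List Γ₀) (o : List Γ₁), StepsTo (TM2.step M) n
      ⟨some (emb (entry c)), none, lift S i o⟩ ⟨some ex, none, lift S' i o⟩ := by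
  induction h with
  | skip S =>
    intro emb ex hM hR i o
    apply StepsTo.one
    simp only [TM2.step, hM, code, TM2.stepAux]
  | push r a S =>
    intro emb ex hM hR i o
    apply StepsTo.one
    simp only [TM2.step, hM, code, TM2.stepAux]
    rw [lift_rg hR, update_lift hR]
  | pop r S =>
    intro emb ex hM hR i o
    apply StepsTo.one
    simp only [TM2.step, hM, code, TM2.stepAux]
    rw [lift_rg hR, update_lift hR]
  | move r s S =>
    intro emb ex hM hR i o
    apply StepsTo.one
    simp only [TM2.step, hM, code, TM2.stepAux]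
    rw [lift_rg hR.1, update_lift hR.1]
    cases hS : S r with
    | nil =>
      simp only [List.head?_nil, Option.isSome_none, cond_false, List.tail_nil]
      congr 2
      · unfold doMove
        rw [hS]
        simp only
        rw [← hS, Function.update_eq_self]
    | cons a l =>
      simp only [List.head?_cons, Option.isSome_some, cond_true, List.tail_cons, Option.getD_some]
      rw [lift_rg hR.2, update_lift hR.2]
      congr 2
      unfold doMove
      rw [hS]
  | dup r s t S =>
    intro emb ex hM hR i o
    apply StepsTo.one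
    simp only [TM2.step, hM, code, TM2.stepAux]
    rw [lift_rg hR.1, update_lift hR.1]
    cases hS : S r with
    | nil =>
      simp only [List.head?_nil, Option.isSome_none, cond_false, List.tail_nil]
      congr 2
      · unfold doDup
        rw [hS]
        simp only
        rw [← hS, Function.update_eq_self]
    | cons a l =>
      simp only [List.head?_cons, Option.isSome_some, cond_true, List.tail_cons, Option.getD_some]
      rw [lift_rg hR.2.1, update_lift hR.2.1, lift_rg hR.2.2, update_lift hR.2.2]
      congr 2
      unfold doDup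
      rw [hS]
  | seq hc hd ihc ihd =>
    intro emb ex hM hR i o
    exact (ihc (fun l => emb (.inl l)) (emb (.inr (entry _))) (fun l => hM (.inl l)) hR.1 i o).trans
      (ihd (fun l => emb (.inr l)) ex (fun l => hM (.inr l)) hR.2 i o)
  | @ite_true r p c d S S' n h hc ihc =>
    intro emb ex hM hR i o
    refine StepsTo.trans (StepsTo.one ?_)
      (ihc (fun l => emb (some (.inl l))) ex (fun l => hM (some (.inl l))) hR.2.1 i o)
    have e : M (emb (entry (.ite r p c d))) = _ := hM none
    simp only [TM2.step, e, code, TM2.stepAux]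
    rw [lift_rg hR.1, h]
    rfl
  | @ite_false r p c d S S' n h hc ihc =>
    intro emb ex hM hR i o
    refine StepsTo.trans (StepsTo.one ?_)
      (ihc (fun l => emb (some (.inr l))) ex (fun l => hM (some (.inr l))) hR.2.2 i o)
    have e : M (emb (entry (.ite r p c d))) = _ := hM none
    simp only [TM2.step, e, code, TM2.stepAux]
    rw [lift_rg hR.1, h]
    rfl
  | @loop_false r p c S h =>
    intro emb ex hM hR i o
    apply StepsTo.one
    have e : M (emb (entry (.loop r p c))) = _ := hM none
    simp only [TM2.step, e, code, TM2.stepAux]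
    rw [lift_rg hR.1, h]
    rfl
  | @loop_true r p c S S' S'' n m h hc hl ihc ihl =>
    intro emb ex hM hR i o
    have h2 := ihc (fun l => emb (some l)) (emb none) (fun l => hM (some l)) hR.2 i o
    have h3 := ihl emb ex hM hR i o
    refine StepsTo.trans (StepsTo.one ?_) (h2.trans h3)
    have e : M (emb (entry (.loop r p c))) = _ := hM none
    simp only [TM2.step, e, code, TM2.stepAux]
    rw [lift_rg hR.1, h]
    rfl

/-! ### The machine -/

/-- statements of the machine: read the input to register `0`, run the program, write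
register `1` to the output -/
def mach (R : ℕ) (a₀ : A) (inA : Γ₀ → A) (outA : A → Γ₁) (c : Cmd A) :
    Lab c ⊕ Bool → TM2.Stmt (K := SK R) (SG Γ₀ Γ₁ A) (Lab c ⊕ Bool) (Option A)
  | .inr false => .pop .inp (fun _ h => h.map inA) (.branch (fun v => v.isSome)
      (.push (rg 0) (fun v => v.getD a₀) (.load (fun _ => none) (.goto fun _ => .inr false)))
      (.goto fun _ => .inl (entry c)))
  | .inl l => code Γ₀ Γ₁ R a₀ c .inl (.inr true) l
  | .inr true => .pop (rg 1) (fun _ h => h) (.branch (fun v => v.isSome)
      (.push .out (fun v => outA (v.getD a₀)) (.load (fun _ => none) (.goto fun _ => .inr true)))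
      .halt)

theorem read_steps (R : ℕ) (a₀ : A) (inA : Γ₀ → A) (outA : A → Γ₁) (c : Cmd A) (x : List Γ₀)
    (o : List Γ₁) : ∀ S : Sto A, StepsTo (TM2.step (mach R a₀ inA outA c)) (x.length + 1)
      ⟨some (.inr false), none, lift S x o⟩
      ⟨some (.inl (entry c)), none,
        lift (Function.update S 0 ((x.map inA).reverse ++ S 0)) [] o⟩ := by
  induction x with
  | nil =>
    intro S
    apply StepsTo.one
    simp only [TM2.step, mach, TM2.stepAux]
    simp only [lift, List.head?_nil, Option.map_none, Option.isSome_none, cond_false]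
    congr 2
    funext k
    cases k with
    | inp => rw [Function.update_self]; rfl
    | out => rw [Function.update_of_ne (by simp)]; rfl
    | reg j =>
      rw [Function.update_of_ne (by simp)]
      show S j.1 = Function.update S 0 _ j.1
      simp
  | cons a x ih =>
    intro S
    have h := ih (Function.update S 0 (inA a :: S 0))
    rw [List.length_cons, add_comm (x.length + 1) 1]
    refine StepsTo.trans (b := ⟨some (.inr false), none,
      lift (Function.update S 0 (inA a :: S 0)) x o⟩) (StepsTo.one ?_) ?_
    · simp only [TM2.step, mach, TM2.stepAux]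
      simp only [lift, List.head?_cons, Option.map_some, Option.isSome_some, cond_true]
      congr 2
      funext k
      cases k with
      | inp =>
        rw [Function.update_of_ne (by simp), Function.update_self]
        rfl
      | out =>
        rw [Function.update_of_ne (by simp), Function.update_of_ne (by simp)]
        rfl
      | reg j =>
        by_cases hj : j = Fin.ofNat (R + 1) 0
        · subst hj
          rw [Function.update_self, Function.update_of_ne (by simp)]
          show inA a :: S (Fin.ofNat (R + 1) 0).1 = Function.update S 0 _ (Fin.ofNat (R + 1) 0).1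
          simp
        · rw [Function.update_of_ne (by simpa using hj), Function.update_of_ne (by simp)]
          show S j.1 = Function.update S 0 _ j.1
          rw [Function.update_of_ne]
          intro h
          apply hj
          apply Fin.ext
          simp [h]
    · convert h using 3
      simp

theorem write_steps (R : ℕ) (hR : 1 ≤ R) (a₀ : A) (inA : Γ₀ → A) (outA : A → Γ₁) (c : Cmd A)
    (w : List A) : ∀ (S : Sto A) (o : List Γ₁), S 1 = w →
      StepsTo (TM2.step (mach R a₀ inA outA c)) (w.length + 1)
      ⟨some (.inr true), none, lift S [] o⟩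
      ⟨none, none, lift (Function.update S 1 []) [] ((w.map outA).reverse ++ o)⟩ := by
  induction w with
  | nil =>
    intro S o hS
    apply StepsTo.one
    simp only [TM2.step, mach, TM2.stepAux]
    rw [lift_rg hR, hS, update_lift hR]
    simp only [List.head?_nil, Option.isSome_none, cond_false, List.tail_nil, List.map_nil,
      List.reverse_nil, List.nil_append]
  | cons a w ih =>
    intro S o hS
    have h := ih (Function.update S 1 w) (outA a :: o) (by simp)
    rw [List.length_cons, add_comm (w.length + 1) 1]
    refine StepsTo.trans (b := ⟨some (.inr true), none,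
      lift (Function.update S 1 w) [] (outA a :: o)⟩) (StepsTo.one ?_) ?_
    · simp only [TM2.step, mach, TM2.stepAux]
      rw [lift_rg hR, hS, update_lift hR]
      simp only [List.head?_cons, Option.isSome_some, cond_true, List.tail_cons, Option.getD_some]
      congr 2
      funext k
      cases k with
      | inp => rw [Function.update_of_ne (by simp)]; rfl
      | out => rw [Function.update_self]; rfl
      | reg j => rw [Function.update_of_ne (by simp)]; rfl
    · convert h using 3 <;> simp

/-- the machine of a program -/
def finMach (R : ℕ) (a₀ : A) (inA : Γ₀ → A) (outA : A → Γ₁) (c : Cmd A) [Fintype A]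
    [Fintype Γ₀] : FinTM2 :=
  letI := Lab.fintype c
  { K := SK R
    k₀ := .inp
    k₁ := .out
    Γ := SG Γ₀ Γ₁ A
    Λ := Lab c ⊕ Bool
    main := .inr false
    σ := Option A
    initialState := none
    Γk₀Fin := (inferInstance : Fintype Γ₀)
    m := mach R a₀ inA outA c }

/-- Main result of this file: a program which computes (on registers) the function `f`
gives a polynomial time machine of Mathlib for `f`. -/
theorem computable_of_run {α β : Type} [Fintype A] [Fintype Γ₀] (a₀ : A)
    (inA : Γ₀ → A) (outA : A → Γ₁) (outB : Γ₁ → A) (hout : ∀ b, outA (outB b) = b)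
    (ea : α → List Γ₀) (eb : β → List Γ₁) (f : α → β) (c : Cmd A) (e : ℕ)
    (h : ∀ a, ∃ n ≤ ((ea a).length + 2) ^ e, Run c
      (Function.update (fun _ => []) 0 ((ea a).map inA).reverse) n
      (Function.update (fun _ => []) 1 ((eb (f a)).map outB).reverse))
    (hlen : ∀ a, (eb (f a)).length ≤ ((ea a).length + 2) ^ e) :
    Nonempty (TM2ComputableInPolyTime ea eb f) := by
  obtain ⟨R, hR1, hR⟩ : ∃ R, 1 ≤ R ∧ c.RegLe R := by
    clear h
    induction c with
    | skip => exact ⟨1, le_rfl, trivial⟩
    | push r a => exact ⟨r + 1, by omega, Nat.le_succ r⟩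
    | pop r => exact ⟨r + 1, by omega, Nat.le_succ r⟩
    | move r s => exact ⟨r + s + 1, by omega, by omega, by omega⟩
    | dup r s t => exact ⟨r + s + t + 1, by omega, by omega, by omega, by omega⟩
    | seq c d ihc ihd =>
      obtain ⟨R, h1, h2⟩ := ihc
      obtain ⟨R', h1', h2'⟩ := ihd
      exact ⟨R + R', by omega, h2.mono (by omega), h2'.mono (by omega)⟩
    | ite r p c d ihc ihd =>
      obtain ⟨R, h1, h2⟩ := ihc
      obtain ⟨R', h1', h2'⟩ := ihd
      exact ⟨R + R' + r, by omega, by omega, h2.mono (by omega), h2'.mono (by omega)⟩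
    | loop r p c ih =>
      obtain ⟨R, h1, h2⟩ := ih
      exact ⟨R + r, by omega, by omega, h2.mono (by omega)⟩
  refine ⟨{ tm := finMach R a₀ inA outA c
            inputAlphabet := Equiv.refl Γ₀
            outputAlphabet := Equiv.refl Γ₁
            time := Polynomial.X + 1 + ((Polynomial.X + 2) ^ e + ((Polynomial.X + 2) ^ e + 1))
            outputsFun := fun a => ?_ }⟩
  obtain ⟨n, hn, hrun⟩ := Classical.indefiniteDescription _ (h a)
  have hl := hlen a
  set x := ea a with hx
  set y := eb (f a) with hy
  have h1 := read_steps R a₀ inA outA c x [] (fun _ => [])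
  have h2 := sim (mach R a₀ inA outA c) hrun .inl (.inr true) (fun _ => rfl) hR ([] : List Γ₀)
    ([] : List Γ₁)
  have h3 := write_steps R hR1 a₀ inA outA c ((y.map outB).reverse)
    (Function.update (fun _ => []) 1 (y.map outB).reverse) [] (by simp)
  have hfin := (h1.trans ((by simpa using h2 : StepsTo _ n _ _).trans h3))
  refine ⟨⟨x.length + 1 + (n + ((y.map outB).reverse.length + 1)), ?_⟩, ?_⟩
  · have einit : initList (finMach R a₀ inA outA c) (List.map (Equiv.refl Γ₀).invFun x)
        = ⟨some (.inr false), none, lift (fun _ => []) x []⟩ := by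
      unfold initList
      congr 1
      funext k
      cases k with
      | inp =>
        show List.map (fun x => x) x = x
        simp
      | out => rfl
      | reg j => rfl
    have ehalt : haltList (finMach R a₀ inA outA c) (List.map (Equiv.refl Γ₁).invFun y)
        = ⟨none, none, lift (fun _ => []) [] y⟩ := by
      unfold haltList
      congr 1
      funext k
      cases k with
      | inp => rfl
      | out =>
        show List.map (fun x => x) y = y
        simp
      | reg j => rfl
    have e1 : ((y.map outB).reverse.map outA).reverse ++ [] = y := by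
      simp [Function.comp_def, hout]
    have e2 : Function.update (Function.update (fun _ => []) 1 (y.map outB).reverse) 1
        ([] : List A) = fun _ => [] := by
      simp
    rw [e1, e2] at hfin
    have := hfin
    unfold StepsTo at this
    rw [einit]
    simp only [Option.map_some]
    rw [ehalt]
    exact this
  · simp only [List.length_reverse, List.length_map]
    simp only [Polynomial.eval_add, Polynomial.eval_X, Polynomial.eval_one, Polynomial.eval_pow,
      Polynomial.eval_ofNat]
    omega

end Pool.Agent.H.MP_84f0af_lc
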