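import Pool.Agent.H.MP_84f0af_lc.Sched

/-!
The density-one instance attached to a formula.
-/

namespace Pool.Agent.H.MP_84f0af_lc

/-- Data of a formula: `n` variables, `m` clauses; the literals are the numbers `< 2 * n`
(`2 * i` is the positive and `2 * i + 1` the negative literal of variable `i`);
`q l` is the number attached to literal `l` and `cl j` is the set of literals of clause `j`
(an empty set means that the clause is absent). -/
structure Fml where
  n : ℕ
  m : ℕ
  q : ℕ → ℕ
  cl : ℕ → Finset ℕ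

/-- truth of a literal -/
def LitTrue (τ : ℕ → Bool) (l : ℕ) : Prop := τ (l / 2) = decide (l % 2 = 0)

/-- all the present clauses are true -/
def Fml.Sat (F : Fml) : Prop :=
  ∃ τ : ℕ → Bool, ∀ j < F.m, (F.cl j).Nonempty → ∃ l ∈ F.cl j, LitTrue τ l

structure Fml.Good (F : Fml) : Prop where
  q_gt : ∀ l < 2 * F.n, 3 < F.q l
  q_two : ∀ l < 2 * F.n, Nat.Coprime (F.q l) 2
  q_three : ∀ l < 2 * F.n, Nat.Coprime (F.q l) 3
  q_cop : ∀ l < 2 * F.n, ∀ l' < 2 * F.n, l ≠ l' → Nat.Coprime (F.q l) (F.q l')
  cl_lt : ∀ j < F.m, ∀ l ∈ F.cl j, l < 2 * F.n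

inductive Tile where
  | T (k d : ℕ)
  | P (i : ℕ)
  | Y (i d : ℕ)
  | G (l k d : ℕ)
  | CF (j d : ℕ)
  | CT (j : ℕ)
  deriving DecidableEq

namespace Fml
variable (F : Fml)

/-- level of clause `j` -/
def K (j : ℕ) : ℕ := 2 * F.n + 1 + j

/-- product of the numbers of the literals of clause `j` -/
def Q (j : ℕ) : ℕ := ∏ l ∈ F.cl j, F.q l

/-- sum of the partial products -/
def S (j : ℕ) : ℕ := ∑ l ∈ F.cl j, ∏ l' ∈ (F.cl j).erase l, F.q l'

/-- is `k` the level of a clause containing `l` -/
def Mem (l k : ℕ) : Prop := 2 * F.n + 1 ≤ k ∧ l ∈ F.cl (k - (2 * F.n + 1))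

instance (l k : ℕ) : Decidable (F.Mem l k) := by unfold Mem; infer_instance

/-- number of tiles `G l k` -/
def cnt (l k : ℕ) : ℕ :=
  if k < 2 * (l / 2) + 2 then 0
  else if k = 2 * (l / 2) + 2 then 3 * (F.q l - 1)
  else if k < 2 * F.n + 1 + F.m then (if F.Mem l k then 6 else 9)
  else if k = 2 * F.n + 1 + F.m then 12 else 0

def base : Tile → ℕ
  | .T k _ => 4 ^ k
  | .P i => 3 * 4 ^ (2 * i + 1)
  | .Y i _ => 3 * 4 ^ (2 * i + 2)
  | .G _ k _ => 3 * 4 ^ k
  | .CF j _ => 3 * 4 ^ F.K j
  | .CT j => 4 ^ F.K j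

def rest : Tile → ℕ
  | .T _ _ => 1
  | .P _ => 1
  | .Y _ _ => 1
  | .G l _ _ => F.q l
  | .CF j _ => F.Q j
  | .CT j => F.Q j

def modulus (t : Tile) : ℕ := F.base t * F.rest t

def varTiles (i : ℕ) : List Tile :=
  (List.range 2).map (Tile.T (2 * i + 1)) ++ ([Tile.P i] ++
    ((List.range 2).map (Tile.T (2 * i + 2)) ++ (List.range 5).map (Tile.Y i)))

def litTiles (l : ℕ) : List Tile :=
  (List.range (2 * F.n + 2 + F.m)).flatMap fun k => (List.range (F.cnt l k)).map (Tile.G l k)

def clTiles (j : ℕ) : List Tile :=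
  (List.range (3 * F.S j - 3)).map (Tile.CF j) ++ (if (F.cl j).Nonempty then [Tile.CT j] else [])

/-- the list of all tiles -/
def tiles : List Tile :=
  (List.range F.n).flatMap varTiles ++ ((List.range 4).map (Tile.T (2 * F.n + 1)) ++
    ((List.range (2 * F.n)).flatMap F.litTiles ++ (List.range F.m).flatMap F.clTiles))

/-- the instance -/
def periods : List ℕ := F.tiles.map F.modulus

/-! ### membership -/

theorem mem_T {k d : ℕ} : Tile.T k d ∈ F.tiles ↔
    (∃ i < F.n, (k = 2 * i + 1 ∨ k = 2 * i + 2) ∧ d < 2) ∨ (k = 2 * F.n + 1 ∧ d < 4) := by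
  simp only [tiles, varTiles, litTiles, clTiles, List.mem_append, List.mem_flatMap, List.mem_range,
    List.mem_map, List.mem_singleton, Tile.T.injEq, reduceCtorEq, and_false, exists_false,
    or_false, false_or, List.mem_ite_nil_right]
  constructor
  · rintro (⟨i, hi, (⟨a, ha, h1, h2⟩ | ⟨a, ha, h1, h2⟩)⟩ | ⟨a, ha, h1, h2⟩)
    · left; exact ⟨i, hi, Or.inl h1.symm, by omega⟩
    · left; exact ⟨i, hi, Or.inr h1.symm, by omega⟩
    · right; exact ⟨h1.symm, by omega⟩
  · rintro (⟨i, hi, (h | h), hd⟩ | ⟨h, hd⟩)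
    · left; exact ⟨i, hi, Or.inl ⟨d, hd, h.symm, rfl⟩⟩
    · left; exact ⟨i, hi, Or.inr ⟨d, hd, h.symm, rfl⟩⟩
    · right; exact ⟨d, hd, h.symm, rfl⟩

theorem mem_P {i : ℕ} : Tile.P i ∈ F.tiles ↔ i < F.n := by
  simp only [tiles, varTiles, litTiles, clTiles, List.mem_append, List.mem_flatMap, List.mem_range,
    List.mem_map, List.mem_singleton, Tile.P.injEq, reduceCtorEq, and_false, exists_false,
    or_false, false_or, List.mem_ite_nil_right]
  constructor
  · rintro ⟨a, ha, rfl⟩; exact ha
  · intro h; exact ⟨i, h, rfl⟩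

theorem mem_Y {i d : ℕ} : Tile.Y i d ∈ F.tiles ↔ i < F.n ∧ d < 5 := by
  simp only [tiles, varTiles, litTiles, clTiles, List.mem_append, List.mem_flatMap, List.mem_range,
    List.mem_map, List.mem_singleton, Tile.Y.injEq, reduceCtorEq, and_false, exists_false,
    or_false, false_or, List.mem_ite_nil_right]
  constructor
  · rintro ⟨a, ha, b, hb, rfl, rfl⟩; exact ⟨ha, hb⟩
  · rintro ⟨h, h'⟩; exact ⟨i, h, d, h', rfl, rfl⟩

theorem mem_G {l k d : ℕ} : Tile.G l k d ∈ F.tiles ↔
    l < 2 * F.n ∧ k < 2 * F.n + 2 + F.m ∧ d < F.cnt l k := by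
  simp only [tiles, varTiles, litTiles, clTiles, List.mem_append, List.mem_flatMap, List.mem_range,
    List.mem_map, List.mem_singleton, Tile.G.injEq, reduceCtorEq, and_false, exists_false,
    or_false, false_or, List.mem_ite_nil_right]
  constructor
  · rintro ⟨a, ha, b, hb, c, hc, rfl, rfl, rfl⟩; exact ⟨ha, hb, hc⟩
  · rintro ⟨h, h', h''⟩; exact ⟨l, h, k, h', d, h'', rfl, rfl, rfl⟩

theorem mem_CF {j d : ℕ} : Tile.CF j d ∈ F.tiles ↔ j < F.m ∧ d < 3 * F.S j - 3 := by
  simp only [tiles, varTiles, litTiles, clTiles, List.mem_append, List.mem_flatMap, List.mem_range,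
    List.mem_map, List.mem_singleton, Tile.CF.injEq, reduceCtorEq, and_false, exists_false,
    or_false, false_or, List.mem_ite_nil_right]
  constructor
  · rintro ⟨a, ha, b, hb, rfl, rfl⟩; exact ⟨ha, hb⟩
  · rintro ⟨h, h'⟩; exact ⟨j, h, d, h', rfl, rfl⟩

theorem mem_CT {j : ℕ} : Tile.CT j ∈ F.tiles ↔ j < F.m ∧ (F.cl j).Nonempty := by
  simp only [tiles, varTiles, litTiles, clTiles, List.mem_append, List.mem_flatMap, List.mem_range,
    List.mem_map, List.mem_singleton, Tile.CT.injEq, reduceCtorEq, and_false, exists_false,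
    or_false, false_or, List.mem_ite_nil_right]
  constructor
  · rintro ⟨a, ha, hb, rfl⟩; exact ⟨ha, hb⟩
  · rintro ⟨h, h'⟩; exact ⟨j, h, h', rfl⟩

theorem nodup_tiles : F.tiles.Nodup := by
  have inj1 : ∀ k, Function.Injective (Tile.T k) := fun k a b h => by simpa using h
  have inj2 : ∀ k, Function.Injective (Tile.Y k) := fun k a b h => by simpa using h
  have inj3 : ∀ l k, Function.Injective (Tile.G l k) := fun l k a b h => by simpa using h
  have inj4 : ∀ k, Function.Injective (Tile.CF k) := fun k a b h => by simpa using h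
  unfold tiles
  refine List.Nodup.append ?_ (List.Nodup.append (List.nodup_range.map (inj1 _))
    (List.Nodup.append ?_ ?_ ?_) ?_) ?_
  · rw [List.nodup_flatMap]
    constructor
    · intro i _
      unfold varTiles
      refine List.Nodup.append (List.nodup_range.map (inj1 _)) (List.Nodup.append (by simp)
        (List.Nodup.append (List.nodup_range.map (inj1 _)) (List.nodup_range.map (inj2 _)) ?_) ?_) ?_
      · intro t h1 h2
        simp only [List.mem_map] at h1 h2
        obtain ⟨a, _, rfl⟩ := h1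
        obtain ⟨b, _, hb⟩ := h2
        simp at hb
      · intro t h1 h2
        simp only [List.mem_map, List.mem_append, List.mem_singleton] at h1 h2
        subst h1
        simp at h2
      · intro t h1 h2
        simp only [List.mem_map, List.mem_append, List.mem_singleton] at h1 h2
        obtain ⟨a, _, rfl⟩ := h1
        simp only [reduceCtorEq, and_false, exists_false, or_false, false_or, Tile.T.injEq] at h2
        obtain ⟨b, _, hb, _⟩ := h2
        omega
    · refine List.Pairwise.imp ?_ (List.nodup_range (n := F.n))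
      intro i i' hii t h1 h2
      simp only [varTiles, List.mem_map, List.mem_append, List.mem_singleton] at h1 h2
      rcases h1 with ⟨a, _, rfl⟩ | rfl | ⟨a, _, rfl⟩ | ⟨a, _, rfl⟩ <;>
      simp only [reduceCtorEq, and_false, exists_false, or_false, false_or, Tile.T.injEq,
        Tile.P.injEq, Tile.Y.injEq] at h2
      · rcases h2 with ⟨b, _, hb, _⟩ | ⟨b, _, hb, _⟩ <;> omega
      · omega
      · rcases h2 with ⟨b, _, hb, _⟩ | ⟨b, _, hb, _⟩ <;> omega
      · obtain ⟨b, _, hb, _⟩ := h2
        omega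
  · rw [List.nodup_flatMap]
    constructor
    · intro l _
      unfold litTiles
      rw [List.nodup_flatMap]
      constructor
      · intro k _
        exact List.nodup_range.map (inj3 _ _)
      · refine List.Pairwise.imp ?_ List.nodup_range
        intro i i' hii t h1 h2
        simp only [List.mem_map] at h1 h2
        obtain ⟨a, _, rfl⟩ := h1
        obtain ⟨b, _, hb⟩ := h2
        simp only [Tile.G.injEq] at hb
        omega
    · refine List.Pairwise.imp ?_ List.nodup_range
      intro i i' hii t h1 h2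
      simp only [litTiles, List.mem_map, List.mem_flatMap] at h1 h2
      obtain ⟨k, _, a, _, rfl⟩ := h1
      obtain ⟨k', _, b, _, hb⟩ := h2
      simp only [Tile.G.injEq] at hb
      omega
  · rw [List.nodup_flatMap]
    constructor
    · intro j _
      unfold clTiles
      refine List.Nodup.append (List.nodup_range.map (inj4 _)) ?_ ?_
      · split_ifs <;> simp
      · intro t h1 h2
        simp only [List.mem_map, List.mem_ite_nil_right, List.mem_singleton] at h1 h2
        obtain ⟨a, _, rfl⟩ := h1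
        simp at h2
    · refine List.Pairwise.imp ?_ List.nodup_range
      intro i i' hii t h1 h2
      simp only [clTiles, List.mem_map, List.mem_append, List.mem_ite_nil_right,
        List.mem_singleton] at h1 h2
      rcases h1 with ⟨a, _, rfl⟩ | ⟨_, rfl⟩ <;>
      simp only [reduceCtorEq, and_false, exists_false, or_false, false_or, Tile.CF.injEq,
        Tile.CT.injEq] at h2
      · obtain ⟨b, _, hb, _⟩ := h2
        omega
      · omega
  · intro t h1 h2
    simp only [litTiles, clTiles, List.mem_map, List.mem_flatMap, List.mem_append,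
      List.mem_ite_nil_right, List.mem_singleton] at h1 h2
    obtain ⟨_, _, k, _, a, _, rfl⟩ := h1
    simp at h2
  · intro t h1 h2
    simp only [litTiles, clTiles, List.mem_map, List.mem_flatMap, List.mem_append,
      List.mem_ite_nil_right, List.mem_singleton] at h1 h2
    obtain ⟨a, _, rfl⟩ := h1
    simp at h2
  · intro t h1 h2
    simp only [varTiles, litTiles, clTiles, List.mem_map, List.mem_flatMap, List.mem_append,
      List.mem_ite_nil_right, List.mem_singleton, List.mem_range] at h1 h2
    obtain ⟨i, hi, h1⟩ := h1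
    rcases h1 with ⟨a, _, rfl⟩ | rfl | ⟨a, _, rfl⟩ | ⟨a, _, rfl⟩ <;>
    simp only [reduceCtorEq, and_false, exists_false, or_false, false_or, Tile.T.injEq,
        Tile.P.injEq, Tile.Y.injEq] at h2
    · obtain ⟨b, _, hb, _⟩ := h2
      omega
    · obtain ⟨b, _, hb, _⟩ := h2
      omega

end Fml

end Pool.Agent.H.MP_84f0af_lc
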