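import Pool.Agent.H.MP_84f0af_lc.Cnf

/-!
The formula describing the runs of a machine with numbered states.
-/

namespace Pool.Agent.H.MP_84f0af_lc

open Function

/-- shift machines with numbered states, stacks and symbols; the operations are coded:
`0` nothing, `1` pop, `y + 2` push `y` -/
structure NM where
  nC : ℕ
  nK : ℕ
  nY : ℕ
  ts : ℕ → ℕ
  nx : ℕ → ℕ → ℕ
  op : ℕ → ℕ → ℕ
  ts_lt : ∀ c < nC, ts c < nK
  nx_lt : ∀ c < nC, ∀ a < nY, nx c a < nC
  op_lt : ∀ c < nC, ∀ k < nK, op c k < nY + 2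

/-- one step; the control state is at stack number `nK` -/
def NM.step (M : NM) (f : ℕ → ℕ → ℕ) (k i : ℕ) : ℕ :=
  if k < M.nK then
    (if M.op (f M.nK 0) k = 0 then f k i
    else if M.op (f M.nK 0) k = 1 then f k (i + 1)
    else if i = 0 then M.op (f M.nK 0) k - 2 else f k (i - 1))
  else M.nx (f M.nK 0) (f (M.ts (f M.nK 0)) 0)

/-- data for inputs and acceptance -/
structure Acc (Γ₀ : Type) (M : NM) where
  c₀ : ℕ
  k₀ : ℕ
  k₁ : ℕ
  y₀ : ℕ
  inY : Γ₀ → ℕ
  wY : Bool → ℕ
  good : ℕ → Prop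
  c₀_lt : c₀ < M.nC
  k₀_lt : k₀ < M.nK
  k₁_lt : k₁ < M.nK
  y₀_lt : y₀ < M.nY
  inY_lt : ∀ g, inY g < M.nY
  wY_lt : ∀ b, wY b < M.nY
  wY_ne : ∀ b, wY b ≠ y₀

variable {Γ₀ Γ₁ : Type}

/-- initial configuration for the input `x` and the witness `w` -/
def Acc.init {M : NM} (D : Acc Γ₀ M) (x : List Γ₀) (w : List Bool) (k i : ℕ) : ℕ :=
  if k < M.nK then
    (if k = D.k₀ then ((x.map D.inY ++ w.map D.wY)[i]?).getD D.y₀ else D.y₀)
  else D.c₀

/-- number of a variable -/
def vv (t k i a : ℕ) : ℕ := Nat.pair (Nat.pair t k) (Nat.pair i a)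

theorem litTrue_pos {τ : ℕ → Bool} {v : ℕ} : LitTrue τ (2 * v) ↔ τ v = true := by
  unfold LitTrue
  have h1 : 2 * v / 2 = v := by omega
  have h2 : 2 * v % 2 = 0 := by omega
  rw [h1, h2]
  simp

theorem litTrue_neg {τ : ℕ → Bool} {v : ℕ} : LitTrue τ (2 * v + 1) ↔ τ v = false := by
  unfold LitTrue
  have h1 : (2 * v + 1) / 2 = v := by omega
  have h2 : (2 * v + 1) % 2 = 1 := by omega
  rw [h1, h2]
  simp

theorem vv_lt {R t k i a : ℕ} (h1 : t < R) (h2 : k < R) (h3 : i < R) (h4 : a < R) :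
    vv t k i a < R ^ 4 := by
  have := pair_lt (pair_lt h1 h2) (pair_lt h3 h4)
  calc _ < (R ^ 2) ^ 2 := this
    _ = R ^ 4 := by ring

section
variable {τ : Type} [Env τ Γ₀]

theorem UF.vv {t k i a : τ → ℕ} (ht : UF Γ₁ t) (hk : UF Γ₁ k) (hi : UF Γ₁ i) (ha : UF Γ₁ a) :
    UF Γ₁ (fun s => MP_84f0af_lc.vv (t s) (k s) (i s) (a s)) :=
  (ht.pair hk).pair (hi.pair ha)

theorem UF.pos {f : τ → ℕ} (hf : UF Γ₁ f) : UF Γ₁ (fun s => 2 * f s) := (UF.const 2).mul hf

theorem UF.neg {f : τ → ℕ} (hf : UF Γ₁ f) : UF Γ₁ (fun s => 2 * f s + 1) := hf.pos.succ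

end

section families

variable (M : NM) (D : Acc Γ₀ M) (T B : List Γ₀ → ℕ)

/-! variables of the environment of families -/

theorem e_t : UF Γ₁ (fun e : CE Γ₀ => e.1) := UF.fst
theorem e_k : UF Γ₁ (fun e : CE Γ₀ => e.2.1) := UF.var IsVar.fst.weak
theorem e_i : UF Γ₁ (fun e : CE Γ₀ => e.2.2.1) := UF.var IsVar.fst.weak.weak
theorem e_c : UF Γ₁ (fun e : CE Γ₀ => e.2.2.2.1) := UF.var IsVar.fst.weak.weak.weak
theorem e_a : UF Γ₁ (fun e : CE Γ₀ => e.2.2.2.2.1) := UF.var IsVar.fst.weak.weak.weak.weak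
theorem e_x {f : List Γ₀ → ℕ} (hf : UF Γ₁ f) : UF Γ₁ (fun e : CE Γ₀ => f e.2.2.2.2.2) :=
  hf.weak.weak.weak.weak.weak

/-- truncated tables -/
def NM.ts' (c : ℕ) : ℕ := if c < M.nC then M.ts c else 0
def NM.nx' (c a : ℕ) : ℕ := if c < M.nC ∧ a < M.nY then M.nx c a else 0
def NM.op' (c k : ℕ) : ℕ := if c < M.nC ∧ k < M.nK then M.op c k else 0

theorem uf_ts : UF Γ₁ (fun e : CE Γ₀ => M.ts' e.2.2.2.1) := UF.table _ _ e_c
theorem uf_nx : UF Γ₁ (fun e : CE Γ₀ => M.nx' e.2.2.2.1 e.2.2.2.2.1) := UF.table2 _ _ _ e_c e_a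
theorem uf_op : UF Γ₁ (fun e : CE Γ₀ => M.op' e.2.2.2.1 e.2.1) := UF.table2 _ _ _ e_c e_k

/-- transitions of the control state -/
def fam0 (hT : UF Γ₁ T) : Kind Γ₀ Γ₁ where
  G e := e.1 < T e.2.2.2.2.2 ∧ (e.2.2.2.1 < M.nC ∧ e.2.2.2.2.1 < M.nY)
  A e := 2 * vv e.1 M.nK 0 e.2.2.2.1 + 1
  B e := 2 * vv e.1 (M.ts' e.2.2.2.1) 0 e.2.2.2.2.1 + 1
  C e := 2 * vv (e.1 + 1) M.nK 0 (M.nx' e.2.2.2.1 e.2.2.2.2.1)
  hG := (UP.lt e_t (e_x hT)).and ((UP.lt e_c (UF.const _)).and (UP.lt e_a (UF.const _)))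
  hA := (UF.vv e_t (UF.const _) (UF.const _) e_c).neg
  hB := (UF.vv e_t (uf_ts M) (UF.const _) e_a).neg
  hC := (UF.vv e_t.succ (UF.const _) (UF.const _) (uf_nx M)).pos

/-- transitions of the symbols -/
def fam1 (hT : UF Γ₁ T) : Kind Γ₀ Γ₁ where
  G e := e.1 < T e.2.2.2.2.2 ∧ (e.2.1 < M.nK ∧ (e.2.2.1 < T e.2.2.2.2.2 + 1 ∧
    (e.2.2.2.1 < M.nC ∧ e.2.2.2.2.1 < M.nY)))
  A e := 2 * vv e.1 M.nK 0 e.2.2.2.1 + 1
  B e := 2 * vv e.1 e.2.1 (e.2.2.1 + (if M.op' e.2.2.2.1 e.2.1 = 1 then 1 else 0)) e.2.2.2.2.1 + 1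
  C e := 2 * vv (e.1 + 1) e.2.1 (e.2.2.1 + (if 2 ≤ M.op' e.2.2.2.1 e.2.1 then 1 else 0))
    e.2.2.2.2.1
  hG := (UP.lt e_t (e_x hT)).and ((UP.lt e_k (UF.const _)).and ((UP.lt e_i (e_x hT).succ).and
    ((UP.lt e_c (UF.const _)).and (UP.lt e_a (UF.const _)))))
  hA := (UF.vv e_t (UF.const _) (UF.const _) e_c).neg
  hB := (UF.vv e_t e_k (e_i.add (UF.ite (UP.eq (uf_op M) (UF.const 1)) (UF.const 1)
    (UF.const 0))) e_a).neg
  hC := (UF.vv e_t.succ e_k (e_i.add (UF.ite (UP.le (UF.const 2) (uf_op M)) (UF.const 1)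
    (UF.const 0))) e_a).pos

/-- pushed symbols -/
def fam2 (hT : UF Γ₁ T) : Kind Γ₀ Γ₁ where
  G e := e.1 < T e.2.2.2.2.2 ∧ (e.2.1 < M.nK ∧ (e.2.2.2.1 < M.nC ∧ 2 ≤ M.op' e.2.2.2.1 e.2.1))
  A e := 2 * vv e.1 M.nK 0 e.2.2.2.1 + 1
  B e := 2 * vv (e.1 + 1) e.2.1 0 (M.op' e.2.2.2.1 e.2.1 - 2)
  C e := 2 * vv (e.1 + 1) e.2.1 0 (M.op' e.2.2.2.1 e.2.1 - 2)
  hG := (UP.lt e_t (e_x hT)).and ((UP.lt e_k (UF.const _)).and ((UP.lt e_c (UF.const _)).and
    (UP.le (UF.const 2) (uf_op M))))
  hA := (UF.vv e_t (UF.const _) (UF.const _) e_c).neg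
  hB := (UF.vv e_t.succ e_k (UF.const _) ((uf_op M).sub (UF.const 2))).pos
  hC := (UF.vv e_t.succ e_k (UF.const _) ((uf_op M).sub (UF.const 2))).pos

/-- initial control state -/
def fam3 : Kind Γ₀ Γ₁ where
  G _ := True
  A _ := 2 * vv 0 M.nK 0 D.c₀
  B _ := 2 * vv 0 M.nK 0 D.c₀
  C _ := 2 * vv 0 M.nK 0 D.c₀
  hG := UP.const _
  hA := UF.const _
  hB := UF.const _
  hC := UF.const _

/-- initial blanks -/
def fam4 (hT : UF Γ₁ T) (hB : UF Γ₁ B) : Kind Γ₀ Γ₁ where
  G e := e.2.1 < M.nK ∧ (e.2.2.1 < T e.2.2.2.2.2 + 1 ∧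
    (¬ e.2.1 = D.k₀ ∨ e.2.2.2.2.2.length + B e.2.2.2.2.2 ≤ e.2.2.1))
  A e := 2 * vv 0 e.2.1 e.2.2.1 D.y₀
  B e := 2 * vv 0 e.2.1 e.2.2.1 D.y₀
  C e := 2 * vv 0 e.2.1 e.2.2.1 D.y₀
  hG := (UP.lt e_k (UF.const _)).and ((UP.lt e_i (e_x hT).succ).and
    ((UP.eq e_k (UF.const _)).not.or (UP.le ((e_x UF.len).add (e_x hB)) e_i)))
  hA := (UF.vv (UF.const _) e_k e_i (UF.const _)).pos
  hB := (UF.vv (UF.const _) e_k e_i (UF.const _)).pos
  hC := (UF.vv (UF.const _) e_k e_i (UF.const _)).pos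

/-- the code of an input symbol -/
def Acc.tab {M : NM} (D : Acc Γ₀ M) (o : Option Γ₀) : ℕ := (o.map D.inY).getD D.y₀

/-- the input -/
def fam5 [Fintype Γ₀] : Kind Γ₀ Γ₁ where
  G e := e.2.2.1 < e.2.2.2.2.2.length
  A e := 2 * vv 0 D.k₀ e.2.2.1 (D.tab (e.2.2.2.2.2[e.2.2.1]?))
  B e := 2 * vv 0 D.k₀ e.2.2.1 (D.tab (e.2.2.2.2.2[e.2.2.1]?))
  C e := 2 * vv 0 D.k₀ e.2.2.1 (D.tab (e.2.2.2.2.2[e.2.2.1]?))
  hG := UP.lt e_i (e_x UF.len)
  hA := (UF.vv (UF.const _) (UF.const _) e_i (UF.sym D.tab e_i)).pos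
  hB := (UF.vv (UF.const _) (UF.const _) e_i (UF.sym D.tab e_i)).pos
  hC := (UF.vv (UF.const _) (UF.const _) e_i (UF.sym D.tab e_i)).pos

/-- the witness -/
def fam6 (hB : UF Γ₁ B) : Kind Γ₀ Γ₁ where
  G e := e.2.2.2.2.2.length ≤ e.2.2.1 ∧ e.2.2.1 < e.2.2.2.2.2.length + B e.2.2.2.2.2
  A e := 2 * vv 0 D.k₀ e.2.2.1 D.y₀
  B e := 2 * vv 0 D.k₀ e.2.2.1 (D.wY true)
  C e := 2 * vv 0 D.k₀ e.2.2.1 (D.wY false)
  hG := (UP.le (e_x UF.len) e_i).and (UP.lt e_i ((e_x UF.len).add (e_x hB)))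
  hA := (UF.vv (UF.const _) (UF.const _) e_i (UF.const _)).pos
  hB := (UF.vv (UF.const _) (UF.const _) e_i (UF.const _)).pos
  hC := (UF.vv (UF.const _) (UF.const _) e_i (UF.const _)).pos

/-- the blanks are at the end -/
def fam7 (hB : UF Γ₁ B) : Kind Γ₀ Γ₁ where
  G e := e.2.2.2.2.2.length ≤ e.2.2.1 ∧ e.2.2.1 < e.2.2.2.2.2.length + B e.2.2.2.2.2
  A e := 2 * vv 0 D.k₀ e.2.2.1 D.y₀ + 1
  B e := 2 * vv 0 D.k₀ (e.2.2.1 + 1) D.y₀
  C e := 2 * vv 0 D.k₀ (e.2.2.1 + 1) D.y₀
  hG := (UP.le (e_x UF.len) e_i).and (UP.lt e_i ((e_x UF.len).add (e_x hB)))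
  hA := (UF.vv (UF.const _) (UF.const _) e_i (UF.const _)).neg
  hB := (UF.vv (UF.const _) (UF.const _) e_i.succ (UF.const _)).pos
  hC := (UF.vv (UF.const _) (UF.const _) e_i.succ (UF.const _)).pos

theorem up_bad : UP Γ₁ (fun e : CE Γ₀ => e.2.2.2.2.1 < M.nY ∧ ¬ D.good e.2.2.2.2.1) := by
  classical
  have h := UF.table (Γ₁ := Γ₁) (fun a => if D.good a then 0 else 1) M.nY
    (f := fun e : CE Γ₀ => e.2.2.2.2.1) e_a
  refine UP.of_uf (h.congr fun e => ?_)
  by_cases h1 : e.2.2.2.2.1 < M.nY <;> by_cases h2 : D.good e.2.2.2.2.1 <;> simp [h1, h2]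

/-- acceptance -/
def fam8 (hT : UF Γ₁ T) : Kind Γ₀ Γ₁ where
  G e := e.2.2.2.2.1 < M.nY ∧ ¬ D.good e.2.2.2.2.1
  A e := 2 * vv (T e.2.2.2.2.2) D.k₁ 0 e.2.2.2.2.1 + 1
  B e := 2 * vv (T e.2.2.2.2.2) D.k₁ 0 e.2.2.2.2.1 + 1
  C e := 2 * vv (T e.2.2.2.2.2) D.k₁ 0 e.2.2.2.2.1 + 1
  hG := up_bad M D
  hA := (UF.vv (e_x hT) (UF.const _) (UF.const _) e_a).neg
  hB := (UF.vv (e_x hT) (UF.const _) (UF.const _) e_a).neg
  hC := (UF.vv (e_x hT) (UF.const _) (UF.const _) e_a).neg

/-- all the families -/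
def fams [Fintype Γ₀] (hT : UF Γ₁ T) (hB : UF Γ₁ B) : List (Kind Γ₀ Γ₁) :=
  [fam0 M T hT, fam1 M T hT, fam2 M T hT, fam3 M D, fam4 M D T B hT hB, fam5 M D, fam6 M D B hB,
    fam7 M D B hB, fam8 M D T hT]

/-- bound for all the parameters -/
def RR (x : List Γ₀) : ℕ := T x + (M.nK + M.nC + M.nY + 11)

end families

/-- valid configurations -/
def NM.Valid (M : NM) (f : ℕ → ℕ → ℕ) : Prop := f M.nK 0 < M.nC ∧ ∀ k < M.nK, ∀ i, f k i < M.nY

theorem NM.Valid.step {M : NM} {f : ℕ → ℕ → ℕ} (h : M.Valid f) : M.Valid (M.step f) := by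
  have hts := M.ts_lt _ h.1
  refine ⟨?_, ?_⟩
  · unfold NM.step
    rw [if_neg (lt_irrefl _)]
    exact M.nx_lt _ h.1 _ (h.2 _ hts _)
  · intro k hk i
    unfold NM.step
    rw [if_pos hk]
    have hop := M.op_lt _ h.1 k hk
    have h2 := h.2 k hk
    split_ifs
    · exact h2 _
    · exact h2 _
    · omega
    · exact h2 _

theorem Acc.valid_init {M : NM} (D : Acc Γ₀ M) (x : List Γ₀) (w : List Bool) :
    M.Valid (D.init x w) := by
  refine ⟨?_, ?_⟩
  · unfold Acc.init
    rw [if_neg (lt_irrefl _)]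
    exact D.c₀_lt
  · intro k hk i
    unfold Acc.init
    rw [if_pos hk]
    split_ifs
    · cases hg : (x.map D.inY ++ w.map D.wY)[i]? with
      | none => exact D.y₀_lt
      | some y =>
        have hy := List.mem_of_getElem? hg
        rw [List.mem_append, List.mem_map, List.mem_map] at hy
        rcases hy with ⟨g, _, rfl⟩ | ⟨b, _, rfl⟩
        · exact D.inY_lt g
        · exact D.wY_lt b
    · exact D.y₀_lt

theorem NM.valid_iter {M : NM} {f : ℕ → ℕ → ℕ} (h : M.Valid f) (t : ℕ) :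
    M.Valid (M.step^[t] f) := by
  induction t with
  | zero => exact h
  | succ t ih => rw [iterate_succ_apply']; exact ih.step

/-- accepting runs give satisfying assignments -/
theorem tableau_sat [Fintype Γ₀] (M : NM) (D : Acc Γ₀ M) {T B : List Γ₀ → ℕ} (hT : UF Γ₁ T)
    (hB : UF Γ₁ B) {n m : List Γ₀ → ℕ} (x : List Γ₀) (w : List Bool) (hw : w.length ≤ B x)
    (hg : D.good (M.step^[T x] (D.init x w) D.k₁ 0)) :
    (famF n m (fams M D T B hT hB) x).Sat := by
  set f : ℕ → ℕ → ℕ → ℕ := fun t => M.step^[t] (D.init x w) with hf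
  have hstep : ∀ t, f (t + 1) = M.step (f t) := fun t => by
    simp only [hf]
    rw [iterate_succ_apply']
  have h0 : f 0 = D.init x w := rfl
  have hval : ∀ t, M.Valid (f t) := fun t => NM.valid_iter (D.valid_init x w) t
  let τ : ℕ → Bool := fun v => decide (f (Nat.unpair (Nat.unpair v).1).1
    (Nat.unpair (Nat.unpair v).1).2 (Nat.unpair (Nat.unpair v).2).1
      = (Nat.unpair (Nat.unpair v).2).2)
  have hτ : ∀ t k i a, τ (vv t k i a) = decide (f t k i = a) := by
    intro t k i a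
    simp [τ, vv]
  have hpos : ∀ t k i a, LitTrue τ (2 * vv t k i a) ↔ f t k i = a := by
    intro t k i a
    rw [litTrue_pos, hτ, decide_eq_true_eq]
  have hneg : ∀ t k i a, LitTrue τ (2 * vv t k i a + 1) ↔ f t k i ≠ a := by
    intro t k i a
    rw [litTrue_neg, hτ, decide_eq_false_iff_not]
  have hlen : (x.map D.inY ++ w.map D.wY).length = x.length + w.length := by simp
  refine sat_of _ x τ ?_
  intro K hK t k i c a hG
  simp only [fams, List.mem_cons, List.not_mem_nil, or_false] at hK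
  rcases hK with rfl | rfl | rfl | rfl | rfl | rfl | rfl | rfl | rfl
  · -- control
    simp only [fam0] at hG ⊢
    obtain ⟨_, hc, ha⟩ := hG
    rw [hneg, hneg, hpos]
    by_cases h1 : f t M.nK 0 = c
    · by_cases h2 : f t (M.ts' c) 0 = a
      · right; right
        rw [hstep]
        unfold NM.step
        rw [if_neg (lt_irrefl _), h1]
        have : M.ts c = M.ts' c := by unfold NM.ts'; rw [if_pos hc]
        rw [this, h2]
        unfold NM.nx'
        rw [if_pos ⟨hc, ha⟩]
      · exact Or.inr (Or.inl h2)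
    · exact Or.inl h1
  · simp only [fam1] at hG ⊢
    obtain ⟨_, hk, _, hc, ha⟩ := hG
    rw [hneg, hneg, hpos]
    by_cases h1 : f t M.nK 0 = c
    · have hop : M.op' c k = M.op c k := by unfold NM.op'; rw [if_pos ⟨hc, hk⟩]
      rw [hop, hstep]
      right
      by_cases h2 : f t k (i + if M.op c k = 1 then 1 else 0) = a
      · right
        unfold NM.step
        rw [if_pos hk, h1]
        by_cases e0 : M.op c k = 0
        · rw [if_pos e0]
          rw [e0] at h2 ⊢
          simpa using h2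
        · rw [if_neg e0]
          by_cases e1 : M.op c k = 1
          · rw [if_pos e1]
            rw [e1] at h2 ⊢
            simpa using h2
          · have e2 : 2 ≤ M.op c k := by omega
            rw [if_neg e1] at h2 ⊢
            rw [if_pos e2]
            rw [if_neg (by omega)]
            simpa using h2
      · left; exact h2
    · exact Or.inl h1
  · simp only [fam2] at hG ⊢
    obtain ⟨_, hk, hc, h2⟩ := hG
    rw [hneg, hpos]
    by_cases h1 : f t M.nK 0 = c
    · have hop : M.op' c k = M.op c k := by unfold NM.op'; rw [if_pos ⟨hc, hk⟩]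
      rw [hop] at h2 ⊢
      right; left
      rw [hstep]
      unfold NM.step
      rw [if_pos hk, h1, if_neg (by omega), if_neg (by omega), if_pos rfl]
    · exact Or.inl h1
  · simp only [fam3]
    left
    rw [hpos, h0]
    unfold Acc.init
    rw [if_neg (lt_irrefl _)]
  · simp only [fam4] at hG ⊢
    obtain ⟨hk, _, hor⟩ := hG
    left
    rw [hpos, h0]
    unfold Acc.init
    rw [if_pos hk]
    split_ifs with h1
    · rcases hor with h2 | h2
      · exact absurd h1 h2
      · rw [List.getElem?_eq_none (by rw [hlen]; omega)]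
        rfl
    · rfl
  · simp only [fam5] at hG ⊢
    left
    rw [hpos, h0]
    unfold Acc.init
    rw [if_pos D.k₀_lt, if_pos rfl, List.getElem?_append_left (by simpa using hG),
      List.getElem?_map]
    rfl
  · simp only [fam6] at hG ⊢
    obtain ⟨h1, h2⟩ := hG
    rw [hpos, hpos, hpos, h0]
    unfold Acc.init
    rw [if_pos D.k₀_lt, if_pos rfl, List.getElem?_append_right (by simpa using h1),
      List.getElem?_map]
    cases hwi : w[i - (x.map D.inY).length]? with
    | none => left; rfl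
    | some b =>
      right
      cases b with
      | true => left; rfl
      | false => right; rfl
  · simp only [fam7] at hG ⊢
    obtain ⟨h1, h2⟩ := hG
    rw [hneg, hpos, h0]
    unfold Acc.init
    rw [if_pos D.k₀_lt, if_pos rfl, List.getElem?_append_right (by simpa using h1),
      List.getElem?_map, if_pos D.k₀_lt, if_pos rfl,
      List.getElem?_append_right (by simp only [List.length_map]; omega), List.getElem?_map]
    cases hwi : w[i - (x.map D.inY).length]? with
    | some b =>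
      left
      exact D.wY_ne b
    | none =>
      right; left
      rw [List.getElem?_eq_none_iff] at hwi
      rw [List.getElem?_eq_none (by omega)]
      rfl
  · simp only [fam8] at hG ⊢
    left
    rw [hneg]
    intro h1
    exact hG.2 (h1 ▸ hg)

/-- satisfying assignments give accepting runs -/
theorem sat_tableau [Fintype Γ₀] (M : NM) (D : Acc Γ₀ M) {T B : List Γ₀ → ℕ} (hT : UF Γ₁ T)
    (hB : UF Γ₁ B) {n m : List Γ₀ → ℕ} (x : List Γ₀) (hTB : x.length + B x ≤ T x)
    (hn : RR M T x ^ 4 ≤ n x) (hm : RR M T x ^ 8 ≤ m x)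
    (hsat : (famF n m (fams M D T B hT hB) x).Sat) :
    ∃ w : List Bool, w.length ≤ B x ∧ D.good (M.step^[T x] (D.init x w) D.k₁ 0) := by
  set R := RR M T x with hR
  have hRe : R = T x + (M.nK + M.nC + M.nY + 11) := rfl
  obtain ⟨τ, hτ⟩ := of_sat hm (by simp only [fams, List.length_cons, List.length_nil]; omega) hsat
  have bnd : ∀ t k i a, t < R → k < R → i < R → a < R → 2 * vv t k i a + 1 < 2 * n x := by
    intro t k i a h1 h2 h3 h4
    have := vv_lt h1 h2 h3 h4
    omega
  have bnd' : ∀ t k i a, t < R → k < R → i < R → a < R → 2 * vv t k i a < 2 * n x := by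
    intro t k i a h1 h2 h3 h4
    have := vv_lt h1 h2 h3 h4
    omega
  have hy₀ := D.y₀_lt
  have hk₀ := D.k₀_lt
  have hk₁ := D.k₁_lt
  -- the clauses
  have H0 : ∀ t < T x, ∀ c < M.nC, ∀ a < M.nY, τ (vv t M.nK 0 c) = true →
      τ (vv t (M.ts c) 0 a) = true → τ (vv (t + 1) M.nK 0 (M.nx c a)) = true := by
    intro t ht c hc a ha h1 h2
    have e1 : M.ts' c = M.ts c := by unfold NM.ts'; rw [if_pos hc]
    have e2 : M.nx' c a = M.nx c a := by unfold NM.nx'; rw [if_pos ⟨hc, ha⟩]
    have b1 := M.ts_lt c hc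
    have b2 := M.nx_lt c hc a ha
    have := hτ (fam0 M T hT) (by simp [fams]) t (by omega) 0 (by omega) 0 (by omega) c (by omega)
      a (by omega) ⟨ht, hc, ha⟩ (bnd t M.nK 0 c (by omega) (by omega) (by omega) (by omega))
      (by
        show 2 * vv t (M.ts' c) 0 a + 1 < _
        rw [e1]; exact bnd _ _ _ _ (by omega) (by omega) (by omega) (by omega))
      (by
        show 2 * vv (t + 1) M.nK 0 (M.nx' c a) < _
        rw [e2]; exact bnd' _ _ _ _ (by omega) (by omega) (by omega) (by omega))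
    simp only [fam0, litTrue_neg, litTrue_pos, e1, e2, h1, h2] at this
    simpa using this
  have H1 : ∀ t < T x, ∀ k < M.nK, ∀ i < T x + 1, ∀ c < M.nC, ∀ a < M.nY,
      τ (vv t M.nK 0 c) = true →
      τ (vv t k (i + if M.op c k = 1 then 1 else 0) a) = true →
      τ (vv (t + 1) k (i + if 2 ≤ M.op c k then 1 else 0) a) = true := by
    intro t ht k hk i hi c hc a ha h1 h2
    have e1 : M.op' c k = M.op c k := by unfold NM.op'; rw [if_pos ⟨hc, hk⟩]
    have := hτ (fam1 M T hT) (by simp [fams]) t (by omega) k (by omega) i (by omega) c (by omega)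
      a (by omega) ⟨ht, hk, hi, hc, ha⟩ (bnd t M.nK 0 c (by omega) (by omega) (by omega)
        (by omega))
      (bnd t k (i + if M.op' c k = 1 then 1 else 0) a (by omega) (by omega)
        (by split_ifs <;> omega) (by omega))
      (bnd' (t + 1) k (i + if 2 ≤ M.op' c k then 1 else 0) a (by omega) (by omega)
        (by split_ifs <;> omega) (by omega))
    simp only [fam1, litTrue_neg, litTrue_pos, e1, h1, h2] at this
    simpa using this
  have H2 : ∀ t < T x, ∀ k < M.nK, ∀ c < M.nC, 2 ≤ M.op c k → τ (vv t M.nK 0 c) = true →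
      τ (vv (t + 1) k 0 (M.op c k - 2)) = true := by
    intro t ht k hk c hc h0 h1
    have e1 : M.op' c k = M.op c k := by unfold NM.op'; rw [if_pos ⟨hc, hk⟩]
    have b1 := M.op_lt c hc k hk
    have b2 : 2 * vv (t + 1) k 0 (M.op' c k - 2) < 2 * n x := by
      rw [e1]; exact bnd' _ _ _ _ (by omega) (by omega) (by omega) (by omega)
    have := hτ (fam2 M T hT) (by simp [fams]) t (by omega) k (by omega) 0 (by omega) c (by omega)
      0 (by omega) ⟨ht, hk, hc, by
        show 2 ≤ M.op' c k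
        rw [e1]; exact h0⟩
      (bnd t M.nK 0 c (by omega) (by omega) (by omega) (by omega)) b2 b2
    simp only [fam2, litTrue_neg, litTrue_pos, e1, h1] at this
    simpa using this
  have H3 : τ (vv 0 M.nK 0 D.c₀) = true := by
    have b0 := D.c₀_lt
    have b1 : 2 * vv 0 M.nK 0 D.c₀ < 2 * n x :=
      bnd' _ _ _ _ (by omega) (by omega) (by omega) (by omega)
    have := hτ (fam3 M D) (by simp [fams]) 0 (by omega) 0 (by omega) 0 (by omega) 0 (by omega)
      0 (by omega) trivial b1 b1 b1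
    simp only [fam3, litTrue_pos] at this
    simpa using this
  have H4 : ∀ k < M.nK, ∀ i < T x + 1, (¬ k = D.k₀ ∨ x.length + B x ≤ i) →
      τ (vv 0 k i D.y₀) = true := by
    intro k hk i hi h
    have b1 : 2 * vv 0 k i D.y₀ < 2 * n x :=
      bnd' _ _ _ _ (by omega) (by omega) (by omega) (by omega)
    have := hτ (fam4 M D T B hT hB) (by simp [fams]) 0 (by omega) k (by omega) i (by omega) 0
      (by omega) 0 (by omega) ⟨hk, hi, h⟩ b1 b1 b1
    simp only [fam4, litTrue_pos] at this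
    simpa using this
  have H5 : ∀ i < x.length, τ (vv 0 D.k₀ i (D.tab (x[i]?))) = true := by
    intro i hi
    have b0 : D.tab (x[i]?) < M.nY := by
      rw [List.getElem?_eq_getElem hi]
      exact D.inY_lt _
    have b1 : 2 * vv 0 D.k₀ i (D.tab (x[i]?)) < 2 * n x :=
      bnd' _ _ _ _ (by omega) (by omega) (by omega) (by omega)
    have := hτ (fam5 M D) (by simp [fams]) 0 (by omega) 0 (by omega) i (by omega) 0
      (by omega) 0 (by omega) hi b1 b1 b1
    simp only [fam5, litTrue_pos] at this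
    simpa using this
  have hwt := D.wY_lt true
  have hwf := D.wY_lt false
  have H6 : ∀ i, x.length ≤ i → i < x.length + B x → τ (vv 0 D.k₀ i D.y₀) = true ∨
      τ (vv 0 D.k₀ i (D.wY true)) = true ∨ τ (vv 0 D.k₀ i (D.wY false)) = true := by
    intro i h1 h2
    have := hτ (fam6 M D B hB) (by simp [fams]) 0 (by omega) 0 (by omega) i (by omega) 0
      (by omega) 0 (by omega) ⟨h1, h2⟩
      (bnd' 0 D.k₀ i D.y₀ (by omega) (by omega) (by omega) (by omega))
      (bnd' 0 D.k₀ i (D.wY true) (by omega) (by omega) (by omega) (by omega))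
      (bnd' 0 D.k₀ i (D.wY false) (by omega) (by omega) (by omega) (by omega))
    simpa only [fam6, litTrue_pos] using this
  have H7 : ∀ i, x.length ≤ i → i < x.length + B x → τ (vv 0 D.k₀ i D.y₀) = true →
      τ (vv 0 D.k₀ (i + 1) D.y₀) = true := by
    intro i h1 h2 h3
    have b1 : 2 * vv 0 D.k₀ (i + 1) D.y₀ < 2 * n x :=
      bnd' _ _ _ _ (by omega) (by omega) (by omega) (by omega)
    have := hτ (fam7 M D B hB) (by simp [fams]) 0 (by omega) 0 (by omega) i (by omega) 0
      (by omega) 0 (by omega) ⟨h1, h2⟩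
      (bnd 0 D.k₀ i D.y₀ (by omega) (by omega) (by omega) (by omega)) b1 b1
    simp only [fam7, litTrue_neg, litTrue_pos, h3] at this
    simpa using this
  have H8 : ∀ a < M.nY, ¬ D.good a → τ (vv (T x) D.k₁ 0 a) = false := by
    intro a h1 h2
    have b1 : 2 * vv (T x) D.k₁ 0 a + 1 < 2 * n x :=
      bnd _ _ _ _ (by omega) (by omega) (by omega) (by omega)
    have := hτ (fam8 M D T hT) (by simp [fams]) 0 (by omega) 0 (by omega) 0 (by omega) 0
      (by omega) a (by omega) ⟨h1, h2⟩ b1 b1 b1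
    simp only [fam8, litTrue_neg] at this
    simpa using this
  clear hτ
  -- the witness
  have hex : ∃ d, τ (vv 0 D.k₀ (x.length + d) D.y₀) = true :=
    ⟨B x, H4 _ hk₀ _ (by omega) (Or.inr le_rfl)⟩
  classical
  set d₀ := Nat.find hex with hd₀
  have hd1 : τ (vv 0 D.k₀ (x.length + d₀) D.y₀) = true := Nat.find_spec hex
  have hd2 : ∀ d < d₀, ¬ τ (vv 0 D.k₀ (x.length + d) D.y₀) = true := fun d hd => Nat.find_min hex hd
  have hd3 : d₀ ≤ B x := Nat.find_min' hex (H4 _ hk₀ _ (by omega) (Or.inr le_rfl))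
  set w : List Bool := (List.range d₀).map fun d => τ (vv 0 D.k₀ (x.length + d) (D.wY true))
    with hw
  have hwl : w.length = d₀ := by rw [hw]; simp
  refine ⟨w, by omega, ?_⟩
  -- blanks after the witness
  have hbl : ∀ j, d₀ + j ≤ B x → τ (vv 0 D.k₀ (x.length + (d₀ + j)) D.y₀) = true := by
    intro j
    induction j with
    | zero => intro _; exact hd1
    | succ j ih =>
      intro hj
      exact H7 (x.length + (d₀ + j)) (by omega) (by omega) (ih (by omega))
  -- initial configuration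
  have hinit : ∀ k < M.nK, ∀ i, i ≤ T x → τ (vv 0 k i (D.init x w k i)) = true := by
    intro k hk i hi
    unfold Acc.init
    rw [if_pos hk]
    by_cases h1 : k = D.k₀
    · rw [if_pos h1]
      subst h1
      by_cases h2 : i < x.length
      · rw [List.getElem?_append_left (by simpa using h2), List.getElem?_map]
        exact H5 i h2
      · rw [List.getElem?_append_right (by simp only [List.length_map]; omega),
          List.getElem?_map, List.length_map]
        by_cases h3 : i - x.length < d₀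
        · have e : w[i - x.length]? = some (τ (vv 0 D.k₀ i (D.wY true))) := by
            rw [hw, List.getElem?_map, List.getElem?_range h3]
            simp only [Option.map_some]
            congr 4
            omega
          rw [e]
          simp only [Option.map_some, Option.getD_some]
          have h5 := hd2 _ h3
          have e2 : x.length + (i - x.length) = i := by omega
          rw [e2] at h5
          have h6 := H6 i (by omega) (by omega)
          cases h4 : τ (vv 0 D.k₀ i (D.wY true)) with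
          | true => exact h4
          | false =>
            rcases h6 with h6 | h6 | h6
            · exact absurd h6 h5
            · rw [h4] at h6; exact absurd h6 (by simp)
            · exact h6
        · have e : w[i - x.length]? = none := List.getElem?_eq_none (by omega)
          rw [e]
          simp only [Option.map_none, Option.getD_none]
          by_cases h4 : i ≤ x.length + B x
          · have := hbl (i - x.length - d₀) (by omega)
            have e2 : x.length + (d₀ + (i - x.length - d₀)) = i := by omega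
            rwa [e2] at this
          · exact H4 _ hk i (by omega) (Or.inr (by omega))
    · rw [if_neg h1]
      exact H4 k hk i (by omega) (Or.inl h1)
  -- the run
  have hrun : ∀ t, t ≤ T x → τ (vv t M.nK 0 (M.step^[t] (D.init x w) M.nK 0)) = true ∧
      ∀ k < M.nK, ∀ i, i + t ≤ T x → τ (vv t k i (M.step^[t] (D.init x w) k i)) = true := by
    intro t
    induction t with
    | zero =>
      intro _
      refine ⟨?_, fun k hk i hi => hinit k hk i (by omega)⟩
      have : M.step^[0] (D.init x w) M.nK 0 = D.c₀ := by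
        show D.init x w M.nK 0 = D.c₀
        unfold Acc.init
        rw [if_neg (lt_irrefl _)]
      rw [this]
      exact H3
    | succ t ih =>
      intro ht
      obtain ⟨i1, i2⟩ := ih (by omega)
      have hv := NM.valid_iter (D.valid_init x w) t
      rw [iterate_succ_apply']
      set f := M.step^[t] (D.init x w) with hf
      have hts := M.ts_lt _ hv.1
      refine ⟨?_, ?_⟩
      · have e : M.step f M.nK 0 = M.nx (f M.nK 0) (f (M.ts (f M.nK 0)) 0) := by
          unfold NM.step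
          rw [if_neg (lt_irrefl _)]
        rw [e]
        exact H0 t (by omega) _ hv.1 _ (hv.2 _ hts _) i1 (i2 _ hts 0 (by omega))
      · intro k hk i hi
        unfold NM.step
        rw [if_pos hk]
        by_cases e0 : M.op (f M.nK 0) k = 0
        · rw [if_pos e0]
          have := H1 t (by omega) k hk i (by omega) _ hv.1 (f k i) (hv.2 k hk i) i1
            (by rw [e0]; simpa using i2 k hk i (by omega))
          rw [e0] at this
          simpa using this
        · rw [if_neg e0]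
          by_cases e1 : M.op (f M.nK 0) k = 1
          · rw [if_pos e1]
            have := H1 t (by omega) k hk i (by omega) _ hv.1 (f k (i + 1)) (hv.2 k hk _) i1
              (by rw [e1]; simpa using i2 k hk (i + 1) (by omega))
            rw [e1] at this
            simpa using this
          · rw [if_neg e1]
            by_cases hi0 : i = 0
            · rw [if_pos hi0, hi0]
              exact H2 t (by omega) k hk _ hv.1 (by omega) i1
            · rw [if_neg hi0]
              have := H1 t (by omega) k hk (i - 1) (by omega) _ hv.1 (f k (i - 1)) (hv.2 k hk _) i1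
                (by rw [if_neg e1]; exact i2 k hk (i - 1) (by omega))
              rw [if_pos (by omega)] at this
              have e2 : i - 1 + 1 = i := by omega
              rwa [e2] at this
  by_contra hng
  have h1 := (hrun (T x) le_rfl).2 _ hk₁ 0 (by omega)
  have h2 := H8 _ ((NM.valid_iter (D.valid_init x w) (T x)).2 _ hk₁ 0) hng
  rw [h2] at h1
  exact absurd h1 (by simp)

end Pool.Agent.H.MP_84f0af_lc
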