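import Pool.Agent.H.MP_84f0af_lc.Stk

/-!
Functions of an input string and of numbers written in unary which are computable in
polynomial time on the stacks.
-/

namespace Pool.Agent.H.MP_84f0af_lc

open Function

/-- environments: an input string and some numbers -/
class Env (τ : Type) (Γ₀ : outParam Type) where
  inp : τ → List Γ₀
  k : ℕ
  val : τ → ℕ → ℕ

/-- put a value in front of a sequence -/
def ncons {α : Type} (x : α) (f : ℕ → α) : ℕ → α
  | 0 => x
  | i + 1 => f i

instance Env.base (Γ₀ : Type) : Env (List Γ₀) Γ₀ where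
  inp := id
  k := 0
  val := fun _ _ => 0

instance Env.cons (τ Γ₀ : Type) [Env τ Γ₀] : Env (ℕ × τ) Γ₀ where
  inp := fun p => Env.inp p.2
  k := Env.k τ + 1
  val := fun p => ncons p.1 (Env.val p.2)

variable {Γ₀ Γ₁ τ : Type} [Env τ Γ₀]

/-- size of an environment -/
def esize (t : τ) : ℕ := (Env.inp t).length + ∑ i ∈ Finset.range (Env.k τ), Env.val t i

theorem esize_cons (n : ℕ) (t : τ) : esize (n, t) = n + esize t := by
  unfold esize
  show (Env.inp t).length + ∑ i ∈ Finset.range (Env.k τ + 1), ncons n (Env.val t) i = _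
  rw [Finset.sum_range_succ']
  simp only [ncons]
  omega

theorem val_le_esize (t : τ) {i : ℕ} (hi : i < Env.k τ) : Env.val t i ≤ esize t := by
  unfold esize
  have := Finset.single_le_sum (f := Env.val t) (fun _ _ => Nat.zero_le _) (Finset.mem_range.2 hi)
  omega

theorem len_le_esize (t : τ) : (Env.inp t).length ≤ esize t := Nat.le_add_right _ _

/-! ### Polynomially bounded functions -/

/-- polynomially bounded -/
def PB (f : τ → ℕ) : Prop := ∃ e, ∀ t, f t ≤ (esize t + 2) ^ e

theorem pow_mono_e {N a b : ℕ} (h : a ≤ b) : (N + 2) ^ a ≤ (N + 2) ^ b :=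
  Nat.pow_le_pow_right (by omega) h

theorem PB.of_le {f g : τ → ℕ} (hg : PB g) (h : ∀ t, f t ≤ g t) : PB f := by
  obtain ⟨e, he⟩ := hg
  exact ⟨e, fun t => (h t).trans (he t)⟩

theorem PB.const (c : ℕ) : PB (fun _ : τ => c) :=
  ⟨c, fun t => le_trans (Nat.lt_two_pow_self).le (Nat.pow_le_pow_left (by omega) c)⟩

theorem PB.size : PB (fun t : τ => esize t) :=
  ⟨1, fun t => by show esize t ≤ _; rw [pow_one]; omega⟩

theorem PB.mul {f g : τ → ℕ} (hf : PB f) (hg : PB g) : PB (fun t => f t * g t) := by
  obtain ⟨e, he⟩ := hf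
  obtain ⟨e', he'⟩ := hg
  exact ⟨e + e', fun t => by rw [pow_add]; exact Nat.mul_le_mul (he t) (he' t)⟩

theorem PB.add {f g : τ → ℕ} (hf : PB f) (hg : PB g) : PB (fun t => f t + g t) := by
  obtain ⟨e, he⟩ := hf
  obtain ⟨e', he'⟩ := hg
  refine ⟨e + e' + 1, fun t => ?_⟩
  have h1 := (he t).trans (pow_mono_e (N := esize t) (show e ≤ e + e' by omega))
  have h2 := (he' t).trans (pow_mono_e (N := esize t) (show e' ≤ e + e' by omega))
  calc f t + g t ≤ (esize t + 2) ^ (e + e') + (esize t + 2) ^ (e + e') := Nat.add_le_add h1 h2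
    _ = (esize t + 2) ^ (e + e') * 2 := by ring
    _ ≤ (esize t + 2) ^ (e + e') * (esize t + 2) := Nat.mul_le_mul_left _ (by omega)
    _ = (esize t + 2) ^ (e + e' + 1) := by rw [pow_succ]

theorem PB.pow {f : τ → ℕ} (hf : PB f) (c : ℕ) : PB (fun t => f t ^ c) := by
  obtain ⟨e, he⟩ := hf
  exact ⟨e * c, fun t => by rw [pow_mul]; exact Nat.pow_le_pow_left (he t) c⟩

/-- uniform bound of a polynomially bounded function for small first argument -/
theorem PB.unif {F : ℕ × τ → ℕ} (hF : PB F) {g : τ → ℕ} (hg : PB g) :
    ∃ M : τ → ℕ, PB M ∧ ∀ t, ∀ i ≤ g t, F (i, t) ≤ M t := by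
  obtain ⟨e, he⟩ := hF
  refine ⟨fun t => (g t + esize t + 2) ^ e, ((hg.add PB.size).add (PB.const 2)).pow e, ?_⟩
  intro t i hi
  refine (he (i, t)).trans (Nat.pow_le_pow_left ?_ e)
  rw [esize_cons]
  omega

theorem PB.unif2 {F : ℕ × ℕ × τ → ℕ} (hF : PB F) {g h : τ → ℕ} (hg : PB g) (hh : PB h) :
    ∃ M : τ → ℕ, PB M ∧ ∀ t, ∀ i ≤ g t, ∀ j ≤ h t, F (i, j, t) ≤ M t := by
  obtain ⟨e, he⟩ := hF
  refine ⟨fun t => (g t + h t + esize t + 2) ^ e,
    (((hg.add hh).add PB.size).add (PB.const 2)).pow e, ?_⟩
  intro t i hi j hj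
  refine (he (i, j, t)).trans (Nat.pow_le_pow_left ?_ e)
  rw [esize_cons, esize_cons]
  omega

theorem PB.comp {F : ℕ × τ → ℕ} (hF : PB F) {g : τ → ℕ} (hg : PB g) :
    PB (fun t => F (g t, t)) := by
  obtain ⟨M, hM, hM'⟩ := hF.unif hg
  exact hM.of_le fun t => hM' t _ le_rfl

theorem PB.weak {f : τ → ℕ} (hf : PB f) : PB (fun p : ℕ × τ => f p.2) := by
  obtain ⟨e, he⟩ := hf
  refine ⟨e, fun p => (he p.2).trans (Nat.pow_le_pow_left ?_ e)⟩
  rw [show p = (p.1, p.2) from rfl, esize_cons]
  show esize p.2 + 2 ≤ _
  omega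

/-! ### Alphabet -/

/-- internal symbols: a mark, the input symbols and the output symbols -/
abbrev Sy (Γ₀ Γ₁ : Type) := Option (Γ₀ ⊕ Γ₁)

/-- the mark -/
abbrev mkS {Γ₀ Γ₁ : Type} : Sy Γ₀ Γ₁ := none

/-- input symbol -/
def inS (Γ₁ : Type) {Γ₀ : Type} (x : Γ₀) : Sy Γ₀ Γ₁ := some (Sum.inl x)

/-- output symbol -/
def outS (Γ₀ : Type) {Γ₁ : Type} (y : Γ₁) : Sy Γ₀ Γ₁ := some (Sum.inr y)

/-- unary notation of a number -/
def un {Γ₀ Γ₁ : Type} (n : ℕ) : List (Sy Γ₀ Γ₁) := List.replicate n mkS

@[simp] theorem un_zero : (un 0 : List (Sy Γ₀ Γ₁)) = [] := rfl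
theorem un_succ (n : ℕ) : (un (n + 1) : List (Sy Γ₀ Γ₁)) = mkS :: un n := rfl
@[simp] theorem un_length (n : ℕ) : (un n : List (Sy Γ₀ Γ₁)).length = n := by simp [un]
@[simp] theorem un_reverse (n : ℕ) : (un n : List (Sy Γ₀ Γ₁)).reverse = un n := by simp [un]
theorem un_append (n m : ℕ) : (un n : List (Sy Γ₀ Γ₁)) ++ un m = un (n + m) := by
  simp [un]

/-! ### Basic programs -/

section basic
variable {A : Type}

def nonemp : Option A → Bool := fun o => o.isSome

/-- move everything from `r` to `s` (reversing) -/
def moveAll (r s : ℕ) : Cmd A := .loop r nonemp (.move r s)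

/-- move everything from `r` to both `s` and `t` (reversing) -/
def dupAll (r s t : ℕ) : Cmd A := .loop r nonemp (.dup r s t)

def clear (r : ℕ) : Cmd A := .loop r nonemp (.pop r)

theorem Run.congr {c : Cmd A} {S S' S'' : Sto A} {n : ℕ} (h : Run c S n S') (e : S' = S'') :
    Run c S n S'' := e ▸ h

theorem run_moveAll {r s : ℕ} (hrs : r ≠ s) : ∀ (l : List A) (S : Sto A), S r = l →
    Run (moveAll r s) S (2 * l.length + 1) (update (update S r []) s (l.reverse ++ S s)) := by
  intro l
  induction l with
  | nil =>
    intro S hS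
    refine (Run.loop_false (by rw [hS]; rfl)).congr ?_
    funext k
    simp only [update_apply]
    split_ifs with k1 k2
    · rw [k1]; simp
    · rw [k2, hS]
    · rfl
  | cons a l ih =>
    intro S hS
    have h1 := ih (update (update S r l) s (a :: S s)) (by
      rw [update_of_ne hrs, update_self])
    have h2 : Run (.move r s) S 1 (update (update S r l) s (a :: S s)) := by
      refine (Run.move r s S).congr ?_
      unfold doMove
      rw [hS]
      simp only
      rw [update_of_ne hrs.symm]
    have h3 := (Run.loop_true (p := nonemp) (by rw [hS]; rfl) h2 h1)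
    have e : 2 * (a :: l).length + 1 = 1 + (1 + (2 * l.length + 1)) := by
      rw [List.length_cons]; ring
    rw [e]
    refine h3.congr ?_
    clear h1 h2 h3 ih
    funext k
    simp only [update_apply]
    split_ifs with k1 k2
    · simp
    · rfl
    · rfl

theorem run_dupAll {r s t : ℕ} (hrs : r ≠ s) (hrt : r ≠ t) (hst : s ≠ t) :
    ∀ (l : List A) (S : Sto A), S r = l → Run (dupAll r s t) S (2 * l.length + 1)
      (update (update (update S r []) s (l.reverse ++ S s)) t (l.reverse ++ S t)) := by
  intro l
  induction l with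
  | nil =>
    intro S hS
    refine (Run.loop_false (by rw [hS]; rfl)).congr ?_
    funext k
    simp only [update_apply]
    split_ifs with k1 k2 k3
    · rw [k1]; simp
    · rw [k2]; simp
    · rw [k3, hS]
    · rfl
  | cons a l ih =>
    intro S hS
    have h1 := ih (update (update (update S r l) s (a :: S s)) t (a :: S t)) (by
      rw [update_of_ne hrt, update_of_ne hrs, update_self])
    have h2 : Run (.dup r s t) S 1 (update (update (update S r l) s (a :: S s)) t (a :: S t)) := by
      refine (Run.dup r s t S).congr ?_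
      unfold doDup
      rw [hS]
      simp only
      rw [update_of_ne hrs.symm, update_of_ne hst.symm, update_of_ne hrt.symm]
    have h3 := (Run.loop_true (p := nonemp) (by rw [hS]; rfl) h2 h1)
    have e : 2 * (a :: l).length + 1 = 1 + (1 + (2 * l.length + 1)) := by
      rw [List.length_cons]; ring
    rw [e]
    refine h3.congr ?_
    clear h1 h2 h3 ih
    funext k
    simp only [update_apply]
    split_ifs with k1 k2 k3 <;> first | rfl | simp

theorem run_clear {r : ℕ} : ∀ (l : List A) (S : Sto A), S r = l →
    Run (clear r) S (2 * l.length + 1) (update S r []) := by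
  intro l
  induction l with
  | nil =>
    intro S hS
    refine (Run.loop_false (by rw [hS]; rfl)).congr ?_
    rw [← hS, update_eq_self]
  | cons a l ih =>
    intro S hS
    have h1 := ih (update S r l) (by rw [update_self])
    have h2 : Run (.pop r) S 1 (update S r l) := by
      refine (Run.pop r S).congr ?_
      rw [hS]; rfl
    have h3 := (Run.loop_true (p := nonemp) (by rw [hS]; rfl) h2 h1)
    have e : 2 * (a :: l).length + 1 = 1 + (1 + (2 * l.length + 1)) := by
      rw [List.length_cons]; ring
    rw [e]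
    refine h3.congr ?_
    rw [update_idem]

/-- copy `r` to `s` using the empty register `t` -/
def copy (r s t : ℕ) : Cmd A := .seq (moveAll r t) (dupAll t r s)

theorem run_copy {r s t : ℕ} (hrs : r ≠ s) (hrt : r ≠ t) (hst : s ≠ t) {S : Sto A}
    (hs : S s = []) (ht : S t = []) :
    Run (copy r s t) S (4 * (S r).length + 2) (update S s (S r)) := by
  have h1 := run_moveAll hrt (S r) S rfl
  have h2 := run_dupAll hrt.symm hst.symm hrs (update (update S r []) t ((S r).reverse ++ S t) t)
    (update (update S r []) t ((S r).reverse ++ S t)) rfl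
  have h3 := Run.seq h1 h2
  have e : 4 * (S r).length + 2 = 2 * (S r).length + 1 +
      (2 * (update (update S r []) t ((S r).reverse ++ S t) t).length + 1) := by
    simp [ht]; ring
  rw [e]
  refine h3.congr ?_
  clear h1 h2 h3 e
  funext k
  simp only [update_apply, ht, hs, List.append_nil]
  split_ifs with k1 k2 k3 <;> first | rfl | (exfalso; omega) | simp_all

end basic

/-! ### The class -/

/-- the store `S` represents the environment `t`; the numbers are in the registers `a i`, the
registers from `b` on are empty -/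
structure Holds (Γ₁ : Type) (S : Sto (Sy Γ₀ Γ₁)) (t : τ) (a : ℕ → ℕ) (b : ℕ) : Prop where
  inp : S 0 = (Env.inp t).map (inS Γ₁)
  two : 2 ≤ b
  lo : ∀ i < Env.k τ, 2 ≤ a i
  hi : ∀ i < Env.k τ, a i < b
  val : ∀ i < Env.k τ, S (a i) = un (Env.val t i)
  emp : ∀ r, b ≤ r → S r = []

/-- computable in polynomial time -/
def UF (Γ₁ : Type) (f : τ → ℕ) : Prop :=
  ∃ (prog : (ℕ → ℕ) → ℕ → Cmd (Sy Γ₀ Γ₁)) (T : τ → ℕ), PB T ∧ (∀ t, f t ≤ T t) ∧
    ∀ a b t (S : Sto (Sy Γ₀ Γ₁)), Holds Γ₁ S t a b →
      ∃ n ≤ T t, Run (prog a b) S n (update S b (un (f t)))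

/-- output of a word on register `1` in polynomial time -/
def Emits (Γ₁ : Type) (w : τ → List Γ₁) : Prop :=
  ∃ (prog : (ℕ → ℕ) → ℕ → Cmd (Sy Γ₀ Γ₁)) (T : τ → ℕ), PB T ∧ (∀ t, (w t).length ≤ T t) ∧
    ∀ a b t (S : Sto (Sy Γ₀ Γ₁)), Holds Γ₁ S t a b →
      ∃ n ≤ T t, Run (prog a b) S n (update S 1 (((w t).map (outS Γ₀)).reverse ++ S 1))

theorem UF.pb {f : τ → ℕ} (h : UF Γ₁ f) : PB f := by
  obtain ⟨_, T, hT, hf, _⟩ := h
  exact hT.of_le hf

theorem UF.congr {f g : τ → ℕ} (h : UF Γ₁ f) (e : ∀ t, f t = g t) : UF Γ₁ g := by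
  have : f = g := funext e
  rwa [← this]

theorem Emits.congr {f g : τ → List Γ₁} (h : Emits Γ₁ f) (e : ∀ t, f t = g t) : Emits Γ₁ g := by
  have : f = g := funext e
  rwa [← this]

/-- writing a result in register `b` keeps the representation above `b` -/
theorem Holds.up {S : Sto (Sy Γ₀ Γ₁)} {t : τ} {a : ℕ → ℕ} {b : ℕ} (h : Holds Γ₁ S t a b)
    (x : List (Sy Γ₀ Γ₁)) : Holds Γ₁ (update S b x) t a (b + 1) where
  inp := by rw [update_of_ne (by have := h.two; omega)]; exact h.inp
  two := by have := h.two; omega
  lo := h.lo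
  hi := fun i hi => by have := h.hi i hi; omega
  val := fun i hi => by
    rw [update_of_ne (by have := h.hi i hi; omega)]; exact h.val i hi
  emp := fun r hr => by rw [update_of_ne (by omega)]; exact h.emp r (by omega)

/-- adding a variable -/
theorem Holds.cons {S : Sto (Sy Γ₀ Γ₁)} {t : τ} {a : ℕ → ℕ} {b : ℕ} (h : Holds Γ₁ S t a b)
    {r n : ℕ} (hr : 2 ≤ r) (hrb : r < b) (hn : S r = un n) :
    Holds Γ₁ S ((n, t) : ℕ × τ) (ncons r a) b where
  inp := h.inp
  two := h.two
  lo := fun i hi => by
    cases i with
    | zero => exact hr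
    | succ i => exact h.lo i (Nat.lt_of_succ_lt_succ hi)
  hi := fun i hi => by
    cases i with
    | zero => exact hrb
    | succ i => exact h.hi i (Nat.lt_of_succ_lt_succ hi)
  val := fun i hi => by
    cases i with
    | zero => exact hn
    | succ i => exact h.val i (Nat.lt_of_succ_lt_succ hi)
  emp := h.emp

theorem Holds.tail {S : Sto (Sy Γ₀ Γ₁)} {p : ℕ × τ} {a : ℕ → ℕ} {b : ℕ} (h : Holds Γ₁ S p a b) :
    Holds Γ₁ S p.2 (fun i => a (i + 1)) b where
  inp := h.inp
  two := h.two
  lo := fun i hi => h.lo (i + 1) (Nat.succ_lt_succ hi)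
  hi := fun i hi => h.hi (i + 1) (Nat.succ_lt_succ hi)
  val := fun i hi => h.val (i + 1) (Nat.succ_lt_succ hi)
  emp := h.emp

theorem UF.weak {f : τ → ℕ} (h : UF Γ₁ f) : UF Γ₁ (fun p : ℕ × τ => f p.2) := by
  obtain ⟨prog, T, hT, hf, hr⟩ := h
  exact ⟨fun a b => prog (fun i => a (i + 1)) b, fun p => T p.2, hT.weak, fun p => hf p.2,
    fun a b p S hS => hr _ b p.2 S hS.tail⟩

theorem UF.const (c : ℕ) : UF Γ₁ (fun _ : τ => c) := by
  induction c with
  | zero =>
    refine ⟨fun _ _ => .skip, fun _ => 1, PB.const 1, fun _ => Nat.zero_le _, ?_⟩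
    intro a b t S hS
    refine ⟨1, le_rfl, (Run.skip S).congr ?_⟩
    rw [un_zero, ← hS.emp b le_rfl, update_eq_self]
  | succ c ih =>
    obtain ⟨prog, T, hT, hf, hr⟩ := ih
    refine ⟨fun a b => .seq (prog a b) (.push b mkS), fun t => T t + 1, hT.add (PB.const 1),
      fun t => by have := hf t; beta_reduce at this ⊢; omega, ?_⟩
    intro a b t S hS
    beta_reduce
    obtain ⟨n, hn, hrun⟩ := hr a b t S hS
    refine ⟨n + 1, by omega, (Run.seq hrun (Run.push b mkS _)).congr ?_⟩
    rw [update_self, update_idem, un_succ]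

theorem UF.succ {f : τ → ℕ} (h : UF Γ₁ f) : UF Γ₁ (fun t => f t + 1) := by
  obtain ⟨prog, T, hT, hf, hr⟩ := h
  refine ⟨fun a b => .seq (prog a b) (.push b mkS), fun t => T t + 1, hT.add (PB.const 1),
    fun t => by have := hf t; beta_reduce; omega, ?_⟩
  intro a b t S hS
  beta_reduce
  obtain ⟨n, hn, hrun⟩ := hr a b t S hS
  refine ⟨n + 1, by omega, (Run.seq hrun (Run.push b mkS _)).congr ?_⟩
  rw [update_self, update_idem, un_succ]

theorem UF.fst : UF Γ₁ (fun p : ℕ × τ => p.1) := by
  refine ⟨fun a b => copy (a 0) b (b + 1), fun p => 4 * esize p + 2,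
    ((PB.const 4).mul PB.size).add (PB.const 2), ?_, ?_⟩
  · intro p
    beta_reduce
    rw [show esize p = esize (p.1, p.2) from rfl, esize_cons]
    omega
  · intro a b p S hS
    have h0 : 0 < Env.k (ℕ × τ) := Nat.succ_pos _
    have hv : S (a 0) = un p.1 := hS.val 0 h0
    have hlt := hS.hi 0 h0
    refine ⟨4 * (S (a 0)).length + 2, ?_, (run_copy (by omega) (by omega) (by omega)
      (hS.emp b le_rfl) (hS.emp (b + 1) (by omega))).congr ?_⟩
    · rw [hv, un_length]
      show 4 * p.1 + 2 ≤ 4 * esize (p.1, p.2) + 2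
      rw [esize_cons]
      omega
    · rw [hv]

/-- substitution -/
theorem UF.comp {F : ℕ × τ → ℕ} (hF : UF Γ₁ F) {g : τ → ℕ} (hg : UF Γ₁ g) :
    UF Γ₁ (fun t => F (g t, t)) := by
  obtain ⟨pF, TF, hTF, hFle, hFr⟩ := hF
  obtain ⟨pg, Tg, hTg, hgle, hgr⟩ := hg
  refine ⟨fun a b => .seq (pg a b) (.seq (pF (ncons b a) (b + 1))
      (.seq (clear b) (moveAll (b + 1) b))),
    fun t => Tg t + (TF (g t, t) + ((2 * Tg t + 1) + (2 * TF (g t, t) + 1))), ?_, ?_, ?_⟩
  · have hgb : PB g := hTg.of_le hgle
    have h1 : PB (fun t => TF (g t, t)) := hTF.comp hgb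
    exact hTg.add (h1.add ((((PB.const 2).mul hTg).add (PB.const 1)).add
      (((PB.const 2).mul h1).add (PB.const 1))))
  · intro t
    have := hFle (g t, t)
    beta_reduce
    omega
  · intro a b t S hS
    beta_reduce
    obtain ⟨n1, hn1, hr1⟩ := hgr a b t S hS
    have hS1 := hS.up (un (g t))
    have hS2 := hS1.cons (r := b) (n := g t) hS.two (by omega) (by rw [update_self])
    obtain ⟨n2, hn2, hr2⟩ := hFr (ncons b a) (b + 1) (g t, t) _ hS2
    have hr3 := run_clear (r := b) _ (update (update S b (un (g t))) (b + 1) (un (F (g t, t)))) rfl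
    have hr4 := run_moveAll (r := b + 1) (s := b) (by omega) _
      (update (update (update S b (un (g t))) (b + 1) (un (F (g t, t)))) b []) rfl
    refine ⟨_, ?_, (Run.seq hr1 (Run.seq hr2 (Run.seq hr3 hr4))).congr ?_⟩
    · rw [update_of_ne (by omega), update_self, update_of_ne (by omega), update_self]
      simp only [un_length]
      have h1 := hgle t
      have h2 := hFle (g t, t)
      omega
    · funext k
      by_cases h1 : k = b
      · subst h1; simp
      · by_cases h2 : k = b + 1
        · subst h2; simp [hS.emp (b + 1) (by omega)]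
        · simp [h1, h2]

/-- case distinction -/
theorem UF.ite0 {f g h : τ → ℕ} (hf : UF Γ₁ f) (hg : UF Γ₁ g) (hh : UF Γ₁ h) :
    UF Γ₁ (fun t => if f t = 0 then g t else h t) := by
  obtain ⟨pf, Tf, hTf, hfle, hfr⟩ := hf
  obtain ⟨pg, Tg, hTg, hgle, hgr⟩ := hg
  obtain ⟨ph, Th, hTh, hhle, hhr⟩ := hh
  refine ⟨fun a b => .seq (pf a b) (.ite b nonemp (.seq (clear b) (ph a b)) (pg a b)),
    fun t => Tf t + (1 + ((2 * Tf t + 1) + (Th t + Tg t))), ?_, ?_, ?_⟩
  · exact hTf.add ((PB.const 1).add ((((PB.const 2).mul hTf).add (PB.const 1)).add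
      (hTh.add hTg)))
  · intro t
    have := hgle t
    have := hhle t
    beta_reduce
    split_ifs <;> omega
  · intro a b t S hS
    beta_reduce
    obtain ⟨n1, hn1, hr1⟩ := hfr a b t S hS
    have hfle' := hfle t
    by_cases h0 : f t = 0
    · have hSb : update S b (un (f t)) = S := by
        rw [h0, un_zero, ← hS.emp b le_rfl, update_eq_self]
      rw [hSb] at hr1
      obtain ⟨n2, hn2, hr2⟩ := hgr a b t S hS
      refine ⟨n1 + (1 + n2), by omega, ?_⟩
      rw [if_pos h0]
      refine Run.seq hr1 (Run.ite_false ?_ hr2)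
      rw [hS.emp b le_rfl]; rfl
    · have hr2 := run_clear (r := b) _ (update S b (un (f t))) rfl
      have hSb : update (update S b (un (f t))) b [] = S := by
        rw [update_idem, ← hS.emp b le_rfl, update_eq_self]
      rw [hSb] at hr2
      obtain ⟨n2, hn2, hr3⟩ := hhr a b t S hS
      refine ⟨n1 + (1 + ((2 * (update S b (un (f t)) b).length + 1) + n2)), ?_, ?_⟩
      · rw [update_self, un_length]; omega
      · rw [if_neg h0]
        refine Run.seq hr1 (Run.ite_true ?_ (Run.seq hr2 hr3))
        rw [update_self]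
        obtain ⟨m, hm⟩ : ∃ m, f t = m + 1 := ⟨f t - 1, by omega⟩
        rw [hm, un_succ]
        rfl

/-- primitive recursion with polynomially bounded values -/
theorem UF.recur {N z : τ → ℕ} {s : ℕ × ℕ × τ → ℕ} (hN : UF Γ₁ N) (hz : UF Γ₁ z)
    (hs : UF Γ₁ s) {B : τ → ℕ} (hB : PB B)
    (hbd : ∀ t, ∀ i ≤ N t, Nat.rec (z t) (fun i r => s (i, r, t)) i ≤ B t) :
    UF Γ₁ (fun t => Nat.rec (z t) (fun i r => s (i, r, t)) (N t)) := by
  obtain ⟨pN, TN, hTN, hNle, hNr⟩ := hN
  obtain ⟨pz, Tz, hTz, hzle, hzr⟩ := hz
  obtain ⟨ps, Ts, hTs, hsle, hsr⟩ := hs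
  have hNb : PB N := hTN.of_le hNle
  obtain ⟨M, hM, hM'⟩ := hTs.unif2 hNb hB
  let body : (ℕ → ℕ) → ℕ → Cmd (Sy Γ₀ Γ₁) := fun a b =>
    .seq (.pop b) (.seq (ps (ncons (b + 2) (ncons (b + 1) a)) (b + 3))
      (.seq (clear (b + 1)) (.seq (moveAll (b + 3) (b + 1)) (.push (b + 2) mkS))))
  refine ⟨fun a b => .seq (pN a b) (.seq (pz a (b + 1)) (.seq (.loop b nonemp (body a b))
      (.seq (clear (b + 2)) (moveAll (b + 1) b)))),
    fun t => B t + (TN t + (Tz t + ((N t * (1 + (1 + (M t + (2 * B t + 1 + (2 * B t + 1 + 1))))) + 1)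
      + ((2 * N t + 1) + (2 * B t + 1))))), ?_, ?_, ?_⟩
  · have hBB := ((PB.const 2).mul hB).add (PB.const (τ := τ) 1)
    have h1 := (PB.const (τ := τ) 1).add ((PB.const 1).add (hM.add
      (hBB.add (hBB.add (PB.const 1)))))
    exact hB.add (hTN.add (hTz.add (((hNb.mul h1).add (PB.const 1)).add
      ((((PB.const 2).mul hNb).add (PB.const 1)).add hBB))))
  · intro t
    have := hbd t (N t) le_rfl
    beta_reduce
    omega
  · intro a b t S hS
    beta_reduce
    set v : ℕ → ℕ := fun i => Nat.rec (z t) (fun i r => s (i, r, t)) i with hv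
    have hvB : ∀ i ≤ N t, v i ≤ B t := hbd t
    obtain ⟨n1, hn1, hr1⟩ := hNr a b t S hS
    have hS1 := hS.up (un (N t))
    obtain ⟨n2, hn2, hr2⟩ := hzr a (b + 1) t _ hS1
    -- states along the loop
    let U : ℕ → ℕ → Sto (Sy Γ₀ Γ₁) := fun m i =>
      update (update (update S b (un m)) (b + 1) (un (v i))) (b + 2) (un i)
    have hloop : ∀ m i, m + i = N t → ∃ n ≤ m * (1 + (1 + (M t + (2 * B t + 1 +
        (2 * B t + 1 + 1))))) + 1,
        Run (.loop b nonemp (body a b)) (U m i) n (U 0 (m + i)) := by
      intro m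
      induction m with
      | zero =>
        intro i hi
        refine ⟨1, by omega, ?_⟩
        rw [Nat.zero_add]
        apply Run.loop_false
        simp only [U]
        rw [update_of_ne (by omega), update_of_ne (by omega), update_self]
        rfl
      | succ m ih =>
        intro i hi
        obtain ⟨n, hn, hrun⟩ := ih (i + 1) (by omega)
        -- one iteration
        have hbody : ∃ n ≤ 1 + (M t + (2 * B t + 1 + (2 * B t + 1 + 1))),
            Run (body a b) (U (m + 1) i) n (U m (i + 1)) := by
          have q1 : Run (.pop b) (U (m + 1) i) 1 (U m i) := by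
            refine (Run.pop b _).congr ?_
            funext k
            simp only [U]
            by_cases h1 : k = b
            · subst h1
              rw [update_self, update_of_ne (by omega), update_of_ne (by omega), update_self,
                update_of_ne (by omega), update_of_ne (by omega), update_self, un_succ]
              rfl
            · rw [update_of_ne h1]
              by_cases h2 : k = b + 2
              · subst h2; rw [update_self, update_self]
              · rw [update_of_ne h2, update_of_ne h2]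
                by_cases h3 : k = b + 1
                · subst h3; rw [update_self, update_self]
                · rw [update_of_ne h3, update_of_ne h3, update_of_ne h1, update_of_ne h1]
          have hU : Holds Γ₁ (U m i) t a (b + 3) := ((hS.up (un m)).up (un (v i))).up (un i)
          have hU1 := hU.cons (r := b + 1) (n := v i) (by have := hS.two; omega) (by omega) (by
            simp only [U]; rw [update_of_ne (by omega), update_self])
          have hU2 := hU1.cons (r := b + 2) (n := i) (by have := hS.two; omega) (by omega) (by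
            simp only [U]; rw [update_self])
          obtain ⟨n3, hn3, q2⟩ := hsr _ _ _ _ hU2
          have hvi : s (i, v i, t) = v (i + 1) := rfl
          rw [hvi] at q2
          have hM1 : n3 ≤ M t := hn3.trans (hM' t i (by omega) (v i) (hvB i (by omega)))
          have q3 := run_clear (r := b + 1) _ (update (U m i) (b + 3) (un (v (i + 1)))) rfl
          have q4 := run_moveAll (r := b + 3) (s := b + 1) (by omega) _
            (update (update (U m i) (b + 3) (un (v (i + 1)))) (b + 1) []) rfl
          have q5 := Run.push (b + 2) (mkS : Sy Γ₀ Γ₁) (update (update (update (update (U m i)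
            (b + 3) (un (v (i + 1)))) (b + 1) []) (b + 3) []) (b + 1)
            ((update (update (U m i) (b + 3) (un (v (i + 1)))) (b + 1) [] (b + 3)).reverse ++
              update (update (U m i) (b + 3) (un (v (i + 1)))) (b + 1) [] (b + 1)))
          have l1 : (update (U m i) (b + 3) (un (v (i + 1))) (b + 1)) = un (v i) := by
            rw [update_of_ne (by omega)]
            simp only [U]
            rw [update_of_ne (by omega), update_self]
          have l2 : (update (update (U m i) (b + 3) (un (v (i + 1)))) (b + 1) [] (b + 3))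
              = un (v (i + 1)) := by
            rw [update_of_ne (by omega), update_self]
          refine ⟨1 + (n3 + ((2 * (update (U m i) (b + 3) (un (v (i + 1))) (b + 1)).length + 1) +
            ((2 * (update (update (U m i) (b + 3) (un (v (i + 1)))) (b + 1) [] (b + 3)).length + 1)
              + 1))), ?_, ?_⟩
          · rw [l1, l2, un_length, un_length]
            have := hvB i (by omega)
            have := hvB (i + 1) (by omega)
            omega
          · refine (Run.seq q1 (Run.seq q2 (Run.seq q3 (Run.seq q4 q5)))).congr ?_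
            funext k
            by_cases h1 : k = b + 2
            · subst h1
              simp only [U]
              rw [update_self, update_self]
              rw [update_of_ne (by omega), update_of_ne (by omega), update_of_ne (by omega),
                update_of_ne (by omega), update_self, un_succ, update_self]
            · rw [update_of_ne h1]
              by_cases h2 : k = b + 1
              · subst h2
                rw [update_self, l2, update_self]
                simp only [U]
                rw [update_of_ne (by omega), update_self]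
                simp
              · rw [update_of_ne h2]
                by_cases h3 : k = b + 3
                · subst h3
                  rw [update_self]
                  simp only [U]
                  rw [update_of_ne (by omega), update_of_ne (by omega), update_of_ne (by omega)]
                  exact (hS.emp _ (by omega)).symm
                · rw [update_of_ne h3, update_of_ne h2, update_of_ne h3]
                  simp only [U]
                  rw [update_of_ne h1, update_of_ne h2, update_of_ne h1, update_of_ne h2]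
        obtain ⟨n4, hn4, hb4⟩ := hbody
        refine ⟨1 + (n4 + n), ?_, ?_⟩
        · have : (m + 1) * (1 + (1 + (M t + (2 * B t + 1 + (2 * B t + 1 + 1))))) =
            m * (1 + (1 + (M t + (2 * B t + 1 + (2 * B t + 1 + 1))))) +
              (1 + (1 + (M t + (2 * B t + 1 + (2 * B t + 1 + 1))))) := by ring
          omega
        · have e : m + 1 + i = m + (i + 1) := by ring
          rw [e]
          refine Run.loop_true ?_ hb4 hrun
          simp only [U]
          rw [update_of_ne (by omega), update_of_ne (by omega), update_self, un_succ]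
          rfl
    obtain ⟨n3, hn3, hr3⟩ := hloop (N t) 0 (by omega)
    have hstart : update (update S b (un (N t))) (b + 1) (un (z t)) = U (N t) 0 := by
      funext k
      simp only [U]
      by_cases h1 : k = b + 2
      · subst h1
        rw [update_self, update_of_ne (by omega), update_of_ne (by omega)]
        exact hS.emp _ (by omega)
      · rw [update_of_ne h1]
        rfl
    rw [hstart] at hr2
    rw [Nat.add_zero] at hr3
    have hr4 := run_clear (r := b + 2) _ (U 0 (N t)) rfl
    have hr5 := run_moveAll (r := b + 1) (s := b) (by omega) _ (update (U 0 (N t)) (b + 2) []) rfl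
    have l1 : U 0 (N t) (b + 2) = un (N t) := by simp only [U]; rw [update_self]
    have l2 : update (U 0 (N t)) (b + 2) [] (b + 1) = un (v (N t)) := by
      rw [update_of_ne (by omega)]
      simp only [U]
      rw [update_of_ne (by omega), update_self]
    refine ⟨_, ?_, (Run.seq hr1 (Run.seq hr2 (Run.seq hr3 (Run.seq hr4 hr5)))).congr ?_⟩
    · rw [l1, l2, un_length, un_length]
      have := hvB (N t) le_rfl
      omega
    · funext k
      show _ = update S b (un (v (N t))) k
      by_cases h1 : k = b
      · subst h1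
        rw [update_self, l2, update_self, update_of_ne (by omega)]
        simp only [U]
        rw [update_of_ne (by omega), update_of_ne (by omega), update_self]
        simp
      · rw [update_of_ne h1, update_of_ne h1]
        by_cases h2 : k = b + 1
        · subst h2
          rw [update_self]
          exact (hS.emp _ (by omega)).symm
        · rw [update_of_ne h2]
          by_cases h3 : k = b + 2
          · subst h3
            rw [update_self]
            exact (hS.emp _ (by omega)).symm
          · rw [update_of_ne h3]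
            simp only [U]
            rw [update_of_ne h3, update_of_ne h2, update_of_ne h1]

end Pool.Agent.H.MP_84f0af_lc
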