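import Pool.Agent.H.MP_84f0af_lc.UFdef

/-!
Closure properties of the class of functions computable in polynomial time.
-/

namespace Pool.Agent.H.MP_84f0af_lc

open Function

variable {Γ₀ Γ₁ τ τ' : Type} [Env τ Γ₀] [Env τ' Γ₀]

/-! ### Renaming of variables -/

/-- `x` is one of the variables -/
def IsVar (x : τ → ℕ) : Prop := ∃ j < Env.k τ, ∀ s, x s = Env.val s j

theorem IsVar.fst : IsVar (fun p : ℕ × τ => p.1) := ⟨0, Nat.succ_pos _, fun _ => rfl⟩

theorem IsVar.weak {x : τ → ℕ} (h : IsVar x) : IsVar (fun p : ℕ × τ => x p.2) := by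
  obtain ⟨j, hj, hx⟩ := h
  exact ⟨j + 1, Nat.succ_lt_succ hj, fun p => hx p.2⟩

/-- renaming of variables -/
def Ren (ρ : τ' → τ) : Prop :=
  ∃ m : ℕ → ℕ, (∀ i < Env.k τ, m i < Env.k τ') ∧
    (∀ s, ∀ i < Env.k τ, Env.val (ρ s) i = Env.val s (m i)) ∧ ∀ s, Env.inp (ρ s) = Env.inp s

theorem Ren.inp : Ren (fun s : τ => Env.inp s) :=
  ⟨id, fun _ hi => absurd hi (Nat.not_lt_zero _), fun _ _ hi => absurd hi (Nat.not_lt_zero _),
    fun _ => rfl⟩

theorem Ren.id : Ren (fun s : τ => s) := ⟨_root_.id, fun _ hi => hi, fun _ _ _ => rfl, fun _ => rfl⟩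

theorem Ren.weak {ρ : τ' → τ} (h : Ren ρ) : Ren (fun p : ℕ × τ' => ρ p.2) := by
  obtain ⟨m, h1, h2, h3⟩ := h
  exact ⟨fun i => m i + 1, fun i hi => Nat.succ_lt_succ (h1 i hi), fun p i hi => h2 p.2 i hi,
    fun p => h3 p.2⟩

theorem Ren.cons {ρ : τ' → τ} {x : τ' → ℕ} (hx : IsVar x) (h : Ren ρ) :
    Ren (fun s => ((x s, ρ s) : ℕ × τ)) := by
  obtain ⟨m, h1, h2, h3⟩ := h
  obtain ⟨j, hj, hx⟩ := hx
  refine ⟨ncons j m, ?_, ?_, h3⟩
  · intro i hi
    cases i with
    | zero => exact hj
    | succ i => exact h1 i (Nat.lt_of_succ_lt_succ hi)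
  · intro s i hi
    cases i with
    | zero => exact hx s
    | succ i => exact h2 s i (Nat.lt_of_succ_lt_succ hi)

theorem Ren.esize_le {ρ : τ' → τ} (h : Ren ρ) (s : τ') :
    esize (ρ s) ≤ (Env.k τ + 1) * esize s := by
  obtain ⟨m, h1, h2, h3⟩ := h
  unfold esize
  rw [h3, add_mul, one_mul, add_comm]
  refine Nat.add_le_add ?_ (Nat.le_add_right _ _)
  calc ∑ i ∈ Finset.range (Env.k τ), Env.val (ρ s) i
      ≤ ∑ i ∈ Finset.range (Env.k τ), esize s :=
        Finset.sum_le_sum fun i hi => by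
          rw [h2 s i (Finset.mem_range.1 hi)]
          exact val_le_esize s (h1 i (Finset.mem_range.1 hi))
    _ = Env.k τ * esize s := by rw [Finset.sum_const, Finset.card_range, smul_eq_mul]

theorem PB.rename {ρ : τ' → τ} (h : Ren ρ) {f : τ → ℕ} (hf : PB f) : PB (fun s => f (ρ s)) := by
  obtain ⟨e, he⟩ := hf
  have h1 : PB (fun s : τ' => ((Env.k τ + 1) * esize s + 2) ^ e) :=
    (((PB.const (Env.k τ + 1)).mul PB.size).add (PB.const 2)).pow e
  exact h1.of_le fun s => (he (ρ s)).trans (Nat.pow_le_pow_left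
    (Nat.add_le_add_right (h.esize_le s) 2) e)

theorem Holds.rename {ρ : τ' → τ} {m : ℕ → ℕ} (h1 : ∀ i < Env.k τ, m i < Env.k τ')
    (h2 : ∀ s, ∀ i < Env.k τ, Env.val (ρ s) i = Env.val s (m i))
    (h3 : ∀ s, Env.inp (ρ s) = Env.inp s) {S : Sto (Sy Γ₀ Γ₁)} {s : τ'} {a : ℕ → ℕ} {b : ℕ}
    (h : Holds Γ₁ S s a b) : Holds Γ₁ S (ρ s) (fun i => a (m i)) b where
  inp := by rw [h3]; exact h.inp
  two := h.two
  lo := fun i hi => h.lo _ (h1 i hi)
  hi := fun i hi => h.hi _ (h1 i hi)
  val := fun i hi => by rw [h2 s i hi]; exact h.val _ (h1 i hi)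
  emp := h.emp

theorem UF.rename {f : τ → ℕ} (hf : UF Γ₁ f) {ρ : τ' → τ} (h : Ren ρ) :
    UF Γ₁ (fun s => f (ρ s)) := by
  obtain ⟨prog, T, hT, hf, hr⟩ := hf
  have hT' := hT.rename h
  obtain ⟨m, h1, h2, h3⟩ := h
  exact ⟨fun a b => prog (fun i => a (m i)) b, fun s => T (ρ s), hT', fun s => hf (ρ s),
    fun a b s S hS => hr _ b (ρ s) S (hS.rename h1 h2 h3)⟩

theorem Emits.rename {f : τ → List Γ₁} (hf : Emits Γ₁ f) {ρ : τ' → τ} (h : Ren ρ) :
    Emits Γ₁ (fun s => f (ρ s)) := by
  obtain ⟨prog, T, hT, hf, hr⟩ := hf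
  have hT' := hT.rename h
  obtain ⟨m, h1, h2, h3⟩ := h
  exact ⟨fun a b => prog (fun i => a (m i)) b, fun s => T (ρ s), hT', fun s => hf (ρ s),
    fun a b s S hS => hr _ b (ρ s) S (hS.rename h1 h2 h3)⟩

theorem UF.var {x : τ → ℕ} (hx : IsVar x) : UF Γ₁ x := by
  have h : Ren (fun s : τ => ((x s, Env.inp s) : ℕ × List Γ₀)) := Ren.cons hx Ren.inp
  exact (UF.fst (Γ₁ := Γ₁) (τ := List Γ₀)).rename h

/-- second variable -/
theorem UF.snd : UF Γ₁ (fun p : ℕ × ℕ × τ => p.2.1) := UF.var IsVar.fst.weak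

/-! ### Arithmetic -/

theorem UF.pred {f : τ → ℕ} (hf : UF Γ₁ f) : UF Γ₁ (fun t => f t - 1) := by
  have key : ∀ t : τ, ∀ i : ℕ, (Nat.rec 0 (fun i _ => i) i : ℕ) = i - 1 := by
    intro t i
    cases i <;> simp
  have h := UF.recur (Γ₁ := Γ₁) (N := f) (z := fun _ => 0) (s := fun p => p.1) (B := f) hf
    (UF.const 0) UF.fst hf.pb (by
      intro t i hi
      have := key t i
      beta_reduce
      rw [this]
      omega)
  exact h.congr fun t => key t (f t)

theorem UF.add {f g : τ → ℕ} (hf : UF Γ₁ f) (hg : UF Γ₁ g) : UF Γ₁ (fun t => f t + g t) := by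
  have key : ∀ t : τ, ∀ i : ℕ, (Nat.rec (f t) (fun _ r => r + 1) i : ℕ) = f t + i := by
    intro t i
    induction i with
    | zero => rfl
    | succ i ih => show _ + 1 = _; rw [ih]; omega
  have h := UF.recur (Γ₁ := Γ₁) (N := g) (z := f) (s := fun p => p.2.1 + 1)
    (B := fun t => f t + g t) hg hf UF.snd.succ (hf.pb.add hg.pb) (by
      intro t i hi
      have := key t i
      beta_reduce
      rw [this]
      omega)
  exact h.congr fun t => key t (g t)

theorem UF.sub {f g : τ → ℕ} (hf : UF Γ₁ f) (hg : UF Γ₁ g) : UF Γ₁ (fun t => f t - g t) := by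
  have key : ∀ t : τ, ∀ i : ℕ, (Nat.rec (f t) (fun _ r => r - 1) i : ℕ) = f t - i := by
    intro t i
    induction i with
    | zero => rfl
    | succ i ih => show _ - 1 = _; rw [ih]; omega
  have h := UF.recur (Γ₁ := Γ₁) (N := g) (z := f) (s := fun p => p.2.1 - 1)
    (B := f) hg hf UF.snd.pred hf.pb (by
      intro t i hi
      have := key t i
      beta_reduce
      rw [this]
      omega)
  exact h.congr fun t => key t (g t)

/-- sums -/
theorem UF.sum {F : ℕ × τ → ℕ} (hF : UF Γ₁ F) {g : τ → ℕ} (hg : UF Γ₁ g) :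
    UF Γ₁ (fun t => ∑ i ∈ Finset.range (g t), F (i, t)) := by
  have key : ∀ t : τ, ∀ i : ℕ, (Nat.rec 0 (fun i r => r + F (i, t)) i : ℕ)
      = ∑ i ∈ Finset.range i, F (i, t) := by
    intro t i
    induction i with
    | zero => rfl
    | succ i ih => show _ + F (i, t) = _; rw [ih, Finset.sum_range_succ]
  obtain ⟨M, hM, hM'⟩ := hF.pb.unif hg.pb
  have h := UF.recur (Γ₁ := Γ₁) (N := g) (z := fun _ => 0) (s := fun p => p.2.1 + F (p.1, p.2.2))
    (B := fun t => g t * M t) hg (UF.const 0)
    (UF.snd.add (hF.rename (Ren.cons IsVar.fst Ren.id.weak.weak)))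
    (hg.pb.mul hM) (by
      intro t i hi
      have h1 := key t i
      beta_reduce
      rw [h1]
      calc ∑ i ∈ Finset.range i, F (i, t) ≤ ∑ _i ∈ Finset.range i, M t :=
            Finset.sum_le_sum fun j hj => hM' t j (by have := Finset.mem_range.1 hj; omega)
        _ = i * M t := by rw [Finset.sum_const, Finset.card_range, smul_eq_mul]
        _ ≤ g t * M t := Nat.mul_le_mul_right _ hi)
  exact h.congr fun t => key t (g t)

theorem UF.mul {f g : τ → ℕ} (hf : UF Γ₁ f) (hg : UF Γ₁ g) : UF Γ₁ (fun t => f t * g t) := by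
  refine (UF.sum (F := fun p => g p.2) hg.weak hf).congr fun t => ?_
  show ∑ i ∈ Finset.range (f t), g t = _
  rw [Finset.sum_const, Finset.card_range, smul_eq_mul]

/-! ### Predicates -/

open Classical in
/-- predicates decidable in polynomial time -/
def UP (Γ₁ : Type) (P : τ → Prop) : Prop := UF Γ₁ (fun t => if P t then 1 else 0)

theorem UP.congr {P Q : τ → Prop} (h : UP Γ₁ P) (e : ∀ t, P t ↔ Q t) : UP Γ₁ Q := by
  have : P = Q := funext fun t => propext (e t)
  rwa [← this]

theorem UP.rename {P : τ → Prop} (hf : UP Γ₁ P) {ρ : τ' → τ} (h : Ren ρ) :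
    UP Γ₁ (fun s => P (ρ s)) :=
  UF.rename (f := fun t => _) hf h

theorem UP.weak {P : τ → Prop} (h : UP Γ₁ P) : UP Γ₁ (fun p : ℕ × τ => P p.2) :=
  UF.weak (f := fun t => _) h

theorem UF.ite {P : τ → Prop} [∀ t, Decidable (P t)] (hP : UP Γ₁ P) {f g : τ → ℕ}
    (hf : UF Γ₁ f) (hg : UF Γ₁ g) : UF Γ₁ (fun t => if P t then f t else g t) := by
  refine (UF.ite0 hP hg hf).congr fun t => ?_
  by_cases h : P t <;> simp [h]

theorem UP.eq0 {f : τ → ℕ} (hf : UF Γ₁ f) : UP Γ₁ (fun t => f t = 0) := by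
  refine (UF.ite0 hf (UF.const 1) (UF.const 0)).congr fun t => ?_
  by_cases h : f t = 0 <;> simp [h]

theorem UP.of_uf {P : τ → Prop} [∀ t, Decidable (P t)]
    (h : UF Γ₁ (fun t => if P t then 1 else 0)) : UP Γ₁ P :=
  UF.congr h fun t => by by_cases h : P t <;> simp [h]

theorem UP.not {P : τ → Prop} (h : UP Γ₁ P) : UP Γ₁ (fun t => ¬ P t) := by
  refine (UF.ite0 h (UF.const 1) (UF.const 0)).congr fun t => ?_
  by_cases h : P t <;> simp [h]

theorem UP.and {P Q : τ → Prop} (h : UP Γ₁ P) (h' : UP Γ₁ Q) : UP Γ₁ (fun t => P t ∧ Q t) := by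
  refine (UF.ite0 h (UF.const 0) h').congr fun t => ?_
  by_cases h1 : P t <;> by_cases h2 : Q t <;> simp [h1, h2]

theorem UP.or {P Q : τ → Prop} (h : UP Γ₁ P) (h' : UP Γ₁ Q) : UP Γ₁ (fun t => P t ∨ Q t) := by
  refine (UF.ite0 h h' (UF.const 1)).congr fun t => ?_
  by_cases h1 : P t <;> by_cases h2 : Q t <;> simp [h1, h2]

theorem UP.imp {P Q : τ → Prop} (h : UP Γ₁ P) (h' : UP Γ₁ Q) : UP Γ₁ (fun t => P t → Q t) := by
  refine (UF.ite0 h (UF.const 1) h').congr fun t => ?_
  by_cases h1 : P t <;> by_cases h2 : Q t <;> simp [h1, h2]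

theorem UP.const (P : Prop) : UP Γ₁ (fun _ : τ => P) := by
  by_cases h : P
  · exact (UF.const 1).congr fun t => by simp [h]
  · exact (UF.const 0).congr fun t => by simp [h]

theorem UP.le {f g : τ → ℕ} (hf : UF Γ₁ f) (hg : UF Γ₁ g) : UP Γ₁ (fun t => f t ≤ g t) :=
  (UP.eq0 (hf.sub hg)).congr fun _ => by omega

theorem UP.lt {f g : τ → ℕ} (hf : UF Γ₁ f) (hg : UF Γ₁ g) : UP Γ₁ (fun t => f t < g t) :=
  (UP.le hf.succ hg).congr fun _ => by omega

theorem UP.eq {f g : τ → ℕ} (hf : UF Γ₁ f) (hg : UF Γ₁ g) : UP Γ₁ (fun t => f t = g t) :=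
  ((UP.le hf hg).and (UP.le hg hf)).congr fun _ => by omega

theorem UP.ex {P : ℕ × τ → Prop} (h : UP Γ₁ P) {g : τ → ℕ} (hg : UF Γ₁ g) :
    UP Γ₁ (fun t => ∃ i < g t, P (i, t)) := by
  refine ((UP.eq0 (UF.sum h hg)).not).congr fun t => ?_
  rw [Finset.sum_eq_zero_iff, not_forall]
  simp only [Finset.mem_range, ite_eq_right_iff, one_ne_zero, imp_false, not_forall, not_not,
    exists_prop]

theorem UP.all {P : ℕ × τ → Prop} (h : UP Γ₁ P) {g : τ → ℕ} (hg : UF Γ₁ g) :
    UP Γ₁ (fun t => ∀ i < g t, P (i, t)) := by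
  refine ((h.not.ex hg).not).congr fun t => ?_
  push Not
  rfl

/-! ### Division -/

theorem UF.div {f g : τ → ℕ} (hf : UF Γ₁ f) (hg : UF Γ₁ g) : UF Γ₁ (fun t => f t / g t) := by
  have h1 : UP Γ₁ (fun p : ℕ × τ => (p.1 + 1) * g p.2 ≤ f p.2) :=
    UP.le (UF.fst.succ.mul hg.weak) hf.weak
  refine (UF.ite (P := fun t => g t = 0) (UP.eq0 hg) (UF.const 0) (UF.sum h1 hf)).congr
    fun t => ?_
  split_ifs with h
  · rw [h, Nat.div_zero]
  · have hp : 0 < g t := Nat.pos_of_ne_zero h
    refine (Finset.sum_congr (g := fun i => if i < f t / g t then 1 else 0) rfl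
      fun i _ => ?_).trans ?_
    · have h3 : (i + 1) * g t ≤ f t ↔ i < f t / g t := by
        rw [← Nat.le_div_iff_mul_le hp]
        omega
      by_cases h2 : i < f t / g t
      · rw [if_pos (h3.2 h2), if_pos h2]
      · rw [if_neg (fun h4 => h2 (h3.1 h4)), if_neg h2]
    · rw [← Finset.card_filter]
      have e : (Finset.range (f t)).filter (fun i => i < f t / g t)
          = Finset.range (f t / g t) := by
        ext i
        simp only [Finset.mem_filter, Finset.mem_range]
        have := Nat.div_le_self (f t) (g t)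
        omega
      rw [e, Finset.card_range]

theorem UF.mod {f g : τ → ℕ} (hf : UF Γ₁ f) (hg : UF Γ₁ g) : UF Γ₁ (fun t => f t % g t) :=
  (hf.sub (hg.mul (hf.div hg))).congr fun t => (Nat.mod_eq_sub_mul_div).symm

theorem UP.dvd {f g : τ → ℕ} (hf : UF Γ₁ f) (hg : UF Γ₁ g) : UP Γ₁ (fun t => f t ∣ g t) :=
  (UP.eq0 (hg.mod hf)).congr fun t => (Nat.dvd_iff_mod_eq_zero).symm

/-- finite functions -/
theorem UF.table (tab : ℕ → ℕ) (N : ℕ) {f : τ → ℕ} (hf : UF Γ₁ f) :
    UF Γ₁ (fun t => if f t < N then tab (f t) else 0) := by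
  induction N with
  | zero => exact (UF.const 0).congr fun t => by simp
  | succ N ih =>
    refine (UF.ite (P := fun t => f t = N) (UP.eq hf (UF.const N)) (UF.const (tab N)) ih).congr
      fun t => ?_
    by_cases h1 : f t = N
    · simp [h1]
    · by_cases h2 : f t < N
      · have h3 : f t < N + 1 := by omega
        simp [h1, h2, h3]
      · have h3 : ¬ f t < N + 1 := by omega
        simp [h1, h2, h3]

/-- a function with finitely many nonzero values -/
theorem UF.table' (tab : ℕ → ℕ) (N : ℕ) (hN : ∀ i, N ≤ i → tab i = 0) {f : τ → ℕ}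
    (hf : UF Γ₁ f) : UF Γ₁ (fun t => tab (f t)) :=
  (UF.table tab N hf).congr fun t => by
    split_ifs with h
    · rfl
    · exact (hN _ (by omega)).symm

/-- finite functions of two arguments -/
theorem UF.table2 (tab : ℕ → ℕ → ℕ) (N M : ℕ) {f g : τ → ℕ} (hf : UF Γ₁ f) (hg : UF Γ₁ g) :
    UF Γ₁ (fun t => if f t < N ∧ g t < M then tab (f t) (g t) else 0) := by
  induction N with
  | zero => exact (UF.const 0).congr fun t => by simp
  | succ N ih =>
    refine (UF.ite (P := fun t => f t = N) (UP.eq hf (UF.const N))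
      (UF.table (tab N) M hg) ih).congr fun t => ?_
    by_cases h1 : f t = N
    · simp [h1]
    · by_cases h2 : f t < N
      · have h3 : f t < N + 1 := by omega
        simp [h1, h2, h3]
      · have h3 : ¬ f t < N + 1 := by omega
        simp [h1, h2, h3]

theorem UF.table2' (tab : ℕ → ℕ → ℕ) (N M : ℕ) (hN : ∀ i j, N ≤ i → tab i j = 0)
    (hM : ∀ i j, M ≤ j → tab i j = 0) {f g : τ → ℕ} (hf : UF Γ₁ f) (hg : UF Γ₁ g) :
    UF Γ₁ (fun t => tab (f t) (g t)) :=
  (UF.table2 tab N M hf hg).congr fun t => by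
    split_ifs with h
    · rfl
    · rw [not_and_or] at h
      rcases h with h | h
      · exact (hN _ _ (by omega)).symm
      · exact (hM _ _ (by omega)).symm

/-- substitution in a function of two arguments -/
theorem UF.comp2 {F : ℕ → ℕ → ℕ} (hF : UF Γ₁ (fun p : ℕ × ℕ × τ => F p.1 p.2.1)) {f g : τ → ℕ}
    (hf : UF Γ₁ f) (hg : UF Γ₁ g) : UF Γ₁ (fun t => F (f t) (g t)) := by
  have h1 : UF Γ₁ (fun p : ℕ × τ => F (f p.2) p.1) := UF.comp hF hf.weak
  exact UF.comp h1 hg

/-! ### The input -/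

theorem run_len {A : Type} {r s : ℕ} (hrs : r ≠ s) (m : A) : ∀ (l : List A) (S : Sto A), S r = l →
    Run (.loop r nonemp (.seq (.pop r) (.push s m))) S (3 * l.length + 1)
      (update (update S r []) s (List.replicate l.length m ++ S s)) := by
  intro l
  induction l with
  | nil =>
    intro S hS
    refine (Run.loop_false (by rw [hS]; rfl)).congr ?_
    funext k
    simp only [update_apply]
    split_ifs with k1 k2
    · rw [k1]; simp
    · rw [k2, hS]
    · rfl
  | cons a l ih =>
    intro S hS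
    have h1 := ih (update (update S r l) s (m :: S s)) (by
      rw [update_of_ne hrs, update_self])
    have h2 : Run (.seq (.pop r) (.push s m)) S (1 + 1) (update (update S r l) s (m :: S s)) := by
      refine (Run.seq (Run.pop r S) (Run.push s m _)).congr ?_
      rw [hS, update_of_ne hrs.symm]
      rfl
    have h3 := (Run.loop_true (p := nonemp) (by rw [hS]; rfl) h2 h1)
    have e : 3 * (a :: l).length + 1 = 1 + (1 + 1 + (3 * l.length + 1)) := by
      rw [List.length_cons]; ring
    rw [e]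
    refine h3.congr ?_
    clear h1 h2 h3 ih
    funext k
    simp only [update_apply]
    split_ifs with k1 k2
    · rw [List.length_cons, List.replicate_succ']
      simp
    · rfl
    · rfl

/-- length of the input -/
theorem UF.len : UF Γ₁ (fun t : τ => (Env.inp t).length) := by
  refine ⟨fun _ b => .seq (copy 0 (b + 1) (b + 2))
    (.loop (b + 1) nonemp (.seq (.pop (b + 1)) (.push b mkS))), fun t => 7 * esize t + 3,
    ((PB.const 7).mul PB.size).add (PB.const 3), ?_, ?_⟩
  · intro t
    beta_reduce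
    have := len_le_esize t
    omega
  · intro a b t S hS
    beta_reduce
    have h0 := hS.two
    have h1 := run_copy (r := 0) (s := b + 1) (t := b + 2) (by omega) (by omega) (by omega)
      (hS.emp _ (by omega)) (hS.emp _ (by omega))
    have h2 := run_len (r := b + 1) (s := b) (by omega) (mkS : Sy Γ₀ Γ₁) (S 0)
      (update S (b + 1) (S 0)) (by rw [update_self])
    refine ⟨_, ?_, (Run.seq h1 h2).congr ?_⟩
    · rw [hS.inp, List.length_map]
      have := len_le_esize t
      omega
    · funext k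
      simp only [update_apply]
      split_ifs with k1 k2
      · exact absurd k2 (by omega)
      · rw [hS.emp b le_rfl, List.append_nil, hS.inp, List.length_map]
        rfl
      · rename_i k3
        rw [k3, hS.emp _ (by omega)]
      · rfl

theorem run_drop {A : Type} {r s : ℕ} (hrs : r ≠ s) : ∀ (l : List A) (S : Sto A), S r = l →
    Run (.loop r nonemp (.seq (.pop r) (.pop s))) S (3 * l.length + 1)
      (update (update S r []) s ((S s).drop l.length)) := by
  intro l
  induction l with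
  | nil =>
    intro S hS
    refine (Run.loop_false (by rw [hS]; rfl)).congr ?_
    funext k
    simp only [update_apply]
    split_ifs with k1 k2
    · rw [k1]; simp
    · rw [k2, hS]
    · rfl
  | cons a l ih =>
    intro S hS
    have h1 := ih (update (update S r l) s (S s).tail) (by
      rw [update_of_ne hrs, update_self])
    have h2 : Run (.seq (.pop r) (.pop s)) S (1 + 1) (update (update S r l) s (S s).tail) := by
      refine (Run.seq (Run.pop r S) (Run.pop s _)).congr ?_
      rw [hS, update_of_ne hrs.symm]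
      rfl
    have h3 := (Run.loop_true (p := nonemp) (by rw [hS]; rfl) h2 h1)
    have e : 3 * (a :: l).length + 1 = 1 + (1 + 1 + (3 * l.length + 1)) := by
      rw [List.length_cons]; ring
    rw [e]
    refine h3.congr ?_
    clear h1 h2 h3 ih
    funext k
    simp only [update_apply]
    split_ifs with k1 k2
    · rw [List.length_cons, ← List.drop_one, List.drop_drop, add_comm]
    · rfl
    · rfl

/-- test of an input symbol -/
theorem UP.test (p : Option Γ₀ → Bool) {g : τ → ℕ} (hg : UF Γ₁ g) :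
    UP Γ₁ (fun t => p ((Env.inp t)[g t]?) = true) := by
  apply UP.of_uf
  obtain ⟨prog, T, hT, hle, hr⟩ := hg
  let p' : Option (Sy Γ₀ Γ₁) → Bool := fun o =>
    match o with
    | some (some (Sum.inl x)) => p (some x)
    | _ => p none
  refine ⟨fun a b => .seq (prog a b) (.seq (copy 0 (b + 1) (b + 2))
      (.seq (.loop b nonemp (.seq (.pop b) (.pop (b + 1))))
        (.ite (b + 1) p' (.seq (clear (b + 1)) (.push b mkS)) (clear (b + 1))))),
    fun t => T t + (4 * esize t + 2 + (3 * T t + 1 + (1 + (2 * esize t + 1 + 1)))), ?_, ?_, ?_⟩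
  · exact hT.add ((((PB.const 4).mul PB.size).add (PB.const 2)).add
      ((((PB.const 3).mul hT).add (PB.const 1)).add ((PB.const 1).add
        ((((PB.const 2).mul PB.size).add (PB.const 1)).add (PB.const 1)))))
  · intro t
    beta_reduce
    split_ifs <;> omega
  · intro a b t S hS
    beta_reduce
    have h0 := hS.two
    obtain ⟨n1, hn1, r1⟩ := hr a b t S hS
    have e1 : ∀ k, k ≠ b → update S b (un (g t)) k = S k := fun k hk => update_of_ne hk _ _
    have r2 := run_copy (r := 0) (s := b + 1) (t := b + 2) (S := update S b (un (g t)))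
      (by omega) (by omega) (by omega)
      (by rw [e1 _ (by omega)]; exact hS.emp _ (by omega))
      (by rw [e1 _ (by omega)]; exact hS.emp _ (by omega))
    rw [e1 0 (by omega), hS.inp] at r2
    have r3 := run_drop (r := b) (s := b + 1) (by omega) _
      (update (update S b (un (g t))) (b + 1) ((Env.inp t).map (inS Γ₁))) rfl
    have e2 : (update (update S b (un (g t))) (b + 1) ((Env.inp t).map (inS Γ₁))) b
        = un (g t) := by rw [update_of_ne (by omega), update_self]
    rw [e2, un_length, update_self] at r3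
    set S3 : Sto (Sy Γ₀ Γ₁) := update (update (update (update S b (un (g t))) (b + 1)
      ((Env.inp t).map (inS Γ₁))) b []) (b + 1) (((Env.inp t).map (inS Γ₁)).drop (g t)) with hS3
    have e3 : S3 (b + 1) = ((Env.inp t).map (inS Γ₁)).drop (g t) := by rw [hS3, update_self]
    have e4 : p' (S3 (b + 1)).head? = p ((Env.inp t)[g t]?) := by
      rw [e3, List.head?_drop, List.getElem?_map]
      cases (Env.inp t)[g t]? <;> rfl
    have r4 := run_clear (r := b + 1) _ S3 rfl
    have hlen : (S3 (b + 1)).length ≤ esize t := by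
      rw [e3, List.length_drop, List.length_map]
      have := len_le_esize t
      omega
    have e5 : update S3 (b + 1) [] = S := by
      rw [hS3]
      funext k
      simp only [update_apply]
      split_ifs with k1 k2
      · rw [k1, hS.emp _ (by omega)]
      · rw [k2, hS.emp _ le_rfl]
      · rfl
    have hle' := hle t
    rw [List.length_map] at r2
    have hl := len_le_esize t
    by_cases hp : p ((Env.inp t)[g t]?) = true
    · rw [if_pos hp]
      have r5 := Run.push b (mkS : Sy Γ₀ Γ₁) (update S3 (b + 1) [])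
      refine ⟨_, ?_, (Run.seq r1 (Run.seq r2 (Run.seq r3 (Run.ite_true
        (by rw [e4, hp]) (Run.seq r4 r5))))).congr ?_⟩
      · omega
      · rw [e5, hS.emp b le_rfl]
        rfl
    · rw [if_neg hp]
      rw [e5] at r4
      refine ⟨_, ?_, (Run.seq r1 (Run.seq r2 (Run.seq r3 (Run.ite_false
        (by rw [e4]; simpa using hp) r4)))).congr ?_⟩
      · omega
      · rw [un_zero, ← hS.emp b le_rfl, update_eq_self]

/-- a function of an input symbol -/
theorem UF.sym [Fintype Γ₀] (tab : Option Γ₀ → ℕ) {g : τ → ℕ} (hg : UF Γ₁ g) :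
    UF Γ₁ (fun t => tab ((Env.inp t)[g t]?)) := by
  classical
  have h : ∀ l : List (Option Γ₀), l.Nodup →
      UF Γ₁ (fun t => if (Env.inp t)[g t]? ∈ l then tab ((Env.inp t)[g t]?) else 0) := by
    intro l
    induction l with
    | nil => exact fun _ => (UF.const 0).congr fun t => by simp
    | cons a l ih =>
      intro hl
      refine (UF.ite (UP.test (fun o => decide (o = a)) hg) (UF.const (tab a))
        (ih (List.nodup_cons.1 hl).2)).congr fun t => ?_
      by_cases h1 : (Env.inp t)[g t]? = a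
      · simp [h1]
      · simp [h1]
  refine (h Finset.univ.toList (Finset.nodup_toList _)).congr fun t => ?_
  simp

end Pool.Agent.H.MP_84f0af_lc
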